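import Pool.Agent.Lib.MP_8b575b_co.Spr.Spec

/-!
MP_8b575b_co: the final contradiction, algebra (`S_Alg`).
-/

set_option autoImplicit false

namespace Pool.Agent.MP8bS

open Finset

open scoped Classical

private theorem alg_add {K : Type} [Field K] [CharP K 2] {x y : K} (hx : x = 0 ∨ x = 1)
    (hy : y = 0 ∨ y = 1) : x + y = 0 ∨ x + y = 1 := by
  have h2 : (1 : K) + 1 = 0 := CharTwo.add_self_eq_zero 1
  rcases hx with rfl | rfl <;> rcases hy with rfl | rfl
  · left; rw [add_zero]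
  · right; rw [zero_add]
  · right; rw [add_zero]
  · left; exact h2

private theorem alg_sq {K : Type} [Field K] {x : K} (hx : x = 0 ∨ x = 1) : x ^ 2 = x := by
  rcases hx with rfl | rfl
  · exact zero_pow two_ne_zero
  · exact one_pow 2

private theorem alg_idem {K : Type} [Field K] {x : K} (hx : x ^ 2 = x) : x = 0 ∨ x = 1 := by
  have h : x * (x - 1) = 0 := by
    rw [mul_sub, mul_one, ← pow_two, hx, sub_self]
  rcases mul_eq_zero.1 h with h | h
  · exact Or.inl h
  · exact Or.inr (sub_eq_zero.1 h)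

/-- the normalized identity -/
private theorem alg_star {K : Type} [Field K] [CharP K 2] (m n m₁ m₂ c X Y : K) (q : ℕ)
    (hq : ∃ t, q = 2 ^ t) (hn : n ≠ 0) (hs : m₁ + m₂ = n)
    (h : m₁ ^ (q + 1) + m₂ ^ (q + 1) = n ^ (q + 1) * c + X * (n ^ q * m) + Y * (m ^ q * n)) :
    (m₁ / n) ^ q + m₁ / n + 1 = c + X * (m / n) + Y * (m / n) ^ q := by
  obtain ⟨t, rfl⟩ := hq
  have hm2 : m₂ / n = m₁ / n + 1 := by
    have h1 : m₁ / n + m₂ / n = 1 := by rw [← add_div, hs, div_self hn]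
    have h2 : m₁ / n + m₁ / n = 0 := CharTwo.add_self_eq_zero _
    calc m₂ / n = (m₁ / n + m₁ / n) + m₂ / n := by rw [h2, zero_add]
      _ = m₁ / n + (m₁ / n + m₂ / n) := by ring
      _ = m₁ / n + 1 := by rw [h1]
  have hnq : n ^ (2 ^ t + 1) ≠ 0 := pow_ne_zero _ hn
  have h3 : (m₁ / n) ^ (2 ^ t + 1) + (m₂ / n) ^ (2 ^ t + 1) =
      c + X * (m / n) + Y * (m / n) ^ 2 ^ t := by
    rw [div_pow, div_pow, ← add_div, h, div_pow, pow_succ]
    field_simp
  have h4 : (m₁ / n + 1) ^ (2 ^ t + 1) = ((m₁ / n) ^ 2 ^ t + 1) * (m₁ / n + 1) := by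
    rw [pow_succ, add_pow_char_pow, one_pow]
  rw [hm2, h4, pow_succ] at h3
  have h5 : (m₁ / n) ^ 2 ^ t * (m₁ / n) + (m₁ / n) ^ 2 ^ t * (m₁ / n) = 0 :=
    CharTwo.add_self_eq_zero _
  rw [← h3]
  linear_combination (-1 : K) * h5

/-- The contradiction. -/
theorem tAlg : S_Alg := by
  intro K _ _ k i' hk hu m n m₁ m₂ hn hm hmn hm1 hm2 hs H
  set M := m₁ / n with hM
  set ρ := m / n with hρ
  have hρ0 : ρ ≠ 0 := div_ne_zero hm hn
  have hρ1 : ρ ≠ 1 := by
    intro h
    rw [hρ, div_eq_one_iff_eq hn] at h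
    exact hmn h
  -- the identity
  have star : ∀ t : ℕ, 1 ≤ t → t < k → ∃ c : K, (c = 0 ∨ c = 1) ∧ (k = 4 → t = 2 → c = 1) ∧
      M ^ 2 ^ t + M + 1 = c + (if t + i' = k then (1 : K) else 0) * ρ +
        (if t = i' then (1 : K) else 0) * ρ ^ 2 ^ t := by
    intro t ht1 htk
    obtain ⟨c, hc, hc4, hcs⟩ := H t ht1 htk
    refine ⟨c, hc, hc4, ?_⟩
    refine alg_star m n m₁ m₂ c _ _ (2 ^ t) ⟨t, rfl⟩ hn hs ?_
    rw [hcs]
    congr 1
    · congr 1
      split_ifs
      · rw [one_mul]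
      · rw [zero_mul]
    · split_ifs
      · rw [one_mul]
      · rw [zero_mul]
  have h11 : (1 : K) + 1 = 0 := CharTwo.add_self_eq_zero 1
  have good : ∀ t : ℕ, 1 ≤ t → t < k → t ≠ i' → t + i' ≠ k → M ^ 2 ^ t + M = 0 ∨ M ^ 2 ^ t + M = 1 := by
    intro t ht1 htk h1 h2
    obtain ⟨c, hc, -, hcs⟩ := star t ht1 htk
    rw [if_neg h1, if_neg h2, zero_mul, zero_mul, add_zero, add_zero] at hcs
    have h3 : M ^ 2 ^ t + M = c + 1 := by
      calc M ^ 2 ^ t + M = M ^ 2 ^ t + M + 1 + 1 := by rw [add_assoc _ (1 : K) 1, h11, add_zero]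
        _ = c + 1 := by rw [hcs]
    rw [h3]
    exact alg_add hc (Or.inr rfl)
  obtain ⟨hi0, hik, hico⟩ := hu
  have key : M ^ 2 + M = 0 ∨ M ^ 2 + M = 1 := by
    by_cases hi1 : i' = 1 ∨ i' + 1 = k
    · rcases Nat.lt_or_ge 4 k with hk5 | hk4
      · have g2 := good 2 (by omega) (by omega) (by omega) (by omega)
        have g3 := good 3 (by omega) (by omega) (by omega) (by omega)
        norm_num at g2 g3
        have e1 : M ^ 2 + M = (M ^ 4 + M) ^ 2 + (M ^ 8 + M) := by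
          have h1 : (M ^ 4 + M) ^ 2 = M ^ 8 + M ^ 2 := by
            rw [CharTwo.add_sq, ← pow_mul]
          have h2 : M ^ 8 + M ^ 8 = 0 := CharTwo.add_self_eq_zero _
          rw [h1]
          linear_combination (-1 : K) * h2
        rw [e1, alg_sq g2]
        exact alg_add g2 g3
      · have hk' : k = 4 := by omega
        obtain ⟨c, hc, hc4, hcs⟩ := star 2 (by omega) (by omega)
        rw [hc4 hk' rfl, if_neg (by omega), if_neg (by omega), zero_mul, zero_mul, add_zero,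
          add_zero] at hcs
        have h1 : M ^ 4 + M = 0 := by
          have h2 : M ^ 2 ^ 2 + M = 0 := by
            have := hcs
            calc M ^ 2 ^ 2 + M = (M ^ 2 ^ 2 + M + 1) - 1 := by ring
              _ = 0 := by rw [hcs, sub_self]
          norm_num at h2
          exact h2
        refine alg_idem ?_
        rw [CharTwo.add_sq, ← pow_mul]
        have h3 : M + M = 0 := CharTwo.add_self_eq_zero _
        norm_num
        linear_combination h1 - h3
    · have g1 := good 1 (by omega) (by omega) (by omega) (by omega)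
      rwa [pow_one] at g1
  have all : ∀ t : ℕ, M ^ 2 ^ t + M = 0 ∨ M ^ 2 ^ t + M = 1 := by
    intro t
    induction t with
    | zero =>
      left
      rw [pow_zero, pow_one]
      exact CharTwo.add_self_eq_zero _
    | succ t ih =>
      have e1 : M ^ 2 ^ (t + 1) + M = (M ^ 2 ^ t + M) ^ 2 + (M ^ 2 + M) := by
        have h1 : (M ^ 2 ^ t + M) ^ 2 = M ^ 2 ^ (t + 1) + M ^ 2 := by
          rw [CharTwo.add_sq, ← pow_mul, ← pow_succ]
        have h2 : M ^ 2 + M ^ 2 = 0 := CharTwo.add_self_eq_zero _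
        rw [h1]
        linear_combination (-1 : K) * h2
      rw [e1, alg_sq ih]
      exact alg_add ih key
  obtain ⟨c, hc, -, hcs⟩ := star i' hi0 hik
  have h2i : i' + i' ≠ k := by
    intro h
    have h1 : i' ∣ k := ⟨2, by omega⟩
    have h2 : Nat.gcd i' k = i' := Nat.gcd_eq_left h1
    rw [Nat.Coprime, h2] at hico
    omega
  rw [if_neg h2i, if_pos rfl, zero_mul, one_mul, add_zero] at hcs
  have h6 : ρ ^ 2 ^ i' = (M ^ 2 ^ i' + M) + (1 + c) := by
    have h7 : c + c = 0 := CharTwo.add_self_eq_zero _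
    linear_combination (-1 : K) * hcs + (-1 : K) * h7
  have h8 : ρ ^ 2 ^ i' = 0 ∨ ρ ^ 2 ^ i' = 1 := by
    rw [h6]
    exact alg_add (all i') (alg_add (Or.inr rfl) hc)
  rcases h8 with h | h
  · exact hρ0 (pow_eq_zero_iff (pow_ne_zero _ two_ne_zero) |>.1 h)
  · have h9 : (ρ - 1) ^ 2 ^ i' = 0 := by
      rw [sub_pow_char_pow, h, one_pow, sub_self]
    exact hρ1 (sub_eq_zero.1 (pow_eq_zero_iff (pow_ne_zero _ two_ne_zero) |>.1 h9))

end Pool.Agent.MP8bS
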