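import Pool.Agent.Lib.MP_8b575b_co.Spr.Spec

set_option autoImplicit false

namespace Pool.Agent.MP8bS

open Finset

open scoped Classical

private lemma Cro_pow {K : Type} [Field K] [Fintype K] (k i : ℕ)
    (hK : Fintype.card K = 2 ^ k) (hi : Un k i) (l : K) (hl : l ≠ 0) :
    ∃ c : K, c ≠ 0 ∧ c ^ 2 ^ i = c * l := by
  have hco : (Nat.card Kˣ).Coprime (2 ^ i - 1) := by
    rw [Nat.card_eq_fintype_card, Fintype.card_units, hK, Nat.coprime_iff_gcd_eq_one,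
      Nat.pow_sub_one_gcd_pow_sub_one, Nat.gcd_comm, Nat.coprime_iff_gcd_eq_one.mp hi.2.2]
    norm_num
  obtain ⟨c, hc⟩ := (powCoprime hco).surjective (Units.mk0 l hl)
  refine ⟨(c : K), c.ne_zero, ?_⟩
  have h1 := congrArg Units.val hc
  have h2 : (c : K) ^ (2 ^ i - 1) = l := by simpa [powCoprime] using h1
  rw [← h2, ← pow_succ']
  congr 1
  have : 1 ≤ 2 ^ i := Nat.one_le_two_pow
  omega

private lemma Cro_sol {K : Type} [Field K] [CharP K 2] (a b : K × K) (h : Dt a b ≠ 0) (s t : K) :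
    ∃ v : K × K, Lf a v = s ∧ Lf b v = t := by
  have h2 : (2 : K) = 0 := CharTwo.two_eq_zero
  refine ⟨((s * b.2 + t * a.2) / Dt a b, (s * b.1 + t * a.1) / Dt a b), ?_, ?_⟩
  · simp only [Lf]
    field_simp
    simp only [Dt]
    linear_combination (t * a.1 * a.2) * h2
  · simp only [Lf]
    field_simp
    simp only [Dt]
    linear_combination (s * b.1 * b.2) * h2

private lemma Cro_cr {K : Type} [Field K] [CharP K 2] (a b c v : K × K) (h : Dt a b ≠ 0) :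
    Lf c v = Dt b c / Dt a b * Lf a v + Dt a c / Dt a b * Lf b v := by
  have h0 : (2 : K) = 0 := CharTwo.two_eq_zero
  field_simp
  simp only [Lf, Dt]
  linear_combination (-(a.1 * b.1 * c.2 * v.1) - (a.2 * b.2 * c.1 * v.2)) * h0

private lemma Cro_pl {K : Type} [Field K] [CharP K 2] (a b c d : K × K) :
    Dt a b * Dt c d = Dt b c * Dt a d + Dt a c * Dt b d := by
  have h0 : (2 : K) = 0 := CharTwo.two_eq_zero
  simp only [Dt]
  linear_combination (-(a.1 * b.1 * c.2 * d.2) - (a.2 * b.2 * c.1 * d.1)) * h0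

private lemma Cro_dd {K : Type} [Field K] [CharP K 2] (a : K × K) : Dt a a = 0 := by
  unfold Dt
  rw [mul_comm a.2 a.1]
  exact CharTwo.add_self_eq_zero _

private lemma Cro_sy {K : Type} [Field K] (a b : K × K) : Dt a b = Dt b a := by
  unfold Dt
  ring

theorem tCro : S_Dis → S_Mp → S_Orb → S_Cro := by
  intro hDis hMp hOrb K _ _ _ k i i' hk hK hi hi' C hC U hU U' hU' a b a' b' hz hz' hab hab'
    haa haa' hba hbb
  obtain ⟨x₀, hx₀, hxe⟩ := Cro_pow k i hK hi (Dt b a' / Dt a a') (div_ne_zero hba haa)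
  -- coefficients
  set α := Dt b a' / Dt a b with hα
  set β := Dt a a' / Dt a b with hβ
  set γ := Dt b b' / Dt a b with hγ
  set δ := Dt a b' / Dt a b with hδ
  have hα0 : α ≠ 0 := div_ne_zero hba hab
  have hβ0 : β ≠ 0 := div_ne_zero haa hab
  have hγ0 : γ ≠ 0 := div_ne_zero hbb hab
  have hδ0 : δ ≠ 0 := div_ne_zero haa' hab
  have hxe' : β * x₀ ^ 2 ^ i = α * x₀ := by
    rw [hxe, hα, hβ]
    field_simp
  have hdet : α * δ + β * γ ≠ 0 := by
    have h1 : α * δ + β * γ = Dt a' b' / Dt a b := by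
      rw [hα, hβ, hγ, hδ]
      field_simp
      rw [Cro_pl a b a' b']
    rw [h1]
    exact div_ne_zero hab' hab
  have hrm : γ * x₀ ≠ δ * x₀ ^ 2 ^ i := by
    intro h
    apply hdet
    have h1 : x₀ * (α * δ + β * γ) = 0 := by
      have h0 : (2 : K) = 0 := CharTwo.two_eq_zero
      linear_combination β * h + δ * hxe' + (α * δ * x₀) * h0
    exact (mul_eq_zero.mp h1).resolve_left hx₀
  have hx₀p : x₀ ^ 2 ^ i ≠ 0 := pow_ne_zero _ hx₀
  obtain ⟨u, hu, v, hv, huv, hph0, hph⟩ := hDis K k i i' hk hK hi hi' (γ * x₀) (δ * x₀ ^ 2 ^ i)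
    (mul_ne_zero hγ0 hx₀) (mul_ne_zero hδ0 hx₀p) hrm
  set μ := ph i i' (γ * x₀) (δ * x₀ ^ 2 ^ i) u with hμ
  have hl0 : μ / (α * x₀) ^ 2 ^ i' ≠ 0 := div_ne_zero hph0 (pow_ne_zero _ (mul_ne_zero hα0 hx₀))
  obtain ⟨W', hW', hWz'⟩ := hOrb K k i' (by omega) hK hi' C hC U' hU' a' b' hz' _ hl0
  have key : ∀ z : K, z ∈ D2 K → ph i i' (γ * x₀) (δ * x₀ ^ 2 ^ i) z = μ →
      ∃ w : K × K, w ∈ U ∧ w ∈ W' ∧ Lf a w = x₀ * z := by
    intro z hzD hzμ
    obtain ⟨w, hwa, hwb⟩ := Cro_sol a b hab (x₀ * z) ((x₀ * z) ^ 2 ^ i)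
    refine ⟨w, ?_, ?_, hwa⟩
    · rw [hz w, hwb, hwa, one_mul]
    · have hden : (z + z ^ 2 ^ i) ^ 2 ^ i' ≠ 0 := by
        intro h0
        apply hph0
        rw [← hzμ, ph, h0, div_zero]
      have e1 : Lf a' w = α * x₀ * (z + z ^ 2 ^ i) := by
        rw [Cro_cr a b a' w hab, hwa, hwb, mul_pow]
        linear_combination z ^ 2 ^ i * hxe'
      have e2 : Lf b' w = γ * x₀ * z + δ * x₀ ^ 2 ^ i * z ^ 2 ^ i := by
        rw [Cro_cr a b b' w hab, hwa, hwb, mul_pow]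
        ring
      have e3 : γ * x₀ * z + δ * x₀ ^ 2 ^ i * z ^ 2 ^ i = μ * (z + z ^ 2 ^ i) ^ 2 ^ i' := by
        rw [← hzμ, ph, div_mul_cancel₀ _ hden]
      rw [hWz' w, e1, e2, e3, mul_pow (α * x₀)]
      have h5 : (α * x₀) ^ 2 ^ i' ≠ 0 := pow_ne_zero _ (mul_ne_zero hα0 hx₀)
      field_simp
  obtain ⟨w₁, h11, h12, h13⟩ := key u hu rfl
  obtain ⟨w₂, h21, h22, h23⟩ := key v hv hph.symm
  have hu0 : u ≠ 0 := by
    have := (mem_filter.mp hu).2
    exact this.1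
  have hv0 : v ≠ 0 := by
    have := (mem_filter.mp hv).2
    exact this.1
  have hne2 : U ≠ W' := by
    intro hWW
    have ha0 : a ≠ 0 := by
      rintro rfl
      exact hab (by simp [Dt])
    have h1 := (hMp K k i (by omega) hK hi U a b 1 hab one_ne_zero hz a ha0).mpr
      (Or.inl (Cro_dd a))
    rw [hWW] at h1
    rcases (hMp K k i' (by omega) hK hi' W' a' b' _ hab' hl0 hWz' a ha0).mp h1 with h | h
    · exact haa (by rw [Cro_sy]; exact h)
    · exact haa' (by rw [Cro_sy]; exact h)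
  have n1 : w₁ ≠ 0 := by
    rintro rfl
    refine mul_ne_zero hx₀ hu0 ?_
    rw [← h13]
    simp [Lf]
  have n2 : w₂ ≠ 0 := by
    rintro rfl
    refine mul_ne_zero hx₀ hv0 ?_
    rw [← h23]
    simp [Lf]
  have := hC.2.1 U hU W' hW' hne2 w₁ h11 h12 w₂ h21 h22 n1 n2
  apply huv
  have h6 : x₀ * u = x₀ * v := by rw [← h13, ← h23, this]
  exact mul_left_cancel₀ hx₀ h6

end Pool.Agent.MP8bS
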