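import Pool.Agent.Lib.MP_8b575b_co.Spr.Spec

set_option autoImplicit false

namespace Pool.Agent.MP8bS

open Finset

open scoped Classical

theorem tDis : S_Pow → S_Mis → S_Alg → S_Dis := by
  intro hPow hMis hAlg K _ _ _ k i i' hk hK hi hi' r m hr hm hrm
  by_contra hcon
  push Not at hcon
  obtain ⟨m₁, m₂, h1, h2, hs⟩ := hMis K k i i' (by omega) hK hi hi' r m hr hm hrm
    (fun u hu v hv h0 h => by
      by_contra huv
      exact hcon u hu v hv huv h0 h)
  obtain ⟨hp1, hpt⟩ := hPow K k i i' hk hK hi hi' r m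
  have hbig : 16 ≤ 2 ^ k := by
    calc 16 = 2 ^ 4 := by norm_num
      _ ≤ 2 ^ k := Nat.pow_le_pow_right (by norm_num) hk
  have hsum : m₁ + m₂ = r + m := by
    have := hs 1 le_rfl (by omega)
    simp only [pow_one] at this
    rw [← this, hp1]
  have hn : r + m ≠ 0 := fun h => hrm (CharTwo.add_eq_zero.mp h)
  have hmn : m ≠ r + m := fun h => hr (by
    have : r + m = 0 + m := by rw [zero_add]; exact h.symm
    exact add_right_cancel this)
  refine hAlg K k i' hk hi' m (r + m) m₁ m₂ hn hm hmn h1 h2 hsum fun t ht1 htk => ?_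
  obtain ⟨c, hc, hc4, he⟩ := hpt t ht1 htk
  refine ⟨c, hc, hc4, ?_⟩
  have hlt : 2 ^ t + 1 < 2 ^ k - 1 := by
    have h3 : 2 ^ t ≤ 2 ^ (k - 1) := Nat.pow_le_pow_right (by norm_num) (by omega)
    have h4 : 2 ^ k = 2 * 2 ^ (k - 1) := by
      rw [← pow_succ']
      congr 1
      omega
    omega
  rw [← hs (2 ^ t + 1) (Nat.le_add_left 1 _) hlt, he]

end Pool.Agent.MP8bS
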