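import Pool.Agent.Lib.MP_8b575b_co.Spr.Spec

set_option autoImplicit false

namespace Pool.Agent.MP8bS

open Finset

open scoped Classical

/-- An intersecting family of pairs. -/
private theorem ekr_pairs {P : Type} [Fintype P] {N : ℕ} (hN : 3 ≤ N)
    (hP : Fintype.card P = N + 1) (E : Finset (Finset P)) (h2 : ∀ e ∈ E, e.card = 2)
    (hI : ∀ e ∈ E, ∀ e' ∈ E, (e ∩ e').Nonempty) : E.card ≤ N := by
  let f : P ≃ Fin (N + 1) := Fintype.equivFinOfCardEq hP
  have h1 := Finset.erdos_ko_rado (n := N + 1) (𝒜 := E.image fun e => e.map f.toEmbedding) (r := 2)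
    (by
      intro s hs t ht hd
      obtain ⟨e, he, rfl⟩ := Finset.mem_image.1 (Finset.mem_coe.1 hs)
      obtain ⟨e', he', rfl⟩ := Finset.mem_image.1 (Finset.mem_coe.1 ht)
      rw [Finset.disjoint_map] at hd
      have h3 := hI e he e' he'
      rw [Finset.disjoint_iff_inter_eq_empty.1 hd] at h3
      exact Finset.not_nonempty_empty h3)
    (by
      intro s hs
      obtain ⟨e, he, rfl⟩ := Finset.mem_image.1 (Finset.mem_coe.1 hs)
      rw [Finset.card_map]
      exact h2 e he)
    (by omega)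
  rw [Finset.card_image_of_injective _ (Finset.map_injective f.toEmbedding)] at h1
  simpa using h1

theorem tEkr : S_Ekr := by
  intro P ι _ N k hN hk hP A pr lab h2 hI hlab hsame hcard
  set E := A.image pr with hE
  have hE2 : ∀ e ∈ E, e.card = 2 := by
    intro e he
    obtain ⟨U, hU, rfl⟩ := Finset.mem_image.1 he
    exact h2 U hU
  have hEI : ∀ e ∈ E, ∀ e' ∈ E, (e ∩ e').Nonempty := by
    intro e he e' he'
    obtain ⟨U, hU, rfl⟩ := Finset.mem_image.1 he
    obtain ⟨W, hW, rfl⟩ := Finset.mem_image.1 he'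
    exact hI U hU W hW
  have hEN := ekr_pairs hN hP E hE2 hEI
  by_cases hE1 : E.card ≤ 1
  · rcases Finset.eq_empty_or_nonempty A with hA | ⟨U₀, hU₀⟩
    · rw [hA, Finset.card_empty]
      exact Nat.zero_le _
    · have h3 : ∀ U ∈ A, pr U = pr U₀ := fun U hU =>
        Finset.card_le_one.1 hE1 _ (Finset.mem_image_of_mem _ hU) _ (Finset.mem_image_of_mem _ hU₀)
      obtain ⟨p, hp⟩ : (pr U₀).Nonempty := by
        rw [← Finset.card_pos, h2 U₀ hU₀]
        exact Nat.zero_lt_two
      have h4 : A ⊆ (Finset.Ico 1 k).biUnion fun j =>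
          A.filter fun U => pr U = pr U₀ ∧ lab U p = j := by
        intro U hU
        rw [Finset.mem_biUnion]
        have h5 : p ∈ pr U := by rw [h3 U hU]; exact hp
        have h6 := hlab U hU p h5
        exact ⟨lab U p, Finset.mem_Ico.2 h6, Finset.mem_filter.2 ⟨hU, h3 U hU, rfl⟩⟩
      calc A.card ≤ _ := Finset.card_le_card h4
        _ ≤ ∑ j ∈ Finset.Ico 1 k, (A.filter fun U => pr U = pr U₀ ∧ lab U p = j).card :=
          Finset.card_biUnion_le
        _ ≤ ∑ _j ∈ Finset.Ico 1 k, (N - 1) := Finset.sum_le_sum fun j _ => hcard _ p hp j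
        _ = (k - 1) * (N - 1) := by rw [Finset.sum_const, Nat.card_Ico, smul_eq_mul]
        _ ≤ N * (N - 1) := Nat.mul_le_mul_right _ (by omega)
  · have h3 : ∀ e ∈ E, (A.filter fun U => pr U = e).card ≤ N - 1 := by
      intro e he
      obtain ⟨e', he', hne⟩ : ∃ e' ∈ E, e' ≠ e := by
        by_contra h
        push Not at h
        exact hE1 (Finset.card_le_one.2 fun x hx y hy => (h x hx).trans (h y hy).symm)
      obtain ⟨U', hU', rfl⟩ := Finset.mem_image.1 he'
      obtain ⟨p, hp⟩ := hEI e he _ he'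
      obtain ⟨hp1, hp2⟩ := Finset.mem_inter.1 hp
      refine le_trans (Finset.card_le_card ?_) (hcard e p hp1 (lab U' p))
      intro W hW
      obtain ⟨hW1, hW2⟩ := Finset.mem_filter.1 hW
      refine Finset.mem_filter.2 ⟨hW1, hW2, hsame W hW1 U' hU' ?_ p ?_ hp2⟩
      · rw [hW2]
        exact fun h => hne h.symm
      · rw [hW2]
        exact hp1
    calc A.card = ∑ e ∈ E, (A.filter fun U => pr U = e).card :=
          Finset.card_eq_sum_card_fiberwise fun U hU => Finset.mem_image_of_mem _ hU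
      _ ≤ ∑ _e ∈ E, (N - 1) := Finset.sum_le_sum h3
      _ = E.card * (N - 1) := by rw [Finset.sum_const, smul_eq_mul]
      _ ≤ N * (N - 1) := Nat.mul_le_mul_right _ hEN

end Pool.Agent.MP8bS
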