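import Pool.Agent.Lib.MP_8b575b_co.Spr.Spec

/-!
# Spr/Fib: the map `u ↦ u + u ^ s` is two-to-one onto the elements of trace zero
-/

set_option autoImplicit false

namespace Pool.Agent.MP8bS

open Finset

open scoped Classical

private lemma Fib_fix {K : Type} [Field K] [Fintype K] (k i : ℕ)
    (hK : Fintype.card K = 2 ^ k) (hi : Un k i) (x : K) (hx : x ≠ 0) (h : x ^ 2 ^ i = x) :
    x = 1 := by
  have hco : (Nat.card Kˣ).Coprime (2 ^ i - 1) := by
    rw [Nat.card_eq_fintype_card, Fintype.card_units, hK, Nat.coprime_iff_gcd_eq_one,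
      Nat.pow_sub_one_gcd_pow_sub_one, Nat.gcd_comm, Nat.coprime_iff_gcd_eq_one.mp hi.2.2]
    norm_num
  have h1 : x ^ (2 ^ i - 1) = 1 := by
    have h2 : x ^ (2 ^ i - 1) * x = 1 * x := by
      rw [← pow_succ, one_mul]
      have : 2 ^ i - 1 + 1 = 2 ^ i := Nat.sub_add_cancel Nat.one_le_two_pow
      rw [this, h]
    exact mul_right_cancel₀ hx h2
  have h3 : (powCoprime hco) (Units.mk0 x hx) = (powCoprime hco) 1 := by
    ext
    simp [powCoprime, h1]
  have h4 := (powCoprime hco).injective h3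
  exact congrArg Units.val h4

private lemma Fib_tr2 {K : Type} [Field K] [Fintype K] [CharP K 2] (k : ℕ)
    (hK : Fintype.card K = 2 ^ k) (x : K) :
    ∑ j ∈ range k, (x ^ 2) ^ 2 ^ j = ∑ j ∈ range k, x ^ 2 ^ j := by
  have h1 : ∀ j, (x ^ 2) ^ 2 ^ j = x ^ 2 ^ (j + 1) := by
    intro j
    rw [← pow_mul, pow_succ 2 j, mul_comm]
  have h2 : x ^ 2 ^ k = x := by
    rw [← hK]
    exact FiniteField.pow_card x
  have h3 := Finset.sum_range_succ (fun j => x ^ 2 ^ j) k
  rw [Finset.sum_range_succ', pow_zero, pow_one] at h3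
  rw [Finset.sum_congr rfl fun j _ => h1 j]
  have h4 : (∑ j ∈ range k, x ^ 2 ^ (j + 1)) + x = (∑ j ∈ range k, x ^ 2 ^ j) + x := by
    rw [h3, h2]
  exact add_right_cancel h4

private lemma Fib_tri {K : Type} [Field K] [Fintype K] [CharP K 2] (k : ℕ)
    (hK : Fintype.card K = 2 ^ k) (i : ℕ) : ∀ x : K,
    ∑ j ∈ range k, (x ^ 2 ^ i) ^ 2 ^ j = ∑ j ∈ range k, x ^ 2 ^ j := by
  induction i with
  | zero =>
    intro x
    rw [pow_zero, pow_one]
  | succ i ih =>
    intro x
    have h1 : x ^ 2 ^ (i + 1) = (x ^ 2) ^ 2 ^ i := by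
      rw [← pow_mul, pow_succ 2 i, mul_comm]
    rw [h1, ih, Fib_tr2 k hK]

private lemma Fib_maps {K : Type} [Field K] [Fintype K] [CharP K 2] (k i : ℕ)
    (hK : Fintype.card K = 2 ^ k) (hi : Un k i) (u : K) (hu : u ∈ D2 K) :
    u + u ^ 2 ^ i ∈ T0 K k := by
  unfold D2 at hu
  unfold T0
  rw [mem_filter] at hu ⊢
  refine ⟨mem_univ _, ?_, ?_⟩
  · intro h
    exact hu.2.2 (Fib_fix k i hK hi u hu.2.1 (CharTwo.add_eq_zero.mp h).symm)
  · have h1 : ∀ j, (u + u ^ 2 ^ i) ^ 2 ^ j = u ^ 2 ^ j + (u ^ 2 ^ i) ^ 2 ^ j :=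
      fun j => add_pow_char_pow u (u ^ 2 ^ i) 2 j
    rw [Finset.sum_congr rfl fun j _ => h1 j, Finset.sum_add_distrib, Fib_tri k hK i,
      CharTwo.add_self_eq_zero]

private lemma Fib_add {K : Type} [Field K] [Fintype K] [CharP K 2] (i : ℕ) (u v : K) :
    (u + v) + (u + v) ^ 2 ^ i = (u + u ^ 2 ^ i) + (v + v ^ 2 ^ i) := by
  rw [add_pow_char_pow u v]
  ring

private lemma Fib_fibre {K : Type} [Field K] [Fintype K] [CharP K 2] (k i : ℕ)
    (hK : Fintype.card K = 2 ^ k) (hi : Un k i) (u : K) (hu : u ∈ D2 K) :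
    (D2 K).filter (fun v => v + v ^ 2 ^ i = u + u ^ 2 ^ i) = {u, u + 1} := by
  have h2 : (2 : K) = 0 := CharTwo.two_eq_zero
  ext v
  rw [mem_filter, mem_insert, mem_singleton]
  constructor
  · rintro ⟨_, h⟩
    have h1 : (v + u) + (v + u) ^ 2 ^ i = 0 := by
      rw [Fib_add, h, CharTwo.add_self_eq_zero]
    by_cases h3 : v + u = 0
    · left
      exact CharTwo.add_eq_zero.mp h3
    · right
      have h4 := Fib_fix k i hK hi (v + u) h3 (CharTwo.add_eq_zero.mp h1).symm
      linear_combination h4 - u * h2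
  · unfold D2 at hu ⊢
    rw [mem_filter] at hu ⊢
    rintro (h | h)
    · rw [h]
      exact ⟨hu, rfl⟩
    · rw [h]
      refine ⟨⟨mem_univ _, ?_, ?_⟩, ?_⟩
      · intro h5
        exact hu.2.2 (CharTwo.add_eq_zero.mp h5)
      · intro h5
        exact hu.2.1 (by linear_combination h5)
      · rw [Fib_add, one_pow, CharTwo.add_self_eq_zero, add_zero]

private lemma Fib_cardT {K : Type} [Field K] [Fintype K] [CharP K 2] (k : ℕ) (hk : 1 ≤ k) :
    (T0 K k).card ≤ 2 ^ (k - 1) - 1 := by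
  let p : Polynomial K := ∑ j ∈ range k, Polynomial.X ^ 2 ^ j
  have hp : p ≠ 0 := by
    intro h0
    have h1 : p.coeff 1 = 0 := by rw [h0]; simp
    have h2 : p.coeff 1 = 1 := by
      simp only [p, Polynomial.finsetSum_coeff, Polynomial.coeff_X_pow]
      rw [Finset.sum_eq_single 0]
      · simp
      · intro j _ hj
        rw [if_neg]
        intro h
        have : 2 ^ 1 ≤ 2 ^ j := Nat.pow_le_pow_right (by norm_num) (by omega)
        omega
      · intro h
        exact absurd (mem_range.2 (by omega)) h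
    rw [h1] at h2
    exact zero_ne_one h2
  have hnd : p.natDegree ≤ 2 ^ (k - 1) := by
    refine Polynomial.natDegree_sum_le_of_forall_le _ _ fun j hj => ?_
    rw [Polynomial.natDegree_X_pow]
    exact Nat.pow_le_pow_right (by norm_num) (by have := mem_range.1 hj; omega)
  have h0 : (0 : K) ∉ T0 K k := by
    unfold T0
    rw [mem_filter]
    rintro ⟨_, h, _⟩
    exact h rfl
  have h5 : (insert 0 (T0 K k)).card ≤ p.natDegree := by
    refine Polynomial.card_le_degree_of_subset_roots ?_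
    intro x hx
    rw [Polynomial.mem_roots hp, Polynomial.IsRoot.def]
    have h6 : p.eval x = ∑ j ∈ range k, x ^ 2 ^ j := by
      simp [p, Polynomial.eval_finsetSum]
    rw [h6]
    have hx' : x ∈ insert 0 (T0 K k) := hx
    rcases Finset.mem_insert.1 hx' with h | h
    · rw [h]
      exact Finset.sum_eq_zero fun j _ => zero_pow (by positivity)
    · unfold T0 at h
      exact (mem_filter.1 h).2.2
  rw [card_insert_of_notMem h0] at h5
  omega

private lemma Fib_cardD {K : Type} [Field K] [Fintype K] (k : ℕ)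
    (hK : Fintype.card K = 2 ^ k) : (D2 K).card = 2 ^ k - 2 := by
  have h1 : D2 K = univ \ {0, 1} := by
    ext x
    unfold D2
    simp
  rw [h1, card_sdiff_of_subset (subset_univ _), card_univ, hK, card_pair zero_ne_one]

private lemma Fib_image {K : Type} [Field K] [Fintype K] [CharP K 2] (k i : ℕ) (hk : 1 ≤ k)
    (hK : Fintype.card K = 2 ^ k) (hi : Un k i) :
    (D2 K).image (fun u => u + u ^ 2 ^ i) = T0 K k := by
  apply Finset.eq_of_subset_of_card_le
  · intro x hx
    obtain ⟨u, hu, rfl⟩ := mem_image.1 hx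
    exact Fib_maps k i hK hi u hu
  · have h1 := Finset.card_le_mul_card_image (f := fun u : K => u + u ^ 2 ^ i) (D2 K) 2 (by
      intro b hb
      obtain ⟨u, hu, rfl⟩ := mem_image.1 hb
      rw [Fib_fibre k i hK hi u hu]
      exact card_le_two)
    rw [Fib_cardD k hK] at h1
    have h2 := Fib_cardT (K := K) k hk
    have h3 : 2 ^ k = 2 * 2 ^ (k - 1) := by
      obtain ⟨l, rfl⟩ := Nat.exists_eq_add_of_le hk
      rw [Nat.add_sub_cancel_left, pow_add, pow_one]
    omega

theorem tFib : S_Fib := by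
  intro K _ _ _ k i hk hK hi g G h hg
  rw [← Finset.sum_fiberwise_of_maps_to (g := fun u : K => u + u ^ 2 ^ i) (t := T0 K k)
    (fun u hu => Fib_maps k i hK hi u hu)]
  refine Finset.sum_congr rfl fun x hx => ?_
  rw [← Fib_image k i hk hK hi] at hx
  obtain ⟨u, hu, rfl⟩ := mem_image.1 hx
  have h1 := Fib_fibre k i hK hi u hu
  rw [h1, Finset.sum_pair]
  · have h3 : (u + 1) + (u + 1) ^ 2 ^ i = u + u ^ 2 ^ i := by
      rw [Fib_add, one_pow, CharTwo.add_self_eq_zero, add_zero]
    rw [h3, ← add_mul, hg]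
  · intro h4
    have h5 : (1 : K) = 0 := by linear_combination -h4
    exact one_ne_zero h5

end Pool.Agent.MP8bS
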