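import Pool.Agent.Lib.MP_8b575b_co.Spr.Spec

set_option autoImplicit false

namespace Pool.Agent.MP8bS

open Finset

open scoped Classical

private def Fin_pt {K : Type} [Field K] : Option K → K × K
  | none => (0, 1)
  | some m => (1, m)

private lemma Fin_dt {K : Type} [Field K] [CharP K 2] (p q : Option K)
    (h : Dt (Fin_pt p) (Fin_pt q) = 0) : p = q := by
  rcases p with _ | m <;> rcases q with _ | n
  · rfl
  · exfalso
    simp [Dt, Fin_pt] at h
  · exfalso
    simp [Dt, Fin_pt] at h
  · have h1 : n + m = 0 := by simpa [Dt, Fin_pt] using h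
    have h2 : n = m := by
      have := CharTwo.add_eq_zero.mp h1
      exact this
    rw [h2]

private lemma Fin_dd {K : Type} [Field K] [CharP K 2] (a : K × K) : Dt a a = 0 := by
  unfold Dt
  rw [mul_comm a.2 a.1]
  exact CharTwo.add_self_eq_zero _

private lemma Fin_dsr {K : Type} [Field K] (a b : K × K) (y : K) : Dt a (y • b) = y * Dt a b := by
  simp only [Dt, Prod.smul_fst, Prod.smul_snd, smul_eq_mul]
  ring

private lemma Fin_dsl {K : Type} [Field K] (a b : K × K) (y : K) : Dt (y • a) b = y * Dt a b := by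
  simp only [Dt, Prod.smul_fst, Prod.smul_snd, smul_eq_mul]
  ring

private lemma Fin_lsl {K : Type} [Field K] (a v : K × K) (y : K) : Lf (y • a) v = y * Lf a v := by
  simp only [Lf, Prod.smul_fst, Prod.smul_snd, smul_eq_mul]
  ring

private lemma Fin_mul {K : Type} [Field K] (b : K × K) (hb : b ≠ 0) :
    ∃ (q : Option K) (y : K), y ≠ 0 ∧ b = y • Fin_pt q := by
  by_cases h : b.1 = 0
  · refine ⟨none, b.2, ?_, ?_⟩
    · intro h2
      exact hb (Prod.ext h h2)
    · ext
      · simp [Fin_pt, h]
      · simp [Fin_pt]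
  · refine ⟨some (b.2 / b.1), b.1, h, ?_⟩
    ext
    · simp [Fin_pt]
    · simp only [Fin_pt, Prod.smul_snd, smul_eq_mul]
      field_simp

private noncomputable def Fin_pr {K : Type} [Field K] [Fintype K] (U : AddSubgroup (K × K)) :
    Finset (Option K) :=
  univ.filter fun p => ∀ v ∈ U, Lf (Fin_pt p) v = 0 → v = 0

private def Fin_rep {K : Type} [Field K] (k : ℕ) (U : AddSubgroup (K × K)) (p : Option K)
    (i : ℕ) : Prop :=
  Un k i ∧ ∃ b : K × K, Dt (Fin_pt p) b ≠ 0 ∧ Zs U (Fin_pt p) b i 1

private noncomputable def Fin_lab {K : Type} [Field K] (k : ℕ) (U : AddSubgroup (K × K))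
    (p : Option K) : ℕ :=
  if h : ∃ i, Fin_rep k U p i then Classical.choose h else 0

private lemma Fin_lab_spec {K : Type} [Field K] (k : ℕ) (U : AddSubgroup (K × K))
    (p : Option K) (h : ∃ i, Fin_rep k U p i) : Fin_rep k U p (Fin_lab k U p) := by
  unfold Fin_lab
  rw [dif_pos h]
  exact Classical.choose_spec h

private lemma Fin_two {K : Type} [Field K] [Fintype K] [CharP K 2] (U : AddSubgroup (K × K))
    (p : Option K) (hp : p ∈ Fin_pr U) (b : K × K) (i : ℕ) (hd : Dt (Fin_pt p) b ≠ 0)
    (hz : Zs U (Fin_pt p) b i 1) :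
    ∃ q ∈ Fin_pr U, q ≠ p ∧ ∃ y : K, y ≠ 0 ∧ b = y • Fin_pt q := by
  have hb : b ≠ 0 := by
    rintro rfl
    exact hd (by simp [Dt])
  obtain ⟨q, y, hy, hq⟩ := Fin_mul b hb
  refine ⟨q, ?_, ?_, y, hy, hq⟩
  · unfold Fin_pr at hp ⊢
    rw [mem_filter] at hp ⊢
    refine ⟨mem_univ _, fun v hv h0 => hp.2 v hv ?_⟩
    have h1 := (hz v).mp hv
    rw [hq, Fin_lsl, h0, mul_zero, one_mul] at h1
    exact eq_zero_of_pow_eq_zero h1.symm
  · rintro rfl
    rw [hq, Fin_dsr, Fin_dd, mul_zero] at hd
    exact hd rfl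

theorem tFin : S_Pr → S_Ver → S_Cro → S_Ekr → S_Fin := by
  intro hPr hVer hCro hEkr K _ _ _ k hk hK C hC
  have hpt : ∀ U ∈ C, ¬ Spr U → ∃ p q : Option K, p ≠ q ∧ Fin_pr U = {p, q} ∧
      (∃ i, Fin_rep k U p i) ∧ (∃ i, Fin_rep k U q i) := by
    intro U hU hs
    obtain ⟨p, q, hpq, h1, ⟨b, i, hu, hd, -, hz⟩, ⟨b', i', hu', hd', -, hz'⟩⟩ :=
      hPr K k (by omega) hK Fin_pt rfl (fun m => rfl) C hC U hU hs
    refine ⟨p, q, hpq, ?_, ⟨i, hu, b, hd, hz⟩, ⟨i', hu', b', hd', hz'⟩⟩
    ext p'
    unfold Fin_pr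
    rw [mem_filter, mem_insert, mem_singleton]
    exact ⟨fun h => (h1 p').mp h.2, fun h => ⟨mem_univ _, (h1 p').mpr h⟩⟩
  have hcard : ∀ U ∈ C, ¬ Spr U → (Fin_pr U).card = 2 := by
    intro U hU hs
    obtain ⟨p, q, hpq, h1, -⟩ := hpt U hU hs
    rw [h1, card_pair hpq]
  have hlab : ∀ U ∈ C, ¬ Spr U → ∀ p ∈ Fin_pr U, Fin_rep k U p (Fin_lab k U p) := by
    intro U hU hs p hp
    obtain ⟨p0, q0, hpq, h1, h2, h3⟩ := hpt U hU hs
    rw [h1, mem_insert, mem_singleton] at hp
    rcases hp with rfl | rfl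
    · exact Fin_lab_spec k U _ h2
    · exact Fin_lab_spec k U _ h3
  set N := 2 ^ k with hN
  have hN16 : 16 ≤ N := by
    rw [hN]
    calc 16 = 2 ^ 4 := by norm_num
      _ ≤ 2 ^ k := Nat.pow_le_pow_right (by norm_num) hk
  -- the members of the spread
  have hspr : (C.filter fun U => Spr U).card ≤ N + 1 := by
    have hch : ∀ U : AddSubgroup (K × K), Spr U → ∃ q : Option K, ∀ w, w ∈ U ↔
        ∃ c : K, w = c • Fin_pt q := by
      rintro U ⟨v, hv, hw⟩
      obtain ⟨q, y, hy, hq⟩ := Fin_mul v hv
      refine ⟨q, fun w => ?_⟩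
      rw [hw w]
      constructor
      · rintro ⟨c, rfl⟩
        exact ⟨c * y, by rw [hq, smul_smul]⟩
      · rintro ⟨c, rfl⟩
        exact ⟨c * y⁻¹, by rw [hq, smul_smul, mul_assoc, inv_mul_cancel₀ hy, mul_one]⟩
    have : (C.filter fun U => Spr U).card ≤ (univ : Finset (Option K)).card := by
      refine card_le_card_of_injOn (fun U => if h : Spr U then Classical.choose (hch U h) else none)
        (fun _ _ => mem_univ _) ?_
      intro U hU W hW he
      have hU' : Spr U := (mem_filter.mp hU).2
      have hW' : Spr W := (mem_filter.mp hW).2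
      simp only [dif_pos hU', dif_pos hW'] at he
      have h1 := Classical.choose_spec (hch U hU')
      have h2 := Classical.choose_spec (hch W hW')
      rw [he] at h1
      ext w
      rw [h1 w, h2 w]
    rwa [card_univ, Fintype.card_option, hK] at this
  -- the others
  have hrest : (C.filter fun U => ¬ Spr U).card ≤ N * (N - 1) := by
    refine hEkr (Option K) (AddSubgroup (K × K)) N k (by omega) ?_ ?_ _ Fin_pr (Fin_lab k)
      ?_ ?_ ?_ ?_ ?_
    · have : k < 2 ^ k := Nat.lt_two_pow_self
      omega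
    · rw [Fintype.card_option, hK]
    · intro U hU
      rw [mem_filter] at hU
      exact hcard U hU.1 hU.2
    · intro U hU W hW
      rw [mem_filter] at hU hW
      by_contra hne
      have hdis : ∀ p ∈ Fin_pr U, ∀ q ∈ Fin_pr W, p ≠ q := by
        rintro p hp q hq rfl
        exact hne ⟨p, (@mem_inter _ (_) _ _ _).mpr ⟨hp, hq⟩⟩
      obtain ⟨p, hp⟩ : (Fin_pr U).Nonempty := by
        rw [← card_pos, hcard U hU.1 hU.2]; norm_num
      obtain ⟨p', hp'⟩ : (Fin_pr W).Nonempty := by
        rw [← card_pos, hcard W hW.1 hW.2]; norm_num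
      obtain ⟨hu, b, hd, hz⟩ := hlab U hU.1 hU.2 p hp
      obtain ⟨hu', b', hd', hz'⟩ := hlab W hW.1 hW.2 p' hp'
      obtain ⟨q, hq, -, y, hy, hb⟩ := Fin_two U p hp b _ hd hz
      obtain ⟨q', hq', -, y', hy', hb'⟩ := Fin_two W p' hp' b' _ hd' hz'
      refine hCro K k _ _ hk hK hu hu' C hC U hU.1 W hW.1 (Fin_pt p) b (Fin_pt p') b' hz hz'
        hd hd' ?_ ?_ ?_ ?_
      · exact fun h => hdis p hp p' hp' (Fin_dt _ _ h)
      · rw [hb', Fin_dsr]
        exact mul_ne_zero hy' fun h => hdis p hp q' hq' (Fin_dt _ _ h)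
      · rw [hb, Fin_dsl]
        exact mul_ne_zero hy fun h => hdis q hq p' hp' (Fin_dt _ _ h)
      · rw [hb, hb', Fin_dsl, Fin_dsr]
        exact mul_ne_zero hy (mul_ne_zero hy' fun h => hdis q hq q' hq' (Fin_dt _ _ h))
    · intro U hU p hp
      rw [mem_filter] at hU
      obtain ⟨⟨h1, h2, -⟩, -⟩ := hlab U hU.1 hU.2 p hp
      exact ⟨h1, h2⟩
    · intro U hU W hW hne p hp hp'
      rw [mem_filter] at hU hW
      obtain ⟨hu, b, hd, hz⟩ := hlab U hU.1 hU.2 p hp
      obtain ⟨hu', b', hd', hz'⟩ := hlab W hW.1 hW.2 p hp'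
      obtain ⟨q, hq, hqp, y, hy, hb⟩ := Fin_two U p hp b _ hd hz
      obtain ⟨q', hq', hqp', y', hy', hb'⟩ := Fin_two W p hp' b' _ hd' hz'
      refine hVer K k _ _ (by omega) hK hu hu' C hC U hU.1 W hW.1 (Fin_pt p) b b' hz hz'
        hd hd' ?_
      rw [hb, hb', Fin_dsl, Fin_dsr]
      refine mul_ne_zero hy (mul_ne_zero hy' fun h => hne ?_)
      have hqq : q = q' := Fin_dt _ _ h
      have e1 : ({p, q} : Finset (Option K)) = Fin_pr U := by
        apply eq_of_subset_of_card_le
        · intro z hz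
          rw [mem_insert, mem_singleton] at hz
          rcases hz with rfl | rfl
          · exact hp
          · exact hq
        · rw [hcard U hU.1 hU.2, card_pair (Ne.symm hqp)]
      have e2 : ({p, q'} : Finset (Option K)) = Fin_pr W := by
        apply eq_of_subset_of_card_le
        · intro z hz
          rw [mem_insert, mem_singleton] at hz
          rcases hz with rfl | rfl
          · exact hp'
          · exact hq'
        · rw [hcard W hW.1 hW.2, card_pair (Ne.symm hqp')]
      rw [← e1, ← e2, hqq]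
    · intro e p hpe j
      suffices hs : (((C.filter fun U => ¬ Spr U).filter fun U => Fin_pr U = e ∧
          Fin_lab k U p = j)).card ≤ N - 1 by convert hs
      rcases (((C.filter fun U => ¬ Spr U).filter fun U => Fin_pr U = e ∧ Fin_lab k U p = j)
        ).eq_empty_or_nonempty with he | ⟨U0, hU0⟩
      · rw [he, card_empty]; omega
      · -- the other point
        have key : ∀ U ∈ ((C.filter fun U => ¬ Spr U).filter
            fun U => Fin_pr U = e ∧ Fin_lab k U p = j),
            ∃ q ∈ e, q ≠ p ∧ ∃ y : K, y ≠ 0 ∧ Zs U (Fin_pt p) (y • Fin_pt q) j 1 := by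
          intro U hU
          rw [mem_filter, mem_filter] at hU
          obtain ⟨⟨hUC, hUS⟩, hUe, hUj⟩ := hU
          have hpU : p ∈ Fin_pr U := by rw [hUe]; exact hpe
          obtain ⟨hu, b, hd, hz⟩ := hlab U hUC hUS p hpU
          obtain ⟨q, hq, hqp, y, hy, hb⟩ := Fin_two U p hpU b _ hd hz
          rw [hUe] at hq
          rw [hb, hUj] at hz
          exact ⟨q, hq, hqp, y, hy, hz⟩
        obtain ⟨q0, hq0, hqp0, -⟩ := key U0 hU0
        have he2 : e.card = 2 := by
          rw [mem_filter, mem_filter] at hU0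
          rw [← hU0.2.1]
          exact hcard U0 hU0.1.1 hU0.1.2
        have he3 : ∀ q ∈ e, q ≠ p → q = q0 := by
          intro q hq hqp
          by_contra hne
          have : ({p, q, q0} : Finset (Option K)).card ≤ e.card := by
            apply card_le_card
            intro z hz
            rw [mem_insert, mem_insert, mem_singleton] at hz
            rcases hz with rfl | rfl | rfl
            · exact hpe
            · exact hq
            · exact hq0
          rw [he2, card_eq_three.mpr ⟨p, q, q0, Ne.symm hqp, Ne.symm hqp0, hne, rfl⟩] at this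
          omega
        have key2 : ∀ U ∈ ((C.filter fun U => ¬ Spr U).filter
            fun U => Fin_pr U = e ∧ Fin_lab k U p = j),
            ∃ y : K, y ≠ 0 ∧ Zs U (Fin_pt p) (y • Fin_pt q0) j 1 := by
          intro U hU
          obtain ⟨q, hq, hqp, y, hy, hz⟩ := key U hU
          rw [he3 q hq hqp] at hz
          exact ⟨y, hy, hz⟩
        have hle : (((C.filter fun U => ¬ Spr U).filter
            fun U => Fin_pr U = e ∧ Fin_lab k U p = j)).card ≤
            (univ.filter fun y : K => y ≠ 0).card := by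
          refine card_le_card_of_injOn (fun U => if h : ∃ y : K, y ≠ 0 ∧
            Zs U (Fin_pt p) (y • Fin_pt q0) j 1 then Classical.choose h else 0) ?_ ?_
          · intro U hU
            have h := key2 U hU
            simp only [dif_pos h]
            exact mem_coe.mpr (mem_filter.mpr ⟨mem_univ _, (Classical.choose_spec h).1⟩)
          · intro U hU W hW heq
            have h := key2 U hU
            have h' := key2 W hW
            simp only [dif_pos h, dif_pos h'] at heq
            have s1 := (Classical.choose_spec h).2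
            have s2 := (Classical.choose_spec h').2
            rw [heq] at s1
            ext w
            rw [s1 w, s2 w]
        have hnz : (univ.filter fun y : K => y ≠ 0).card = N - 1 := by
          rw [filter_ne', card_erase_of_mem (mem_univ _), card_univ, hK]
        rw [hnz] at hle
        exact hle
  have hsum : (C.filter fun U => Spr U).card + (C.filter fun U => ¬ Spr U).card = C.card :=
    card_filter_add_card_filter_not _
  have hfin : N * (N - 1) + (N + 1) = 2 ^ (2 * k) + 1 := by
    have h1 : 2 ^ (2 * k) = N * N := by rw [hN, two_mul, pow_add]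
    rw [h1]
    obtain ⟨M, hM⟩ : ∃ M, N = M + 1 := ⟨N - 1, by omega⟩
    rw [hM]
    simp only [Nat.add_sub_cancel]
    ring
  omega

end Pool.Agent.MP8bS
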