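import Pool.Agent.Lib.MP_8b575b_co.Spr.Spec

/-!
MP_8b575b_co: additive functions are linearized polynomials (`S_Lin`).
-/

set_option autoImplicit false

namespace Pool.Agent.MP8bS

open Finset

open scoped Classical

/-- the additive function of a coefficient vector -/
private noncomputable def linG (K : Type) [Field K] [CharP K 2] (k : ℕ) (a : Fin k → K) : K →+ K where
  toFun x := ∑ i : Fin k, a i * x ^ 2 ^ (i : ℕ)
  map_zero' := Finset.sum_eq_zero fun i _ => by
    rw [zero_pow (pow_ne_zero _ two_ne_zero), mul_zero]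
  map_add' x y := by
    rw [← Finset.sum_add_distrib]
    refine Finset.sum_congr rfl fun i _ => ?_
    rw [add_pow_char_pow, mul_add]

private theorem linG_apply (K : Type) [Field K] [CharP K 2] (k : ℕ) (a : Fin k → K) (x : K) :
    linG K k a x = ∑ i : Fin k, a i * x ^ 2 ^ (i : ℕ) := rfl

private theorem linG_inj (K : Type) [Field K] [Fintype K] [CharP K 2] (k : ℕ)
    (hk : 1 ≤ k) (hcard : Fintype.card K = 2 ^ k) : Function.Injective (linG K k) := by
  intro a b hab
  have h1 : ∀ x : K, ∑ i : Fin k, (a i - b i) * x ^ 2 ^ (i : ℕ) = 0 := by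
    intro x
    have h2 := DFunLike.congr_fun hab x
    rw [linG_apply, linG_apply] at h2
    simp only [sub_mul, Finset.sum_sub_distrib]
    rw [h2, sub_self]
  set p : Polynomial K := ∑ i : Fin k, Polynomial.C (a i - b i) * Polynomial.X ^ 2 ^ (i : ℕ) with hp
  have hdeg : p.natDegree < 2 ^ k := by
    refine lt_of_le_of_lt (Polynomial.natDegree_sum_le_of_forall_le (n := 2 ^ (k - 1)) _ _ ?_) ?_
    · intro i _
      refine (Polynomial.natDegree_C_mul_X_pow_le _ _).trans ?_
      exact Nat.pow_le_pow_right (by norm_num) (by omega)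
    · exact Nat.pow_lt_pow_right (by norm_num) (by omega)
  have hp0 : p = 0 := by
    refine Polynomial.eq_zero_of_natDegree_lt_card_of_eval_eq_zero' p Finset.univ ?_ ?_
    · intro x _
      rw [hp, Polynomial.eval_finsetSum]
      simp only [Polynomial.eval_mul, Polynomial.eval_C, Polynomial.eval_pow, Polynomial.eval_X]
      exact h1 x
    · rw [Finset.card_univ, hcard]
      exact hdeg
  funext i
  have h3 : p.coeff (2 ^ (i : ℕ)) = a i - b i := by
    rw [hp, Polynomial.finsetSum_coeff, Finset.sum_eq_single i]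
    · rw [Polynomial.coeff_C_mul_X_pow, if_pos rfl]
    · intro j _ hji
      rw [Polynomial.coeff_C_mul_X_pow, if_neg]
      intro h4
      exact hji (Fin.ext (Nat.pow_right_injective le_rfl h4).symm)
    · intro h
      exact absurd (Finset.mem_univ i) h
  rw [hp0, Polynomial.coeff_zero] at h3
  exact (sub_eq_zero.1 h3.symm)

/-- Additive functions are linearized polynomials. -/
theorem tLin : S_Lin := by
  intro K _ _ _ k hk hcard f hf
  letI : Algebra (ZMod 2) K := ZMod.algebra K 2
  have hfin : Module.finrank (ZMod 2) K = k := by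
    have h1 := Module.card_eq_pow_finrank (K := ZMod 2) (V := K)
    rw [hcard, ZMod.card] at h1
    exact (Nat.pow_right_injective le_rfl h1).symm
  let G : (Fin k → K) → (K →ₗ[ZMod 2] K) := fun a => AddMonoidHom.toZModLinearMap 2 (linG K k a)
  have hG : Function.Injective G := by
    intro a b hab
    refine linG_inj K k hk hcard ?_
    ext x
    exact LinearMap.congr_fun hab x
  haveI : Finite (K →ₗ[ZMod 2] K) := Module.finite_of_finite (ZMod 2)
  have hcardeq : Nat.card (K →ₗ[ZMod 2] K) ≤ Nat.card (Fin k → K) := by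
    have h1 : Nat.card (K →ₗ[ZMod 2] K) = Nat.card (ZMod 2) ^ Module.finrank (ZMod 2) (K →ₗ[ZMod 2] K) :=
      Module.natCard_eq_pow_finrank
    have h2 : Nat.card (Fin k → K) = (2 ^ k) ^ k := by
      rw [Nat.card_eq_fintype_card, Fintype.card_fun, hcard, Fintype.card_fin]
    rw [h1, Module.finrank_linearMap, hfin, h2, Nat.card_zmod, ← pow_mul]
  have hbij : Function.Bijective G := hG.bijective_of_nat_card_le hcardeq
  obtain ⟨a, ha⟩ := hbij.2 (AddMonoidHom.toZModLinearMap 2 (AddMonoidHom.mk' f hf))
  refine ⟨fun i => if h : i < k then a ⟨i, h⟩ else 0, fun x => ?_⟩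
  have h1 : linG K k a x = f x := LinearMap.congr_fun ha x
  rw [← h1, linG_apply, Finset.sum_range]
  refine Finset.sum_congr rfl fun i _ => ?_
  dsimp only
  rw [dif_pos i.2]

end Pool.Agent.MP8bS
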