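import Pool.Agent.Lib.MP_8b575b_co.Spr.Spec

set_option autoImplicit false

namespace Pool.Agent.MP8bS

open Finset

open scoped Classical

private lemma Mis_cop {K : Type} [Field K] [Fintype K] (k i : ℕ)
    (hK : Fintype.card K = 2 ^ k) (hi : Un k i) : (Nat.card Kˣ).Coprime (2 ^ i - 1) := by
  rw [Nat.card_eq_fintype_card, Fintype.card_units, hK, Nat.coprime_iff_gcd_eq_one,
    Nat.pow_sub_one_gcd_pow_sub_one, Nat.gcd_comm, Nat.coprime_iff_gcd_eq_one.mp hi.2.2]
  norm_num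

private lemma Mis_split {K : Type} [Field K] (i : ℕ) (x : K) :
    x ^ 2 ^ i = x ^ (2 ^ i - 1) * x := by
  rw [← pow_succ]
  congr 1
  have : 1 ≤ 2 ^ i := Nat.one_le_two_pow
  omega

private lemma Mis_inj {K : Type} [Field K] [Fintype K] (k i : ℕ)
    (hK : Fintype.card K = 2 ^ k) (hi : Un k i) (x y : K) (hx : x ≠ 0) (hy : y ≠ 0)
    (h : x ^ (2 ^ i - 1) = y ^ (2 ^ i - 1)) : x = y := by
  have h3 : (powCoprime (Mis_cop k i hK hi)) (Units.mk0 x hx) =
      (powCoprime (Mis_cop k i hK hi)) (Units.mk0 y hy) := by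
    ext
    simpa [powCoprime] using h
  exact congrArg Units.val ((powCoprime (Mis_cop k i hK hi)).injective h3)

private lemma Mis_sur {K : Type} [Field K] [Fintype K] (k i : ℕ)
    (hK : Fintype.card K = 2 ^ k) (hi : Un k i) (l : K) (hl : l ≠ 0) :
    ∃ c : K, c ≠ 0 ∧ c ^ (2 ^ i - 1) = l := by
  obtain ⟨c, hc⟩ := (powCoprime (Mis_cop k i hK hi)).surjective (Units.mk0 l hl)
  refine ⟨(c : K), c.ne_zero, ?_⟩
  have := congrArg Units.val hc
  simpa [powCoprime] using this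

theorem tMis : S_Mis := by
  intro K _ _ _ k i i' hk hK hi hi' r m hr hm hrm hinj
  have h2 : (2 : K) = 0 := CharTwo.two_eq_zero
  have hden : ∀ u ∈ D2 K, (u + u ^ 2 ^ i) ^ 2 ^ i' ≠ 0 := by
    intro u hu
    obtain ⟨hu0, hu1⟩ := (mem_filter.mp hu).2
    refine pow_ne_zero _ fun h => hu1 ?_
    have h3 := CharTwo.add_eq_zero.mp h
    refine Mis_inj k i hK hi u 1 hu0 one_ne_zero ?_
    rw [one_pow]
    have h4 : u ^ (2 ^ i - 1) * u = 1 * u := by rw [← Mis_split, ← h3, one_mul]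
    exact mul_right_cancel₀ hu0 h4
  obtain ⟨u₁, hu₁0, hu₁⟩ := Mis_sur k i hK hi (r / m) (div_ne_zero hr hm)
  have hu₁1 : u₁ ≠ 1 := by
    rintro rfl
    rw [one_pow] at hu₁
    exact hrm ((div_eq_one_iff_eq hm).mp hu₁.symm)
  have hu₁D : u₁ ∈ D2 K := mem_filter.mpr ⟨mem_univ _, hu₁0, hu₁1⟩
  have hph₁ : ph i i' r m u₁ = 0 := by
    unfold ph
    rw [Mis_split i u₁, hu₁]
    have : r * u₁ + m * (r / m * u₁) = 0 := by
      field_simp
      linear_combination (r * u₁) * h2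
    rw [this, zero_div]
  have huniq : ∀ u ∈ D2 K, ph i i' r m u = 0 → u = u₁ := by
    intro u hu h
    obtain ⟨hu0, -⟩ := (mem_filter.mp hu).2
    unfold ph at h
    have h3 : r * u + m * u ^ 2 ^ i = 0 := (div_eq_zero_iff.mp h).resolve_right (hden u hu)
    refine Mis_inj k i hK hi u u₁ hu0 hu₁0 ?_
    rw [hu₁, eq_div_iff hm]
    have h4 : (u ^ (2 ^ i - 1) * m) * u = r * u := by
      have h5 := CharTwo.add_eq_zero.mp h3
      rw [Mis_split] at h5
      rw [h5]
      ring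
    exact mul_right_cancel₀ hu0 h4
  set D' := (D2 K).filter fun u => ph i i' r m u ≠ 0 with hD'
  have hD'e : D' = (D2 K).erase u₁ := by
    ext u
    rw [hD', mem_filter, mem_erase]
    constructor
    · rintro ⟨h, h'⟩
      exact ⟨fun he => h' (by rw [he]; exact hph₁), h⟩
    · rintro ⟨h, h'⟩
      exact ⟨h', fun h0 => h (huniq u h' h0)⟩
  have hD2c : (D2 K).card = 2 ^ k - 2 := by
    have h5 : D2 K = (univ.erase (0 : K)).erase 1 := by
      ext u
      unfold D2
      rw [mem_filter, mem_erase, mem_erase]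
      constructor
      · rintro ⟨h, h0, h1⟩
        exact ⟨h1, h0, h⟩
      · rintro ⟨h1, h0, h⟩
        exact ⟨h, h0, h1⟩
    rw [h5, card_erase_of_mem (mem_erase.mpr ⟨one_ne_zero, mem_univ _⟩),
      card_erase_of_mem (mem_univ _), card_univ, hK]
    omega
  have hD'c : D'.card = 2 ^ k - 3 := by
    rw [hD'e, card_erase_of_mem hu₁D, hD2c]
    omega
  have hinjD : Set.InjOn (ph i i' r m) (D' : Set K) := by
    intro u hu v hv h
    have hu' := mem_filter.mp (mem_coe.mp hu)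
    have hv' := mem_filter.mp (mem_coe.mp hv)
    exact hinj u hu'.1 v hv'.1 hu'.2 h
  have hIc : (D'.image (ph i i' r m)).card = 2 ^ k - 3 := by
    rw [card_image_of_injOn hinjD, hD'c]
  have hsub : D'.image (ph i i' r m) ⊆ univ.erase (0 : K) := by
    intro y hy
    obtain ⟨u, hu, rfl⟩ := mem_image.mp hy
    exact mem_erase.mpr ⟨(mem_filter.mp hu).2, mem_univ _⟩
  have hbig : 8 ≤ 2 ^ k := by
    calc 8 = 2 ^ 3 := by norm_num
      _ ≤ 2 ^ k := Nat.pow_le_pow_right (by norm_num) hk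
  have hcomp : (univ.erase (0 : K) \ D'.image (ph i i' r m)).card = 2 := by
    rw [card_sdiff_of_subset hsub, hIc, card_erase_of_mem (mem_univ _), card_univ, hK]
    omega
  obtain ⟨m₁, m₂, hm12, hmm⟩ := card_eq_two.mp hcomp
  have hm₁ : m₁ ∈ univ.erase (0 : K) \ D'.image (ph i i' r m) := by
    rw [hmm]; exact mem_insert_self _ _
  have hm₂ : m₂ ∈ univ.erase (0 : K) \ D'.image (ph i i' r m) := by
    rw [hmm]; exact mem_insert_of_mem (mem_singleton_self _)
  refine ⟨m₁, m₂, (mem_erase.mp (mem_sdiff.mp hm₁).1).1, (mem_erase.mp (mem_sdiff.mp hm₂).1).1,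
    fun e he1 he2 => ?_⟩
  have s1 : ∑ y ∈ univ.erase (0 : K), y ^ e = 0 := by
    have h6 := FiniteField.sum_pow_lt_card_sub_one K e (by rw [hK]; exact he2)
    have h7 : ∑ y ∈ univ.erase (0 : K), y ^ e = ∑ y : K, y ^ e :=
      sum_erase _ (zero_pow (Nat.one_le_iff_ne_zero.mp he1))
    rw [h7, h6]
  have s2 : ∑ y ∈ univ.erase (0 : K), y ^ e =
      ∑ y ∈ univ.erase (0 : K) \ D'.image (ph i i' r m), y ^ e +
      ∑ y ∈ D'.image (ph i i' r m), y ^ e := (sum_sdiff hsub).symm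
  rw [hmm, sum_pair hm12, sum_image hinjD, s1] at s2
  have s3 : ∑ u ∈ D2 K, ph i i' r m u ^ e = ∑ u ∈ D', ph i i' r m u ^ e := by
    rw [hD', sum_filter]
    refine sum_congr rfl fun u _ => ?_
    split_ifs with h
    · rfl
    · push Not at h
      rw [h, zero_pow (by omega)]
  rw [s3]
  have s4 := CharTwo.add_eq_zero.mp s2.symm
  exact s4.symm

end Pool.Agent.MP8bS
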