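import Pool.Agent.Lib.MP_8b575b_co.Spr.Spec

set_option autoImplicit false

namespace Pool.Agent.MP8bS

open Finset

open scoped Classical

private lemma Mp_pow {K : Type} [Field K] [Fintype K] (k i : ℕ)
    (hK : Fintype.card K = 2 ^ k) (hi : Un k i) (l : K) (hl : l ≠ 0) :
    ∃ c : K, c ≠ 0 ∧ c ^ 2 ^ i = c * l := by
  have hco : (Nat.card Kˣ).Coprime (2 ^ i - 1) := by
    rw [Nat.card_eq_fintype_card, Fintype.card_units, hK, Nat.coprime_iff_gcd_eq_one,
      Nat.pow_sub_one_gcd_pow_sub_one, Nat.gcd_comm, Nat.coprime_iff_gcd_eq_one.mp hi.2.2]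
    norm_num
  obtain ⟨c, hc⟩ := (powCoprime hco).surjective (Units.mk0 l hl)
  refine ⟨(c : K), c.ne_zero, ?_⟩
  have h1 := congrArg Units.val hc
  have h2 : (c : K) ^ (2 ^ i - 1) = l := by simpa [powCoprime] using h1
  rw [← h2, ← pow_succ']
  congr 1
  have : 1 ≤ 2 ^ i := Nat.one_le_two_pow
  omega

private lemma Mp_sol {K : Type} [Field K] [CharP K 2] (a b : K × K) (h : Dt a b ≠ 0) (s t : K) :
    ∃ v : K × K, Lf a v = s ∧ Lf b v = t := by
  have h2 : (2 : K) = 0 := CharTwo.two_eq_zero
  refine ⟨((s * b.2 + t * a.2) / Dt a b, (s * b.1 + t * a.1) / Dt a b), ?_, ?_⟩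
  · simp only [Lf]
    field_simp
    simp only [Dt]
    linear_combination (t * a.1 * a.2) * h2
  · simp only [Lf]
    field_simp
    simp only [Dt]
    linear_combination (s * b.1 * b.2) * h2

private lemma Mp_zero {K : Type} [Field K] [CharP K 2] (a b v : K × K) (h : Dt a b ≠ 0)
    (h1 : Lf a v = 0) (h2 : Lf b v = 0) : v = 0 := by
  have h0 : (2 : K) = 0 := CharTwo.two_eq_zero
  simp only [Lf] at h1 h2
  have e1 : Dt a b * v.1 = 0 := by
    simp only [Dt]
    linear_combination b.2 * h1 + a.2 * h2 - (a.2 * b.2 * v.2) * h0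
  have e2 : Dt a b * v.2 = 0 := by
    simp only [Dt]
    linear_combination b.1 * h1 + a.1 * h2 - (a.1 * b.1 * v.1) * h0
  exact Prod.ext ((mul_eq_zero.mp e1).resolve_left h) ((mul_eq_zero.mp e2).resolve_left h)

private lemma Mp_cr {K : Type} [Field K] [CharP K 2] (a b c v : K × K) :
    Dt a b * Lf c v = Dt b c * Lf a v + Dt a c * Lf b v := by
  have h0 : (2 : K) = 0 := CharTwo.two_eq_zero
  simp only [Lf, Dt]
  linear_combination (-(a.1 * b.1 * c.2 * v.1) - (a.2 * b.2 * c.1 * v.2)) * h0

theorem tMp : S_Mp := by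
  intro K _ _ _ k i hk hK hi U a b l hab hl hz c hc
  have hpp : 0 < 2 ^ i := by positivity
  constructor
  · intro h
    by_contra hcon
    push Not at hcon
    obtain ⟨hac, hbc⟩ := hcon
    obtain ⟨t, ht, hte⟩ := Mp_pow k i hK hi (Dt b c / (Dt a c * l))
      (div_ne_zero hbc (mul_ne_zero hac hl))
    obtain ⟨v, hva, hvb⟩ := Mp_sol a b hab t (l * t ^ 2 ^ i)
    have hvU : v ∈ U := by
      rw [hz v, hva, hvb]
    have h0 : Dt a b * Lf c v = 0 := by
      rw [Mp_cr, hva, hvb, hte]
      have : Dt a c * (l * (t * (Dt b c / (Dt a c * l)))) = Dt b c * t := by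
        field_simp
      rw [this]
      exact CharTwo.add_self_eq_zero _
    have h1 := h v hvU ((mul_eq_zero.mp h0).resolve_left hab)
    apply ht
    rw [← hva, h1]
    simp [Lf]
  · rintro (h | h) v hv h0
    · have h1 := Mp_cr a b c v
      rw [h0, h, mul_zero, zero_mul, add_zero] at h1
      have hbc : Dt b c ≠ 0 := by
        intro hbc
        apply hc
        have e0 : (2 : K) = 0 := CharTwo.two_eq_zero
        simp only [Dt] at h hbc
        have e1 : Dt a b * c.1 = 0 := by
          simp only [Dt]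
          linear_combination b.1 * h + a.1 * hbc - (a.1 * b.1 * c.2) * e0
        have e2 : Dt a b * c.2 = 0 := by
          simp only [Dt]
          linear_combination b.2 * h + a.2 * hbc - (a.2 * b.2 * c.1) * e0
        exact Prod.ext ((mul_eq_zero.mp e1).resolve_left hab)
          ((mul_eq_zero.mp e2).resolve_left hab)
      have hva : Lf a v = 0 := (mul_eq_zero.mp h1.symm).resolve_left hbc
      have hvb := (hz v).mp hv
      rw [hva, zero_pow hpp.ne', mul_zero] at hvb
      exact Mp_zero a b v hab hva hvb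
    · have h1 := Mp_cr a b c v
      rw [h0, h, mul_zero, zero_mul, zero_add] at h1
      have hac : Dt a c ≠ 0 := by
        intro hac
        apply hc
        have e0 : (2 : K) = 0 := CharTwo.two_eq_zero
        simp only [Dt] at h hac
        have e1 : Dt a b * c.1 = 0 := by
          simp only [Dt]
          linear_combination b.1 * hac + a.1 * h - (a.1 * b.1 * c.2) * e0
        have e2 : Dt a b * c.2 = 0 := by
          simp only [Dt]
          linear_combination b.2 * hac + a.2 * h - (a.2 * b.2 * c.1) * e0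
        exact Prod.ext ((mul_eq_zero.mp e1).resolve_left hab)
          ((mul_eq_zero.mp e2).resolve_left hab)
      have hvb : Lf b v = 0 := (mul_eq_zero.mp h1.symm).resolve_left hac
      have hva := (hz v).mp hv
      rw [hvb] at hva
      have hva' : Lf a v = 0 := by
        have := (mul_eq_zero.mp hva.symm).resolve_left hl
        exact eq_zero_of_pow_eq_zero this
      exact Mp_zero a b v hab hva' hvb

end Pool.Agent.MP8bS
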