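import Pool.Agent.Lib.MP_8b575b_co.Spr.Spec

set_option autoImplicit false

namespace Pool.Agent.MP8bS

open Finset

open scoped Classical

private lemma Orb_pow {K : Type} [Field K] [Fintype K] (k i : ℕ)
    (hK : Fintype.card K = 2 ^ k) (hi : Un k i) (l : K) (hl : l ≠ 0) :
    ∃ c : K, c ≠ 0 ∧ c ^ (2 ^ i - 1) = l := by
  have hco : (Nat.card Kˣ).Coprime (2 ^ i - 1) := by
    rw [Nat.card_eq_fintype_card, Fintype.card_units, hK, Nat.coprime_iff_gcd_eq_one,
      Nat.pow_sub_one_gcd_pow_sub_one, Nat.gcd_comm, Nat.coprime_iff_gcd_eq_one.mp hi.2.2]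
    norm_num
  obtain ⟨c, hc⟩ := (powCoprime hco).surjective (Units.mk0 l hl)
  refine ⟨(c : K), c.ne_zero, ?_⟩
  have := congrArg Units.val hc
  simpa [powCoprime] using this

theorem tOrb : S_Orb := by
  intro K _ _ _ k i hk hK hi C hC U hU a b hz l hl
  obtain ⟨c, hc, hcl⟩ := Orb_pow k i hK hi l hl
  obtain ⟨W, hW, hWv⟩ := hC.2.2.1 U hU c hc
  refine ⟨W, hW, fun v => ?_⟩
  rw [hWv v, hz (c • v)]
  have e1 : ∀ d : K × K, Lf d (c • v) = c * Lf d v := by
    intro d
    simp only [Lf, Prod.smul_fst, Prod.smul_snd, smul_eq_mul]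
    ring
  have e2 : c ^ 2 ^ i = c * l := by
    rw [← hcl, ← pow_succ']
    congr 1
    have : 1 ≤ 2 ^ i := Nat.one_le_two_pow
    omega
  rw [e1, e1, mul_pow, e2, one_mul, mul_assoc]
  constructor
  · exact fun h => mul_left_cancel₀ hc h
  · exact fun h => by rw [h]

end Pool.Agent.MP8bS
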