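import Pool.Agent.Lib.MP_8b575b_co.Spr.Spec

set_option autoImplicit false

namespace Pool.Agent.MP8bS

open Finset

open scoped Classical

theorem tOut : S_Fin → S_Out := by
  intro hFin F K _ _ _ _ _ k hF hk hfr C hdim hint hspr hinv
  have h2F : (2 : F) = 0 := by
    have := FiniteField.cast_card_eq_zero F
    rw [hF] at this
    exact_mod_cast this
  have h2K : (2 : K) = 0 := by
    have := congrArg (algebraMap F K) h2F
    rwa [map_ofNat, map_zero] at this
  have _i1 : CharP K 2 := CharTwo.of_one_ne_zero_of_two_eq_zero one_ne_zero h2K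
  have _i2 : FiniteDimensional F K := FiniteDimensional.of_finrank_pos (by omega)
  have hK : Fintype.card K = 2 ^ k := by
    rw [Module.card_eq_pow_finrank (K := F) (V := K), hF, hfr]
  have hinj : Function.Injective fun U : Submodule F (K × K) => U.toAddSubgroup :=
    Submodule.toAddSubgroup_injective
  have hcard : (C.image fun U => U.toAddSubgroup).card = C.card :=
    card_image_of_injective _ hinj
  rw [← hcard]
  refine hFin K k hk hK _ ⟨?_, ?_, ?_, ?_⟩
  · intro U hU
    obtain ⟨W, hW, rfl⟩ := mem_image.mp hU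
    have h1 : Nat.card W = 2 ^ k := by
      rw [Nat.card_eq_fintype_card, Module.card_eq_pow_finrank (K := F) (V := W), hF, hdim W hW]
    exact h1
  · intro U hU W hW hne v hv hv' w hw hw' hv0 hw0
    obtain ⟨A, hA, rfl⟩ := mem_image.mp hU
    obtain ⟨B, hB, rfl⟩ := mem_image.mp hW
    have hAB : A ≠ B := fun h => hne (by rw [h])
    by_contra hvw
    have h1 := hint A hA B hB hAB
    have h2 : Fintype.card ↥(A ⊓ B) ≤ 2 := by
      rw [Module.card_eq_pow_finrank (K := F) (V := ↥(A ⊓ B)), hF]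
      calc 2 ^ Module.finrank F ↥(A ⊓ B) ≤ 2 ^ 1 := Nat.pow_le_pow_right (by norm_num) h1
        _ = 2 := by norm_num
    have hv2 : v ∈ A ⊓ B := ⟨hv, hv'⟩
    have hw2 : w ∈ A ⊓ B := ⟨hw, hw'⟩
    have h3 : ({(0 : ↥(A ⊓ B)), ⟨v, hv2⟩, ⟨w, hw2⟩} : Finset ↥(A ⊓ B)).card = 3 := by
      refine card_eq_three.mpr ⟨_, _, _, ?_, ?_, ?_, rfl⟩
      · intro h
        exact hv0 (congrArg Subtype.val h).symm
      · intro h
        exact hw0 (congrArg Subtype.val h).symm
      · intro h
        exact hvw (congrArg Subtype.val h)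
    have h4 := card_le_univ ({(0 : ↥(A ⊓ B)), ⟨v, hv2⟩, ⟨w, hw2⟩} : Finset ↥(A ⊓ B))
    omega
  · intro U hU c hc
    obtain ⟨W, hW, rfl⟩ := mem_image.mp hU
    refine ⟨_, mem_image.mpr ⟨_, hinv c⁻¹ (inv_ne_zero hc) W hW, rfl⟩, fun v => ?_⟩
    constructor
    · intro h
      obtain ⟨u, hu, hv⟩ := (Submodule.mem_map (p := W)).mp h
      have hv' : c⁻¹ • u = v := hv
      show c • v ∈ W
      rw [← hv', smul_smul, mul_inv_cancel₀ hc, one_smul]
      exact hu
    · intro h
      refine (Submodule.mem_map (p := W)).mpr ⟨c • v, h, ?_⟩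
      show c⁻¹ • c • v = v
      rw [smul_smul, inv_mul_cancel₀ hc, one_smul]
  · intro v hv
    refine ⟨_, mem_image.mpr ⟨_, hspr v hv, rfl⟩, fun w => ?_⟩
    constructor
    · intro h
      have h' : w ∈ Submodule.span K {v} := h
      obtain ⟨c, hc⟩ := Submodule.mem_span_singleton.mp h'
      exact ⟨c, hc.symm⟩
    · rintro ⟨c, rfl⟩
      have h' : c • v ∈ Submodule.span K {v} := Submodule.mem_span_singleton.mpr ⟨c, rfl⟩
      exact h'

end Pool.Agent.MP8bS
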