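import Pool.Agent.Lib.MP_8b575b_co.Spr.Spec

set_option autoImplicit false

namespace Pool.Agent.MP8bS

open Finset

open scoped Classical

theorem tPay : S_Lin → S_Pet → S_Wal → S_Uni → S_Pay := by
  intro hLin hPet hWal hUni K _ _ _ k hk hK f hadd hne hinj
  obtain ⟨a, ha⟩ := hLin K k (by omega) hK f hadd
  have hper := hPet K k (by omega) hK f a ha hne hinj
  have hex : ∃ i < k, a i ≠ 0 := by
    by_contra hcon
    push Not at hcon
    apply hne 1 one_ne_zero
    rw [ha 1]
    exact sum_eq_zero fun i hi => by rw [hcon i (mem_range.mp hi), zero_mul]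
  obtain ⟨i, hu, hi, hz⟩ := hUni K k a hk (hWal K k a hper) hex
  refine ⟨i, a i, hu, hi, fun x => ?_⟩
  rw [ha x]
  exact sum_eq_single_of_mem i (mem_range.mpr hu.2.1) fun j hj hji => by
    rw [hz j (mem_range.mp hj) hji, zero_mul]

end Pool.Agent.MP8bS
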