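import Pool.Agent.Lib.MP_8b575b_co.Spr.Spec

set_option autoImplicit false

namespace Pool.Agent.MP8bS

open Finset

open scoped Classical

private theorem pet_mod {K : Type} [Field K] [Fintype K] {k : ℕ} (hc : Fintype.card K = 2 ^ k)
    (x : K) (n : ℕ) : x ^ 2 ^ n = x ^ 2 ^ (n % k) := by
  conv_lhs => rw [← Nat.div_add_mod n k, pow_add, pow_mul, pow_mul, ← hc, FiniteField.pow_card_pow]

private theorem pet_pow {K : Type} [Field K] [Fintype K] [CharP K 2] {k : ℕ}
    (hc : Fintype.card K = 2 ^ k) (a : ℕ → K) (x : K) (b : ℕ) (hb : b < k) :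
    (∑ i ∈ range k, a i * x ^ 2 ^ i) ^ 2 ^ b =
      ∑ c ∈ range k, a ((c + (k - b)) % k) ^ 2 ^ b * x ^ 2 ^ c := by
  have : Fact (Nat.Prime 2) := ⟨Nat.prime_two⟩
  rw [sum_pow_char_pow]
  have hk : 0 < k := by omega
  have key : ∀ u v : ℕ, u < k → u + v = k → ∀ w, w < k → ((w + u) % k + v) % k = w := by
    intro u v _ huv w hw
    rw [Nat.mod_add_mod, add_assoc, huv, Nat.add_mod_right, Nat.mod_eq_of_lt hw]
  refine Finset.sum_nbij' (fun i => (i + b) % k) (fun c => (c + (k - b)) % k) ?_ ?_ ?_ ?_ ?_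
  · intro i _
    exact mem_range.2 (Nat.mod_lt _ hk)
  · intro i _
    exact mem_range.2 (Nat.mod_lt _ hk)
  · intro i hi
    exact key b (k - b) hb (by omega) i (mem_range.1 hi)
  · intro c hc
    have hc' := mem_range.1 hc
    by_cases hb0 : b = 0
    · subst hb0
      change ((c + (k - 0)) % k + 0) % k = c
      rw [Nat.sub_zero, add_zero, Nat.mod_mod, Nat.add_mod_right, Nat.mod_eq_of_lt hc']
    · exact key (k - b) b (by omega) (by omega) c hc'
  · intro i hi
    rw [key b (k - b) hb (by omega) i (mem_range.1 hi), ← pet_mod hc, mul_pow, ← pow_mul, ← pow_add]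

private theorem pet_units {K : Type} [Field K] [Fintype K] {k : ℕ} (hc : Fintype.card K = 2 ^ k)
    (e j : ℕ) (hj : j ≤ 2 ^ k - 1) :
    ∑ x : Kˣ, (x : K) ^ e * ((x : K) ^ j)⁻¹ = if e ≡ j [MOD 2 ^ k - 1] then -1 else 0 := by
  have h1 : ∀ x : Kˣ, (x : K) ^ e * ((x : K) ^ j)⁻¹ = (x : K) ^ (e + (2 ^ k - 1 - j)) := by
    intro x
    have h2 : (x : K) ^ (2 ^ k - 1) = 1 := by
      rw [← hc]
      exact FiniteField.pow_card_sub_one_eq_one _ x.ne_zero
    have h3 : (x : K) ^ j ≠ 0 := pow_ne_zero _ x.ne_zero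
    rw [pow_add]
    congr 1
    rw [inv_eq_iff_eq_inv, ← one_div, eq_div_iff (pow_ne_zero _ x.ne_zero), ← pow_add,
      Nat.add_sub_cancel' hj, h2]
  rw [Finset.sum_congr rfl fun x _ => h1 x]
  have h4 := FiniteField.sum_pow_units K (e + (2 ^ k - 1 - j))
  rw [hc] at h4
  rw [h4]
  have h5 : (2 ^ k - 1 ∣ e + (2 ^ k - 1 - j)) ↔ e ≡ j [MOD 2 ^ k - 1] := by
    have h6 : e + (2 ^ k - 1 - j) ≡ 0 [MOD 2 ^ k - 1] ↔ e ≡ j [MOD 2 ^ k - 1] := by
      have h7 : j + (2 ^ k - 1 - j) ≡ 0 [MOD 2 ^ k - 1] := by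
        rw [Nat.add_sub_cancel' hj]
        exact Nat.modEq_zero_iff_dvd.2 dvd_rfl
      constructor
      · intro h
        exact Nat.ModEq.add_right_cancel' _ (h.trans h7.symm)
      · intro h
        exact (h.add_right _).trans h7
    rw [← h6, Nat.modEq_zero_iff_dvd]
  by_cases h : e ≡ j [MOD 2 ^ k - 1]
  · rw [if_pos h, if_pos (h5.2 h)]
  · rw [if_neg h, if_neg fun h' => h (h5.1 h')]

theorem tPet : S_Rep → S_Pet := by
  intro hRep K _ _ _ k hk hc f a hf hf0 hinj B hB hBn hBr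
  set j := ∑ b ∈ B, 2 ^ b with hj
  have hgeom : ∑ c ∈ range k, 2 ^ c = 2 ^ k - 1 := by
    have := Nat.geomSum_eq (m := 2) le_rfl k
    simpa using this
  have hj0 : 0 < j := Finset.sum_pos (fun _ _ => by positivity) hBn
  have hjN : j < 2 ^ k - 1 := by
    rw [← hgeom]
    obtain ⟨c, hc1, hc2⟩ : ∃ c ∈ range k, c ∉ B := by
      by_contra h
      push Not at h
      exact hBr (Finset.Subset.antisymm hB h)
    exact Finset.sum_lt_sum_of_subset hB hc1 hc2 (by positivity) fun _ _ _ => Nat.zero_le _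
  -- the sum vanishes
  let φ : Kˣ → Kˣ := fun x => Units.mk0 (f x / x) (div_ne_zero (hf0 _ x.ne_zero) x.ne_zero)
  have hφ : Function.Injective φ := by
    intro x y hxy
    have h1 : f x / x = f y / y := congrArg Units.val hxy
    exact Units.ext (hinj _ _ x.ne_zero y.ne_zero h1)
  have hφb : Function.Bijective φ := Finite.injective_iff_bijective.1 hφ
  have hsum : ∑ x : Kˣ, (f x / x) ^ j = 0 := by
    have h1 : ∑ x : Kˣ, ((φ x : Kˣ) : K) ^ j = ∑ y : Kˣ, (y : K) ^ j :=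
      hφb.sum_comp fun y : Kˣ => (y : K) ^ j
    have h2 := FiniteField.sum_pow_units K j
    rw [hc, if_neg (Nat.not_dvd_of_pos_of_lt hj0 hjN)] at h2
    exact h1.trans h2
  -- expansion
  let A : {x // x ∈ B} → ℕ → K := fun b c => a ((c + (k - (b : ℕ))) % k) ^ 2 ^ (b : ℕ)
  have hexp : ∀ x : Kˣ, (f x / x) ^ j = ∑ g ∈ Fintype.piFinset fun _ : {x // x ∈ B} => range k,
      (∏ b, A b (g b)) * ((x : K) ^ (∑ b, 2 ^ g b) * ((x : K) ^ j)⁻¹) := by
    intro x
    have h1 : (f x) ^ j = ∏ b : {x // x ∈ B}, ∑ c ∈ range k, A b c * (x : K) ^ 2 ^ c := by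
      rw [hj, ← Finset.prod_pow_eq_pow_sum, ← Finset.prod_coe_sort]
      refine Finset.prod_congr rfl fun b _ => ?_
      rw [hf, pet_pow hc a x b (mem_range.1 (hB b.2))]
    rw [div_pow, h1, Finset.prod_univ_sum, div_eq_mul_inv, Finset.sum_mul]
    refine Finset.sum_congr rfl fun g _ => ?_
    rw [Finset.prod_mul_distrib, Finset.prod_pow_eq_pow_sum, mul_assoc]
  rw [Finset.sum_congr rfl fun x _ => hexp x, Finset.sum_comm] at hsum
  have hsum2 : ∑ g ∈ Fintype.piFinset fun _ : {x // x ∈ B} => range k,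
      (∏ b, A b (g b)) * (if (∑ b, 2 ^ g b) ≡ j [MOD 2 ^ k - 1] then (-1 : K) else 0) = 0 := by
    refine Eq.trans ?_ hsum
    refine Finset.sum_congr rfl fun g _ => ?_
    rw [← Finset.mul_sum, pet_units hc _ _ hjN.le]
  have hperm : ∑ σ : Equiv.Perm {x // x ∈ B}, (∏ b, A b (σ b)) * (-1 : K) =
      ∑ g ∈ Fintype.piFinset fun _ : {x // x ∈ B} => range k,
      (∏ b, A b (g b)) * (if (∑ b, 2 ^ g b) ≡ j [MOD 2 ^ k - 1] then (-1 : K) else 0) := by
    refine Finset.sum_of_injOn (fun σ b => ((σ b : {x // x ∈ B}) : ℕ)) ?_ ?_ ?_ ?_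
    · intro σ _ τ _ h
      ext b
      exact congrFun h b
    · intro σ _
      rw [Finset.mem_coe, Fintype.mem_piFinset]
      exact fun b => hB (σ b).2
    · intro g hg hg2
      rw [if_neg, mul_zero]
      intro h
      apply hg2
      rw [Fintype.mem_piFinset] at hg
      let g' : ℕ → ℕ := fun b => if hb : b ∈ B then g ⟨b, hb⟩ else 0
      have hg' : ∀ b : {x // x ∈ B}, g' b = g b := fun b => by
        simp only [g']
        rw [dif_pos b.2]
      have h1 : ∑ b ∈ B, 2 ^ g' b = ∑ b, 2 ^ g b := by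
        rw [← Finset.sum_coe_sort]
        exact Finset.sum_congr rfl fun b _ => by rw [hg']
      have h2 := hRep k B g' hB hBn hBr (fun b hb => by
        have := hg' ⟨b, hb⟩
        change g' b < k
        rw [this]
        exact mem_range.1 (hg _)) (by rw [h1]; exact h)
      have h3 : ∀ b : {x // x ∈ B}, g b ∈ B := by
        intro b
        have h6 := Finset.mem_image_of_mem g' b.2
        rw [h2, hg'] at h6
        exact h6
      let τ : {x // x ∈ B} → {x // x ∈ B} := fun b => ⟨g b, h3 b⟩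
      have h4 : Function.Surjective τ := by
        intro c
        have h5 : (c : ℕ) ∈ B.image g' := by rw [h2]; exact c.2
        obtain ⟨b, hb, hbc⟩ := Finset.mem_image.1 h5
        exact ⟨⟨b, hb⟩, Subtype.ext ((hg' ⟨b, hb⟩).symm.trans hbc)⟩
      refine ⟨Equiv.ofBijective τ (Finite.surjective_iff_bijective.1 h4), Finset.mem_coe.2 (mem_univ _), ?_⟩
      funext b
      rfl
    · intro σ _
      have h1 : ∑ b : {x // x ∈ B}, 2 ^ ((σ b : {x // x ∈ B}) : ℕ) = j := by
        rw [hj, Equiv.sum_comp σ fun b : {x // x ∈ B} => 2 ^ (b : ℕ),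
          Finset.sum_coe_sort B fun b => 2 ^ b]
      rw [if_pos]
      rw [h1]
  rw [← Finset.sum_mul, hsum2] at hperm
  have h5 := (mul_eq_zero.1 hperm).resolve_right (by simp)
  exact h5

end Pool.Agent.MP8bS
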