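import Pool.Agent.Lib.MP_8b575b_co.Spr.Spec

set_option autoImplicit false

namespace Pool.Agent.MP8bS

open Finset

open scoped Classical

/-- Exponents may be reduced modulo `k`. -/
private theorem pow_mod {K : Type} [Field K] [Fintype K] (k : ℕ)
    (hK : Fintype.card K = 2 ^ k) (x : K) (j : ℕ) : x ^ 2 ^ (j % k) = x ^ 2 ^ j := by
  conv_rhs => rw [← Nat.div_add_mod j k, pow_add, pow_mul, pow_mul 2 k, ← hK,
    FiniteField.pow_card_pow]

private theorem pow_fr {K : Type} [Field K] [CharP K 2] (x y : K) (j : ℕ) :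
    (x + y) ^ 2 ^ j = x ^ 2 ^ j + y ^ 2 ^ j := add_pow_char_pow x y 2 j

/-- Telescoping. -/
private theorem pow_tel {K : Type} [Field K] [CharP K 2] (i : ℕ) (u : K) (a : ℕ) :
    ∑ j ∈ range a, (u + u ^ 2 ^ i) ^ 2 ^ (i * j) = u + u ^ 2 ^ (i * a) := by
  induction a with
  | zero => simp [CharTwo.add_self_eq_zero]
  | succ a ih =>
    rw [sum_range_succ, ih, pow_fr, ← pow_mul, ← pow_add]
    have h1 : i + i * a = i * (a + 1) := by ring
    rw [h1]
    have h2 := CharTwo.add_self_eq_zero (u ^ 2 ^ (i * a))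
    linear_combination h2

/-- A sum of zeros and ones. -/
private theorem pow_nat {K : Type} [Field K] [CharP K 2] (n : ℕ) :
    (n : K) = 0 ∨ (n : K) = 1 := by
  rcases Nat.even_or_odd n with h | h
  · left
    exact (CharP.cast_eq_zero_iff K 2 n).2 h.two_dvd
  · right
    obtain ⟨m, rfl⟩ := h
    rw [Nat.cast_add, Nat.cast_mul]
    have h2 : ((2 : ℕ) : K) = 0 := (CharP.cast_eq_zero_iff K 2 2).2 dvd_rfl
    rw [h2]
    simp

theorem tPow (hSum : S_Sum) (hFib : S_Fib) : S_Pow := by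
  intro K _ _ _ k i i' hk hK hi hi' r m
  have h22 : (2 : K) = 0 := CharTwo.two_eq_zero
  have hph : ∀ u : K, ph i i' r m u =
      ((r + m) * u + m * (u + u ^ 2 ^ i)) * ((u + u ^ 2 ^ i) ^ 2 ^ i')⁻¹ := by
    intro u
    unfold ph
    rw [div_eq_mul_inv]
    congr 1
    linear_combination -(m * u) * h22
  have hone : ∀ h : K → K, ∑ u ∈ D2 K, u * h (u + u ^ 2 ^ i) = ∑ x ∈ T0 K k, h x := by
    intro h
    have := hFib K k i (by omega) hK hi (fun u => u) (fun _ => 1) h (by
      intro u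
      linear_combination u * h22)
    simpa using this
  have hzero : ∀ h : K → K, ∑ u ∈ D2 K, h (u + u ^ 2 ^ i) = 0 := by
    intro h
    have := hFib K k i (by omega) hK hi (fun _ => 1) (fun _ => 0) h (by
      intro u
      linear_combination h22)
    simpa using this
  refine ⟨?_, ?_⟩
  · have h1 : ∀ u : K, ph i i' r m u = (r + m) * (u * (fun x => (x ^ 2 ^ i')⁻¹) (u + u ^ 2 ^ i)) +
        (fun x => m * x * (x ^ 2 ^ i')⁻¹) (u + u ^ 2 ^ i) := by
      intro u
      rw [hph]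
      ring
    have e1 : ∑ u ∈ D2 K, u * ((u + u ^ 2 ^ i) ^ 2 ^ i')⁻¹ = ∑ x ∈ T0 K k, (x ^ 2 ^ i')⁻¹ :=
      hone (fun x => (x ^ 2 ^ i')⁻¹)
    have e2 : ∑ u ∈ D2 K, m * (u + u ^ 2 ^ i) * ((u + u ^ 2 ^ i) ^ 2 ^ i')⁻¹ = 0 :=
      hzero (fun x => m * x * (x ^ 2 ^ i')⁻¹)
    simp only [h1]
    rw [sum_add_distrib, ← mul_sum, e1, e2,
      (hSum K k (by omega) hK i' 0 0 hi'.2.1 (by omega) (by omega) (Nat.pos_iff_ne_zero.1 hi'.1)).2.2]
    ring
  · intro t ht1 htk
    have hkpos : 0 < k := by omega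
    set α := (i' + t) % k with hα
    have hαk : α < k := Nat.mod_lt _ hkpos
    have hmodcase : (i' + t < k ∧ α = i' + t) ∨ (k ≤ i' + t ∧ α = i' + t - k) := by
      rcases Nat.lt_or_ge (i' + t) k with h | h
      · exact Or.inl ⟨h, Nat.mod_eq_of_lt h⟩
      · refine Or.inr ⟨h, ?_⟩
        rw [hα, Nat.mod_eq_sub_mod h, Nat.mod_eq_of_lt (by have := hi'.2.1; omega)]
    have hαi' : α ≠ i' := by
      have := hi'.2.1
      rcases hmodcase with ⟨_, h⟩ | ⟨_, h⟩ <;> omega
    have hα0 : α = 0 ↔ t + i' = k := by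
      have h1 := hi'.2.1
      have h2 := hi'.1
      rcases hmodcase with ⟨_, h⟩ | ⟨_, h⟩ <;> omega
    have hαt : t ≠ α := by
      have h1 := hi'.2.1
      have h2 := hi'.1
      rcases hmodcase with ⟨_, h⟩ | ⟨_, h⟩ <;> omega
    -- the weight
    set W : K → K := fun x => (x ^ 2 ^ α * x ^ 2 ^ i')⁻¹ with hW
    have hpow : ∀ u : K, ph i i' r m u ^ (2 ^ t + 1) =
        (r + m) ^ (2 ^ t + 1) * (u ^ (2 ^ t + 1) * W (u + u ^ 2 ^ i)) +
        (r + m) ^ 2 ^ t * m * (u ^ 2 ^ t * (fun x => x ^ 2 ^ 0 * W x) (u + u ^ 2 ^ i)) +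
        m ^ 2 ^ t * (r + m) * (u * (fun x => x ^ 2 ^ t * W x) (u + u ^ 2 ^ i)) +
        (fun x => m ^ (2 ^ t + 1) * x ^ (2 ^ t + 1) * W x) (u + u ^ 2 ^ i) := by
      intro u
      rw [hph]
      generalize u + u ^ 2 ^ i = x
      rw [pow_succ, mul_pow, pow_fr, mul_pow, mul_pow]
      have h1 : ((x ^ 2 ^ i')⁻¹) ^ 2 ^ t = (x ^ 2 ^ α)⁻¹ := by
        rw [inv_pow, ← pow_mul, ← pow_add, hα, pow_mod k hK]
      rw [h1]
      simp only [hW, mul_inv]
      ring
    -- the exponent
    obtain ⟨a, ha, ha2⟩ : ∃ a, i * a % k = t ∧ (k = 4 → t = 2 → a = 2) := by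
      by_cases h4 : k = 4 ∧ t = 2
      · refine ⟨2, ?_, fun _ _ => rfl⟩
        obtain ⟨h4, ht2⟩ := h4
        have h1 := hi.2.1
        have h2 := hi.1
        have h3 := hi.2.2
        subst h4
        subst ht2
        interval_cases i
        · rfl
        · exact absurd h3 (by decide)
        · rfl
      · obtain ⟨a, -, ha⟩ := Nat.exists_mul_mod_eq_of_coprime t hi.2.2 (by omega)
        refine ⟨a, ?_, fun h5 h6 => absurd ⟨h5, h6⟩ h4⟩
        rw [ha, Nat.mod_eq_of_lt htk]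
    have hS := fun γ (hγ : γ < k) =>
      hSum K k (by omega) hK α i' γ hαk hi'.2.1 hγ hαi'
    -- the main sum
    have hmain : ∑ u ∈ D2 K, u ^ (2 ^ t + 1) * W (u + u ^ 2 ^ i) =
        ∑ j ∈ range a, (if i * j % k = α ∨ i * j % k = i' then (1 : K) else 0) := by
      rw [hFib K k i (by omega) hK hi (fun u => u ^ (2 ^ t + 1))
        (fun x => 1 + ∑ j ∈ range a, x ^ 2 ^ (i * j % k)) W (by
          intro u
          have h1 : ∑ j ∈ range a, (u + u ^ 2 ^ i) ^ 2 ^ (i * j % k) = u + u ^ 2 ^ t := by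
            rw [sum_congr rfl fun j _ => pow_mod k hK (u + u ^ 2 ^ i) (i * j), pow_tel,
              ← pow_mod k hK u (i * a), ha]
          simp only [h1]
          rw [pow_succ, pow_succ, pow_fr, one_pow]
          linear_combination (u ^ 2 ^ t * u) * h22)]
      simp only [add_mul, one_mul, sum_mul, sum_add_distrib]
      rw [(hS 0 hkpos).1, zero_add, sum_comm]
      refine sum_congr rfl fun j _ => ?_
      exact (hS _ (Nat.mod_lt _ hkpos)).2.1
    refine ⟨∑ j ∈ range a, (if i * j % k = α ∨ i * j % k = i' then (1 : K) else 0), ?_, ?_, ?_⟩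
    · rw [← Nat.cast_one, ← Nat.cast_zero]
      have h1 : ∑ j ∈ range a, (if i * j % k = α ∨ i * j % k = i' then ((1 : ℕ) : K) else
          ((0 : ℕ) : K)) = ((∑ j ∈ range a, (if i * j % k = α ∨ i * j % k = i' then 1 else 0) : ℕ) :
            K) := by
        rw [Nat.cast_sum]
        refine sum_congr rfl fun j _ => ?_
        split_ifs <;> simp
      rw [h1]
      exact_mod_cast pow_nat (K := K) _
    · intro h4 ht2
      rw [ha2 h4 ht2]
      subst h4
      subst ht2
      have h1 := hi.2.1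
      have h2 := hi.1
      have h3 := hi.2.2
      have h1' := hi'.2.1
      have h2' := hi'.1
      have h3' := hi'.2.2
      rw [sum_range_succ, sum_range_succ, sum_range_zero, hα]
      clear_value α W
      clear hmain hpow hS hone hzero hph hW ha ha2 hmodcase hαi' hα0 hαt hαk hα hi hi'
      interval_cases i
      · interval_cases i'
        · simp
        · exact absurd h3' (by decide)
        · simp
      · exact absurd h3 (by decide)
      · interval_cases i'
        · simp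
        · exact absurd h3' (by decide)
        · simp
    · simp only [hpow]
      have e1 : ∑ u ∈ D2 K, u * ((u + u ^ 2 ^ i) ^ 2 ^ t * W (u + u ^ 2 ^ i)) =
          ∑ x ∈ T0 K k, x ^ 2 ^ t * W x := hone (fun x => x ^ 2 ^ t * W x)
      have e2 : ∑ u ∈ D2 K, m ^ (2 ^ t + 1) * (u + u ^ 2 ^ i) ^ (2 ^ t + 1) *
          W (u + u ^ 2 ^ i) = 0 := hzero (fun x => m ^ (2 ^ t + 1) * x ^ (2 ^ t + 1) * W x)
      rw [sum_add_distrib, sum_add_distrib, sum_add_distrib, ← mul_sum, ← mul_sum, ← mul_sum,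
        hmain, e1, e2]
      have hb : ∑ u ∈ D2 K, u ^ 2 ^ t * ((u + u ^ 2 ^ i) ^ 2 ^ 0 * W (u + u ^ 2 ^ i)) =
          if t + i' = k then 1 else 0 := by
        refine Eq.trans (b := ∑ x ∈ T0 K k, (fun _ => (1 : K)) x * (fun x => x ^ 2 ^ 0 * W x) x)
          ?_ ?_
        · refine hFib K k i (by omega) hK hi (fun u => u ^ 2 ^ t) (fun _ => 1)
            (fun x => x ^ 2 ^ 0 * W x) ?_
          intro u
          show u ^ 2 ^ t + (u + 1) ^ 2 ^ t = 1
          rw [pow_fr, one_pow]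
          linear_combination (u ^ 2 ^ t) * h22
        simp only [one_mul]
        rw [(hS 0 hkpos).2.1]
        have h1 : (0 = α ∨ 0 = i') ↔ t + i' = k := by
          rw [← hα0]
          have := hi'.1
          omega
        simp only [h1]
      have hc : ∑ x ∈ T0 K k, x ^ 2 ^ t * W x = if t = i' then 1 else 0 := by
        rw [(hS t htk).2.1]
        have h1 : (t = α ∨ t = i') ↔ t = i' := ⟨fun h => h.resolve_left hαt, Or.inr⟩
        simp only [h1]
      rw [hb, hc]
      split_ifs <;> ring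

end Pool.Agent.MP8bS
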