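import Pool.Agent.Lib.MP_8b575b_co.Spr.Spec

set_option autoImplicit false

namespace Pool.Agent.MP8bS

open Finset

open scoped Classical

private lemma Pr_dd {K : Type} [Field K] [CharP K 2] (a : K × K) : Dt a a = 0 := by
  unfold Dt
  rw [mul_comm a.2 a.1]
  exact CharTwo.add_self_eq_zero _

private lemma Pr_dsr {K : Type} [Field K] (a b : K × K) (y : K) : Dt a (y • b) = y * Dt a b := by
  simp only [Dt, Prod.smul_fst, Prod.smul_snd, smul_eq_mul]
  ring

private lemma Pr_dsl {K : Type} [Field K] (a b : K × K) (y : K) : Dt (y • a) b = y * Dt a b := by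
  simp only [Dt, Prod.smul_fst, Prod.smul_snd, smul_eq_mul]
  ring

private lemma Pr_lsl {K : Type} [Field K] (a v : K × K) (y : K) : Lf (y • a) v = y * Lf a v := by
  simp only [Lf, Prod.smul_fst, Prod.smul_snd, smul_eq_mul]
  ring

private lemma Pr_dt {K : Type} [Field K] [CharP K 2] (pt : Option K → K × K)
    (h0 : pt none = (0, 1)) (hs : ∀ m, pt (some m) = (1, m)) (p q : Option K)
    (h : Dt (pt p) (pt q) = 0) : p = q := by
  rcases p with _ | m <;> rcases q with _ | n
  · rfl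
  · exfalso
    rw [h0, hs] at h
    simp [Dt] at h
  · exfalso
    rw [h0, hs] at h
    simp [Dt] at h
  · rw [hs, hs] at h
    have h1 : n + m = 0 := by simpa [Dt] using h
    rw [CharTwo.add_eq_zero.mp h1]

private lemma Pr_mul {K : Type} [Field K] (pt : Option K → K × K)
    (h0 : pt none = (0, 1)) (hs : ∀ m, pt (some m) = (1, m)) (b : K × K) (hb : b ≠ 0) :
    ∃ (q : Option K) (y : K), y ≠ 0 ∧ b = y • pt q := by
  by_cases h : b.1 = 0
  · refine ⟨none, b.2, ?_, ?_⟩
    · intro h2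
      exact hb (Prod.ext h h2)
    · rw [h0]
      ext
      · simp [h]
      · simp
  · refine ⟨some (b.2 / b.1), b.1, h, ?_⟩
    rw [hs]
    ext
    · simp
    · simp only [Prod.smul_snd, smul_eq_mul]
      field_simp

theorem tPr : S_Sca → S_Mp → S_Pr := by
  intro hSca hMp K _ _ _ k hk hK pt h0 hs C hC U hU hns
  have hscat : ∀ v ∈ U, v ≠ 0 → ∀ c : K, c • v ∈ U → c = 0 ∨ c = 1 := by
    intro v hv hv0 c hcv
    by_contra hcon
    push Not at hcon
    obtain ⟨hc0, hc1⟩ := hcon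
    obtain ⟨W, hW, hWw⟩ := hC.2.2.2 v hv0
    have hne : U ≠ W := by
      rintro rfl
      exact hns ⟨v, hv0, hWw⟩
    have h1 := hC.2.1 U hU W hW hne v hv ((hWw v).mpr ⟨1, (one_smul K v).symm⟩) (c • v) hcv
      ((hWw _).mpr ⟨c, rfl⟩) hv0 (smul_ne_zero hc0 hv0)
    have h2 : (c - 1) • v = 0 := by
      rw [sub_smul, one_smul, ← h1, sub_self]
    rcases smul_eq_zero.mp h2 with h3 | h3
    · exact hc1 (sub_eq_zero.mp h3)
    · exact hv0 h3
  obtain ⟨a, b, i, hab, hi, hz⟩ := hSca K k hk hK U (hC.1 U hU) hscat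
  have ha0 : a ≠ 0 := by
    rintro rfl
    exact hab (by simp [Dt])
  have hb0 : b ≠ 0 := by
    rintro rfl
    exact hab (by simp [Dt])
  obtain ⟨p, x, hx, hax⟩ := Pr_mul pt h0 hs a ha0
  obtain ⟨q, y, hy, hby⟩ := Pr_mul pt h0 hs b hb0
  have hpq : p ≠ q := by
    rintro rfl
    apply hab
    rw [hax, hby, Pr_dsl, Pr_dsr, Pr_dd, mul_zero, mul_zero]
  have hpq' : Dt (pt p) (pt q) ≠ 0 := fun h => hpq (Pr_dt pt h0 hs p q h)
  have hqp' : Dt (pt q) (pt p) ≠ 0 := fun h => hpq (Pr_dt pt h0 hs q p h).symm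
  have hpt0 : ∀ p', pt p' ≠ 0 := by
    intro p'
    rcases p' with _ | m
    · rw [h0]
      intro h
      exact one_ne_zero (congrArg Prod.snd h)
    · rw [hs]
      intro h
      exact one_ne_zero (congrArg Prod.fst h)
  have hz' : ∀ v, v ∈ U ↔ Lf b v = (Lf a v) ^ 2 ^ i := by
    intro v
    rw [hz v, one_mul]
  refine ⟨p, q, hpq, ?_, ?_, ?_⟩
  · intro p'
    rw [hMp K k i (by omega) hK hi U a b 1 hab one_ne_zero hz (pt p') (hpt0 p')]
    constructor
    · rintro (h | h)
      · left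
        rw [hax, Pr_dsl] at h
        exact (Pr_dt pt h0 hs p p' ((mul_eq_zero.mp h).resolve_left hx)).symm
      · right
        rw [hby, Pr_dsl] at h
        exact (Pr_dt pt h0 hs q p' ((mul_eq_zero.mp h).resolve_left hy)).symm
    · rintro (rfl | rfl)
      · left
        rw [hax, Pr_dsl, Pr_dd, mul_zero]
      · right
        rw [hby, Pr_dsl, Pr_dd, mul_zero]
  · have hxp : x ^ 2 ^ i ≠ 0 := pow_ne_zero _ hx
    refine ⟨(x ^ 2 ^ i)⁻¹ • b, i, hi, ?_, ?_, ?_⟩
    · rw [Pr_dsr, hby, Pr_dsr]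
      exact mul_ne_zero (inv_ne_zero hxp) (mul_ne_zero hy hpq')
    · rw [Pr_dsr, hby, Pr_dsr, Pr_dd, mul_zero, mul_zero]
    · intro v
      rw [hz' v, Pr_lsl, one_mul, hax, Pr_lsl, mul_pow]
      constructor
      · intro h
        rw [h, ← mul_assoc, inv_mul_cancel₀ hxp, one_mul]
      · intro h
        rw [← h, ← mul_assoc, mul_inv_cancel₀ hxp, one_mul]
  · have hyp : y ^ 2 ^ (k - i) ≠ 0 := pow_ne_zero _ hy
    have hco : Nat.Coprime (k - i) k := by
      have h1 : Nat.Coprime i k := hi.2.2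
      rw [Nat.coprime_iff_gcd_eq_one] at h1 ⊢
      have h3 : Nat.gcd (k - i) k = Nat.gcd (k - i) i := by
        conv_lhs => rw [← Nat.sub_add_cancel hi.2.1.le]
        simp
      rw [h3]
      have h4 : Nat.gcd (k - i) i = Nat.gcd k i := by
        conv_rhs => rw [← Nat.sub_add_cancel hi.2.1.le]
        simp
      rw [h4, Nat.gcd_comm]
      exact h1
    have hcard : ∀ z : K, z ^ 2 ^ k = z := by
      intro z
      rw [← hK]
      exact FiniteField.pow_card z
    have hpow : 2 ^ i * 2 ^ (k - i) = 2 ^ k := by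
      rw [← pow_add]
      congr 1
      have := hi.2.1
      omega
    have hflip : ∀ v, v ∈ U ↔ Lf a v = (Lf b v) ^ 2 ^ (k - i) := by
      intro v
      rw [hz' v]
      constructor
      · intro h
        rw [h, ← pow_mul, hpow, hcard]
      · intro h
        rw [h, ← pow_mul, mul_comm, hpow, hcard]
    refine ⟨(y ^ 2 ^ (k - i))⁻¹ • a, k - i, ⟨by have := hi.2.1; omega, by have := hi.1; omega,
      hco⟩, ?_, ?_, ?_⟩
    · rw [Pr_dsr, hax, Pr_dsr]
      exact mul_ne_zero (inv_ne_zero hyp) (mul_ne_zero hx hqp')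
    · rw [Pr_dsr, hax, Pr_dsr, Pr_dd, mul_zero, mul_zero]
    · intro v
      rw [hflip v, Pr_lsl, one_mul, hby, Pr_lsl, mul_pow]
      constructor
      · intro h
        rw [h, ← mul_assoc, inv_mul_cancel₀ hyp, one_mul]
      · intro h
        rw [← h, ← mul_assoc, mul_inv_cancel₀ hyp, one_mul]

end Pool.Agent.MP8bS
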