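import Pool.Agent.Lib.MP_8b575b_co.Spr.Spec

/-!
# Spr/Rep: sums of powers of two modulo `2 ^ k - 1`
-/

set_option autoImplicit false

namespace Pool.Agent.MP8bS

open Finset

open scoped Classical

private theorem rep_two (k a : ℕ) (ha : a < k) :
    2 ^ ((a + 1) % k) ≡ 2 ^ a + 2 ^ a [MOD 2 ^ k - 1] := by
  have h1 : 2 ^ a + 2 ^ a = 2 ^ (a + 1) := by ring
  rw [h1]
  rcases Nat.lt_or_ge (a + 1) k with h | h
  · rw [Nat.mod_eq_of_lt h]
  · have h2 : a + 1 = k := by omega
    rw [h2, Nat.mod_self, pow_zero]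
    have h3 : 1 ≤ 2 ^ k := Nat.one_le_two_pow
    exact (Nat.modEq_iff_dvd' h3).2 (dvd_refl _)

private theorem rep_norm (k : ℕ) : ∀ (m : ℕ) (M : Multiset ℕ), M.card = m → 1 ≤ m →
    (∀ a ∈ M, a < k) → ∃ G : Finset ℕ, G ⊆ range k ∧ G.Nonempty ∧ G.card ≤ m ∧
      (∑ c ∈ G, 2 ^ c) ≡ (M.map fun a => 2 ^ a).sum [MOD 2 ^ k - 1] ∧ (G.card = m → M = G.val) := by
  intro m
  induction m with
  | zero =>
    intro M _ h
    omega
  | succ m ih =>
    intro M hM _ hlt
    by_cases hn : M.Nodup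
    · refine ⟨⟨M, hn⟩, ?_, ?_, ?_, ?_, fun _ => rfl⟩
      · intro a ha
        exact mem_range.2 (hlt a ha)
      · rw [← Finset.card_pos, Finset.card_mk, hM]
        exact Nat.succ_pos m
      · rw [Finset.card_mk, hM]
      · exact Nat.ModEq.refl _
    · have h1 : ∃ a t, M = a ::ₘ a ::ₘ t := by
        by_contra hcon
        apply hn
        rw [Multiset.nodup_iff_ne_cons_cons]
        intro a t h
        exact hcon ⟨a, t, h⟩
      obtain ⟨a, t, rfl⟩ := h1
      have ha : a < k := hlt a (Multiset.mem_cons_self _ _)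
      have ht : t.card + 1 = m := by
        rw [Multiset.card_cons, Multiset.card_cons] at hM
        omega
      obtain ⟨G, hG1, hG2, hG3, hG4, _⟩ := ih (((a + 1) % k) ::ₘ t)
        (by rw [Multiset.card_cons]; exact ht) (by omega) (by
          intro b hb
          rcases Multiset.mem_cons.1 hb with h | h
          · rw [h]
            exact Nat.mod_lt _ (by omega)
          · exact hlt b (Multiset.mem_cons_of_mem (Multiset.mem_cons_of_mem h)))
      refine ⟨G, hG1, hG2, by omega, ?_, fun h => by omega⟩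
      refine hG4.trans ?_
      rw [Multiset.map_cons, Multiset.sum_cons, Multiset.map_cons, Multiset.sum_cons,
        Multiset.map_cons, Multiset.sum_cons, ← add_assoc]
      exact (rep_two k a ha).add_right _

private theorem rep_lt (k : ℕ) (B : Finset ℕ) (h1 : B ⊆ range k) (h2 : B ≠ range k) :
    ∑ b ∈ B, 2 ^ b < 2 ^ k - 1 := by
  have h3 : ∑ b ∈ range k, 2 ^ b = 2 ^ k - 1 := by
    have := Nat.geomSum_eq (m := 2) (le_refl 2) k
    simpa using this
  rw [← h3]
  obtain ⟨c, hc1, hc2⟩ := Finset.exists_of_ssubset (Finset.ssubset_iff_subset_ne.2 ⟨h1, h2⟩)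
  exact Finset.sum_lt_sum_of_subset h1 hc1 hc2 (by positivity) (fun _ _ _ => Nat.zero_le _)

theorem tRep : S_Rep := by
  intro k B g hB hne hB' hg hmod
  obtain ⟨G, hG1, hG2, hG3, hG4, hG5⟩ := rep_norm k B.card (B.val.map g)
    (by rw [Multiset.card_map]; rfl) (Finset.card_pos.2 hne) (by
      intro a ha
      obtain ⟨b, hb, rfl⟩ := Multiset.mem_map.1 ha
      exact hg b hb)
  have h1 : ((B.val.map g).map fun a => 2 ^ a).sum = ∑ b ∈ B, 2 ^ g b := by
    rw [Multiset.map_map]
    rfl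
  rw [h1] at hG4
  have hBk : B.card < k := by
    have h2 := Finset.card_lt_card (Finset.ssubset_iff_subset_ne.2 ⟨hB, hB'⟩)
    rwa [card_range] at h2
  have hGk : G ≠ range k := by
    intro h
    rw [h, card_range] at hG3
    omega
  have h2 : ∑ c ∈ G, 2 ^ c = ∑ b ∈ B, 2 ^ b :=
    (hG4.trans hmod).eq_of_lt_of_lt (rep_lt k G hG1 hGk) (rep_lt k B hB hB')
  have h3 : G = B := Finset.geomSum_injective (le_refl 2) h2
  have h4 := hG5 (by rw [h3])
  rw [h3] at h4
  unfold Finset.image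
  rw [h4]
  exact Finset.val_toFinset B

end Pool.Agent.MP8bS
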