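import Pool.Agent.Lib.MP_8b575b_co.Spr.Spec

set_option autoImplicit false

namespace Pool.Agent.MP8bS

open Finset

open scoped Classical

/-- Two functionals with non-zero determinant determine a vector. -/
private theorem sca_ext {K : Type} [Field K] [CharP K 2] (a b v w : K × K) (hab : Dt a b ≠ 0)
    (h1 : Lf a v = Lf a w) (h2 : Lf b v = Lf b w) : v = w := by
  unfold Lf at h1 h2
  unfold Dt at hab
  have h22 : (2 : K) = 0 := CharTwo.two_eq_zero
  have e1 : (a.1 * b.2 + a.2 * b.1) * (v.1 - w.1) = 0 := by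
    linear_combination b.2 * h1 + a.2 * h2 - (a.2 * b.2) * (v.2 - w.2) * h22
  have e2 : (a.1 * b.2 + a.2 * b.1) * (v.2 - w.2) = 0 := by
    linear_combination a.1 * h2 + b.1 * h1 - (a.1 * b.1) * (v.1 - w.1) * h22
  have f1 := (mul_eq_zero.1 e1).resolve_left hab
  have f2 := (mul_eq_zero.1 e2).resolve_left hab
  exact Prod.ext (sub_eq_zero.1 f1) (sub_eq_zero.1 f2)

/-- The points of the projective line. -/
private def scaPt {K : Type} [Field K] : Option K → K × K
  | none => (0, 1)
  | some m => (1, m)

private theorem sca_pt_ne {K : Type} [Field K] [CharP K 2] (p q : Option K) (h : p ≠ q) :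
    Dt (scaPt p) (scaPt q) ≠ 0 := by
  cases p with
  | none =>
    cases q with
    | none => exact absurd rfl h
    | some m => simp [Dt, scaPt]
  | some m =>
    cases q with
    | none => simp [Dt, scaPt]
    | some m' =>
      simp only [Dt, scaPt, one_mul, mul_one]
      intro h0
      apply h
      have h1 : m' = m := by
        have := CharTwo.add_eq_zero.1 h0
        exact this
      rw [h1]

/-- There are two missing points. -/
private theorem sca_missing {K : Type} [Field K] [Fintype K] [CharP K 2] (k : ℕ)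
    (hK : Fintype.card K = 2 ^ k) (U : AddSubgroup (K × K)) (hU : Nat.card U = 2 ^ k)
    (hs : ∀ v ∈ U, v ≠ 0 → ∀ c : K, c • v ∈ U → c = 0 ∨ c = 1) :
    ∃ p q : Option K, p ≠ q ∧ (∀ v ∈ U, Lf (scaPt p) v = 0 → v = 0) ∧
      ∀ v ∈ U, Lf (scaPt q) v = 0 → v = 0 := by
  let th : K × K → Option K := fun v => if v.2 = 0 then none else some (-v.1 / v.2)
  have hth : ∀ (v : K × K) (p : Option K), v ≠ 0 → Lf (scaPt p) v = 0 → th v = p := by
    intro v p hv hp
    cases p with
    | none =>
      have h2 : v.2 = 0 := by simpa [Lf, scaPt] using hp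
      simp [th, h2]
    | some m =>
      have h2 : v.1 + m * v.2 = 0 := by simpa [Lf, scaPt] using hp
      have h3 : v.2 ≠ 0 := by
        intro h3
        apply hv
        rw [h3, mul_zero, add_zero] at h2
        exact Prod.ext h2 h3
      simp only [th, if_neg h3]
      congr 1
      rw [div_eq_iff h3]
      linear_combination -h2
  have hprop : ∀ v w : K × K, v ≠ 0 → w ≠ 0 → th v = th w → ∃ c : K, c ≠ 0 ∧ w = c • v := by
    intro v w hv hw h
    by_cases h1 : v.2 = 0
    · by_cases h2 : w.2 = 0
      · have hv1 : v.1 ≠ 0 := fun h3 => hv (Prod.ext h3 h1)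
        have hw1 : w.1 ≠ 0 := fun h3 => hw (Prod.ext h3 h2)
        refine ⟨w.1 / v.1, div_ne_zero hw1 hv1, ?_⟩
        ext
        · simp [div_mul_cancel₀ _ hv1]
        · simp [h1, h2]
      · simp [th, h1, h2] at h
    · by_cases h2 : w.2 = 0
      · simp [th, h1, h2] at h
      · simp only [th, if_neg h1, if_neg h2, Option.some.injEq] at h
        refine ⟨w.2 / v.2, div_ne_zero h2 h1, ?_⟩
        rw [div_eq_div_iff h1 h2] at h
        ext
        · simp only [Prod.smul_fst, smul_eq_mul]
          rw [div_mul_eq_mul_div, eq_div_iff h1]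
          linear_combination h
        · simp [div_mul_cancel₀ _ h1]
  let S : Finset (K × K) := univ.filter fun v => v ∈ U ∧ v ≠ 0
  have hS : S.card = 2 ^ k - 1 := by
    have h1 : (univ.filter fun v : K × K => v ∈ U).card = 2 ^ k := by
      rw [← hU, Nat.card_eq_fintype_card, Fintype.card_subtype]
    have h2 : S = (univ.filter fun v : K × K => v ∈ U).erase 0 := by
      ext v
      simp only [S, mem_filter, mem_univ, true_and, mem_erase]
      tauto
    rw [h2, card_erase_of_mem, h1]
    simp [U.zero_mem]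
  have hinj : Set.InjOn th S := by
    intro v hv w hw h
    have hv' : v ∈ U ∧ v ≠ 0 := by simpa [S] using hv
    have hw' : w ∈ U ∧ w ≠ 0 := by simpa [S] using hw
    obtain ⟨c, hc, hcw⟩ := hprop v w hv'.2 hw'.2 h
    rcases hs v hv'.1 hv'.2 c (hcw ▸ hw'.1) with h1 | h1
    · exact absurd h1 hc
    · rw [hcw, h1, one_smul]
  have himg : (S.image th).card = 2 ^ k - 1 := by
    rw [card_image_of_injOn hinj, hS]
  have hcompl : (S.image th)ᶜ.card = 2 := by
    rw [card_compl, himg, Fintype.card_option, hK]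
    have : 1 ≤ 2 ^ k := Nat.one_le_two_pow
    omega
  obtain ⟨p, q, hpq, hpqs⟩ := card_eq_two.1 hcompl
  have hmiss : ∀ p : Option K, p ∈ (S.image th)ᶜ → ∀ v ∈ U, Lf (scaPt p) v = 0 → v = 0 := by
    intro p hp v hv h
    by_contra hv0
    rw [mem_compl] at hp
    apply hp
    rw [mem_image]
    exact ⟨v, by simp [S, hv, hv0], hth v p hv0 h⟩
  refine ⟨p, q, hpq, hmiss p ?_, hmiss q ?_⟩
  · rw [hpqs]; simp
  · rw [hpqs]; simp

private theorem sca_Lf_add {K : Type} [Field K] (a v w : K × K) :
    Lf a (v + w) = Lf a v + Lf a w := by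
  simp only [Lf, Prod.fst_add, Prod.snd_add]
  ring

private theorem sca_Lf_smul {K : Type} [Field K] (a v : K × K) (c : K) :
    Lf a (c • v) = c * Lf a v := by
  simp only [Lf, Prod.smul_fst, Prod.smul_snd, smul_eq_mul]
  ring

private theorem sca_Lf_smul' {K : Type} [Field K] (a v : K × K) (c : K) :
    Lf (c • a) v = c * Lf a v := by
  simp only [Lf, Prod.smul_fst, Prod.smul_snd, smul_eq_mul]
  ring

theorem tSca (hPay : S_Pay) : S_Sca := by
  intro K _ _ _ k hk hK U hU hs
  obtain ⟨p, q, hpq, hp, hq⟩ := sca_missing k hK U hU hs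
  have hD := sca_pt_ne p q hpq
  set a := scaPt p with ha
  set b' := scaPt q with hb'
  let e : U → K := fun v => Lf a (v : K × K)
  have hei : Function.Injective e := by
    intro v w h
    have h1 : Lf a ((v : K × K) + (w : K × K)) = 0 := by
      rw [sca_Lf_add, show Lf a (v : K × K) = Lf a (w : K × K) from h]
      exact CharTwo.add_self_eq_zero _
    have h2 := hp _ (U.add_mem v.2 w.2) h1
    apply Subtype.ext
    have h3 : (w : K × K) + (w : K × K) = 0 := by
      ext
      · exact CharTwo.add_self_eq_zero _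
      · exact CharTwo.add_self_eq_zero _
    exact add_right_cancel (h2.trans h3.symm)
  have heb : Function.Bijective e := by
    rw [Fintype.bijective_iff_injective_and_card]
    refine ⟨hei, ?_⟩
    rw [← Nat.card_eq_fintype_card (α := U), hU, hK]
  let g : K → U := fun x => (Equiv.ofBijective e heb).symm x
  have hg : ∀ x, Lf a (g x : K × K) = x := fun x => (Equiv.ofBijective e heb).apply_symm_apply x
  have hg' : ∀ v ∈ U, (g (Lf a v) : K × K) = v := by
    intro v hv
    have := (Equiv.ofBijective e heb).symm_apply_apply ⟨v, hv⟩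
    exact congrArg Subtype.val this
  set f : K → K := fun x => Lf b' (g x : K × K) with hf
  have hfadd : ∀ x y, f (x + y) = f x + f y := by
    intro x y
    have h1 : g (x + y) = g x + g y := by
      apply hei
      show Lf a (g (x + y) : K × K) = Lf a ((g x + g y : U) : K × K)
      rw [hg, AddSubgroup.coe_add, sca_Lf_add, hg, hg]
    simp only [hf, h1, AddSubgroup.coe_add, sca_Lf_add]
  have hfU : ∀ v, v ∈ U ↔ Lf b' v = f (Lf a v) := by
    intro v
    constructor
    · intro hv
      simp only [hf, hg' v hv]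
    · intro h
      have h1 : v = (g (Lf a v) : K × K) := sca_ext a b' _ _ hD (hg _).symm h
      rw [h1]
      exact (g (Lf a v)).2
  have hLf0 : Lf a (0 : K × K) = 0 := by simp [Lf]
  have hf0 : ∀ x, x ≠ 0 → f x ≠ 0 := by
    intro x hx h
    have h1 : (g x : K × K) = 0 := hq _ (g x).2 h
    apply hx
    rw [← hg x, h1, hLf0]
  have hfi : ∀ x y, x ≠ 0 → y ≠ 0 → f x / x = f y / y → x = y := by
    intro x y hx hy h
    have h1 : (g y : K × K) = (y / x) • (g x : K × K) := by
      apply sca_ext a b' _ _ hD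
      · rw [sca_Lf_smul, hg, hg, div_mul_cancel₀ _ hx]
      · rw [sca_Lf_smul]
        show f y = y / x * f x
        rw [div_eq_div_iff hx hy] at h
        rw [div_mul_eq_mul_div, eq_div_iff hx]
        linear_combination -h
    have h2 : (g x : K × K) ≠ 0 := by
      intro h2
      apply hx
      rw [← hg x, h2, hLf0]
    rcases hs _ (g x).2 h2 (y / x) (h1 ▸ (g y).2) with h3 | h3
    · exact absurd h3 (div_ne_zero hy hx)
    · exact ((div_eq_one_iff_eq hx).1 h3).symm
  obtain ⟨i, c, hi, hc, hfc⟩ := hPay K k hk hK f hfadd hf0 hfi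
  refine ⟨a, c⁻¹ • b', i, ?_, hi, ?_⟩
  · have h1 : Dt a (c⁻¹ • b') = c⁻¹ * Dt a b' := by
      simp only [Dt, Prod.smul_fst, Prod.smul_snd, smul_eq_mul]
      ring
    rw [h1]
    exact mul_ne_zero (inv_ne_zero hc) hD
  · intro v
    rw [hfU v, hfc, sca_Lf_smul', one_mul, inv_mul_eq_iff_eq_mul₀ hc]

end Pool.Agent.MP8bS
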