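import Mathlib

/-!
# MP_8b575b_co, q = 2: codes containing the Desarguesian spread and invariant under the scalars

THEOREM. Let `k ≥ 4`, `K` the field with `N = 2 ^ k` elements, `V = K × K` (dimension `2 k` over the field with two
elements). A set `C` of `k`-dimensional subspaces (over the field with two elements) of `V`, pairwise meeting in
dimension at most one, which contains all `K v` (`v ≠ 0`) and is invariant under the multiplications by the elements of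
`K \ {0}`, has at most `2 ^ (2 k) + 1` elements.

The proofs are complete in the docstrings; every module is independent (used statements are hypotheses):
file `Spr/<Name>.lean` (import this file only), namespace `Pool.Agent.MP8bS`, `theorem t<Name> : S_X → .. → S_<Name>`
(hypotheses in the order of the docstring), all other declarations `private`.
Throughout `K` has characteristic two, so `-x = x`, `(x + y) ^ 2 ^ i = x ^ 2 ^ i + y ^ 2 ^ i`, and `x ^ 2 ^ k = x`.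
`Un k i`: `i` is a unit modulo `k`. Fact (U), used often: if `Un k i` then `x ^ 2 ^ i = x` only for `x = 0, 1`, and
`x ↦ x ^ (2 ^ i - 1)` is a bijection of `K \ {0}` (`gcd (2 ^ i - 1) (2 ^ k - 1) = 2 ^ gcd i k - 1 = 1`,
`Nat.pow_sub_one_gcd_pow_sub_one` or similar; an injective power map on the units).
-/

set_option autoImplicit false

namespace Pool.Agent.MP8bS

open Finset

open scoped Classical

/-- `i` is a unit modulo `k`, `0 < i < k`. -/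
def Un (k i : ℕ) : Prop := 0 < i ∧ i < k ∧ Nat.Coprime i k

/-- The vanishing of the principal minors (permanents) of a twisted circulant matrix. -/
def Per {K : Type} [Field K] (k : ℕ) (a : ℕ → K) : Prop :=
  ∀ B : Finset ℕ, B ⊆ range k → B.Nonempty → B ≠ range k →
    ∑ σ : Equiv.Perm {x // x ∈ B}, ∏ b : {x // x ∈ B},
      a (((σ b : ℕ) + (k - (b : ℕ))) % k) ^ 2 ^ (b : ℕ) = 0

/-- The non-zero elements of absolute trace zero. -/
noncomputable def T0 (K : Type) [Field K] [Fintype K] (k : ℕ) : Finset K :=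
  univ.filter fun x => x ≠ 0 ∧ ∑ j ∈ range k, x ^ 2 ^ j = 0

/-- The elements different from `0` and `1`. -/
noncomputable def D2 (K : Type) [Field K] [Fintype K] : Finset K :=
  univ.filter fun u => u ≠ 0 ∧ u ≠ 1

/-- The function `(r u + m u ^ s) / (u + u ^ s) ^ s'`, `s = 2 ^ i`, `s' = 2 ^ i'`. -/
noncomputable def ph {K : Type} [Field K] (i i' : ℕ) (r m u : K) : K :=
  (r * u + m * u ^ 2 ^ i) / (u + u ^ 2 ^ i) ^ 2 ^ i'

/-- Linear functionals of `K × K`. -/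
def Lf {K : Type} [Field K] (a v : K × K) : K := a.1 * v.1 + a.2 * v.2

/-- The determinant (characteristic two). -/
def Dt {K : Type} [Field K] (a b : K × K) : K := a.1 * b.2 + a.2 * b.1

/-- `v ∈ U ↔ L_b v = l (L_a v) ^ (2 ^ i)`. -/
def Zs {K : Type} [Field K] (U : AddSubgroup (K × K)) (a b : K × K) (i : ℕ) (l : K) : Prop :=
  ∀ v, v ∈ U ↔ Lf b v = l * (Lf a v) ^ 2 ^ i

/-- `U` is a member of the Desarguesian spread. -/
def Spr {K : Type} [Field K] (U : AddSubgroup (K × K)) : Prop :=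
  ∃ v : K × K, v ≠ 0 ∧ ∀ w, w ∈ U ↔ ∃ c : K, w = c • v

/-- The codes of the theorem. -/
def Cd {K : Type} [Field K] [Fintype K] (k : ℕ) (C : Finset (AddSubgroup (K × K))) : Prop :=
  (∀ U ∈ C, Nat.card U = 2 ^ k) ∧
  (∀ U ∈ C, ∀ W ∈ C, U ≠ W → ∀ v ∈ U, v ∈ W → ∀ w ∈ U, w ∈ W → v ≠ 0 → w ≠ 0 → v = w) ∧
  (∀ U ∈ C, ∀ c : K, c ≠ 0 → ∃ W ∈ C, ∀ v, v ∈ W ↔ c • v ∈ U) ∧
  (∀ v : K × K, v ≠ 0 → ∃ W ∈ C, ∀ w, w ∈ W ↔ ∃ c : K, w = c • v)

/-- **Lin** (100 lines). Additive functions are linearized polynomials.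

Proof. Counting. `(a₀, .., a_(k-1)) ↦ (x ↦ ∑ aᵢ x ^ 2 ^ i)` from `Fin k → K` to the additive functions is injective: it
is additive, and a polynomial `∑ aᵢ X ^ 2 ^ i` which is not zero has degree at most `2 ^ (k - 1) < 2 ^ k = #K`, so it does
not vanish on `K`. An additive function is `ZMod 2`-linear, so it is determined by its values on a basis of `K` over
`ZMod 2`, which has `k` elements (`#K = 2 ^ k`): there are at most `#K ^ k` additive functions. So the injection is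
a bijection. -/
def S_Lin : Prop :=
  ∀ (K : Type) [Field K] [Fintype K] [CharP K 2] (k : ℕ), 1 ≤ k → Fintype.card K = 2 ^ k →
    ∀ f : K → K, (∀ x y, f (x + y) = f x + f y) →
      ∃ a : ℕ → K, ∀ x, f x = ∑ i ∈ range k, a i * x ^ 2 ^ i

/-- **Rep** (100 lines). Sums of powers of two modulo `2 ^ k - 1`.

Proof. (1) For every multiset (list) of `m ≥ 1` numbers `< k` there is a set `G ⊆ range k`, `1 ≤ #G ≤ m`, with
`∑_{c ∈ G} 2 ^ c ≡` the sum of the powers, and `#G < m` if the multiset has a repetition: induction on `m`; if it has no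
repetition take the set; otherwise replace `c, c` by `(c + 1) % k` (`2 ^ c + 2 ^ c = 2 ^ (c + 1)`, `2 ^ k ≡ 1`). (2) Apply it to
the numbers `g b`, `b ∈ B`: `#G ≤ #B < k`, so both `∑_{c ∈ G} 2 ^ c` and `∑_{b ∈ B} 2 ^ b` are at least `1` and less than
`2 ^ k - 1 = ∑_{c < k} 2 ^ c` (proper subsets), they are congruent, so they are equal, and `G = B`
(`Finset.geomSum_injective`: a finite set is determined by its sum of powers of two). So `#G = #B`, `g` is injective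
on `B`, and in this case `G` is the image (in the case without repetition `G` is the set itself). -/
def S_Rep : Prop :=
  ∀ (k : ℕ) (B : Finset ℕ) (g : ℕ → ℕ), B ⊆ range k → B.Nonempty → B ≠ range k →
    (∀ b ∈ B, g b < k) → (∑ b ∈ B, 2 ^ g b) ≡ (∑ b ∈ B, 2 ^ b) [MOD 2 ^ k - 1] → B.image g = B

/-- **Pet** (150 lines, uses `S_Rep`). Payne's power sums.

Proof. Let `j = ∑_{b ∈ B} 2 ^ b`; `0 < j < 2 ^ k - 1`. `x ↦ f x / x` is an injective map of `K \ {0}` to itself, hence a bijection,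
so `∑_{x ≠ 0} (f x / x) ^ j = ∑_{y ≠ 0} y ^ j = 0` (`FiniteField.sum_pow_units` or `sum_pow_lt_card_sub_one`). For `b < k`
`(f x) ^ 2 ^ b = ∑_{i < k} aᵢ ^ 2 ^ b x ^ 2 ^ (i + b) = ∑_{c < k} a_((c + (k - b)) % k) ^ 2 ^ b x ^ 2 ^ c` (substitute
`c = (i + b) % k`; `x ^ 2 ^ k = x`). So `(f x) ^ j = ∏_{b ∈ B} (f x) ^ 2 ^ b = ∑_{g : B → range k} A_g x ^ (∑ 2 ^ g b)`,
`A_g = ∏_b a_((g b + (k - b)) % k) ^ 2 ^ b` (`Finset.prod_univ_sum`). Divide by `x ^ j` and sum over `x ≠ 0`: the sum of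
`x ^ (∑ 2 ^ g b - j)` is `-1 = 1` if `∑ 2 ^ g b ≡ j` modulo `2 ^ k - 1` and `0` otherwise; by `S_Rep` in the first case `g` is
a permutation of `B` (conversely permutations give equality). -/
def S_Pet : Prop :=
  ∀ (K : Type) [Field K] [Fintype K] [CharP K 2] (k : ℕ), 1 ≤ k → Fintype.card K = 2 ^ k →
    ∀ (f : K → K) (a : ℕ → K), (∀ x, f x = ∑ i ∈ range k, a i * x ^ 2 ^ i) →
    (∀ x, x ≠ 0 → f x ≠ 0) → (∀ x y, x ≠ 0 → y ≠ 0 → f x / x = f y / y → x = y) → Per k a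

/-- **Wal** (150 lines). No short zero-sum sequence of indices of non-zero coefficients.

Proof. Suppose not, and let `m` be minimal, `t₀, .., t_(m-1)` a sequence with sum divisible by `k` and `a (t_j) ≠ 0`,
`1 ≤ m < k`. Let `b_j = (t₀ + .. + t_(j-1)) % k` for `0 ≤ j < m` (and `b_m = b₀ = 0`). (i) The `b_j` are distinct: if `b_j = b_l`,
`j < l < m`, then `t_j, .., t_(l-1)` is a shorter sequence with sum divisible by `k`. (ii) If `j, l < m` and `l ≠ j + 1`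
modulo `m` then `a ((b_l - b_j) mod k) = 0`: otherwise `(b_l - b_j) mod k` followed by `t_l, t_(l+1), .., t_(j-1)` (cyclically
from `l` to `j`; empty for `l = j`) is a sequence with sum divisible by `k` of length `1 + ((j - l) mod m) < m` (for
`l = j` and `m ≥ 2`: length one; for `m = 1` there is nothing to prove). (iii) `B = {b_j}` is not empty and has `m < k`
elements. In the sum of `Per` for `B` the permutation `σ₀ : b_j ↦ b_(j+1 mod m)` gives `∏_j a (t_j) ^ 2 ^ b_j ≠ 0`, every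
other permutation `σ` has `σ (b_j) = b_l` with `l ≠ j + 1` modulo `m` for some `j`, and gives zero by (ii) (the exponents
`2 ^ b` are positive). So the sum is not zero: contradiction. -/
def S_Wal : Prop :=
  ∀ (K : Type) [Field K] (k : ℕ) (a : ℕ → K), Per k a → ∀ m : ℕ, 1 ≤ m → m < k →
    ∀ t : ℕ → ℕ, (∀ j < m, t j < k) → k ∣ ∑ j ∈ range m, t j → ∃ j < m, a (t j) = 0

/-- **Uni** (80 lines). A single unit.

Proof. Let `a i ≠ 0`, `i < k`. `d = k / gcd i k` copies of `i` have sum divisible by `k`; if `gcd i k > 1` (in particular if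
`i = 0`) then `1 ≤ d < k`: contradiction. So `i` is a unit. Let `j < k`, `j ≠ i`, `a j ≠ 0`; then `j` is a unit, too. Let
`μ < k` with `μ i ≡ j`; `μ ≠ 0` (`j ≠ 0`, `k ≥ 3`) and `μ ≠ 1`. The sequence `j, i, .., i` (`k - μ` times `i`) has the sum
`j + (k - μ) i ≡ 0` and the length `k - μ + 1 < k`: contradiction. -/
def S_Uni : Prop :=
  ∀ (K : Type) [Field K] (k : ℕ) (a : ℕ → K), 3 ≤ k →
    (∀ m : ℕ, 1 ≤ m → m < k → ∀ t : ℕ → ℕ, (∀ j < m, t j < k) →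
      k ∣ ∑ j ∈ range m, t j → ∃ j < m, a (t j) = 0) →
    (∃ i < k, a i ≠ 0) → ∃ i, Un k i ∧ a i ≠ 0 ∧ ∀ j < k, j ≠ i → a j = 0

/-- **Pay** (40 lines, uses `S_Lin`, `S_Pet`, `S_Wal`, `S_Uni`). Payne's theorem. -/
def S_Pay : Prop :=
  ∀ (K : Type) [Field K] [Fintype K] [CharP K 2] (k : ℕ), 3 ≤ k → Fintype.card K = 2 ^ k →
    ∀ f : K → K, (∀ x y, f (x + y) = f x + f y) → (∀ x, x ≠ 0 → f x ≠ 0) →
    (∀ x y, x ≠ 0 → y ≠ 0 → f x / x = f y / y → x = y) →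
    ∃ (i : ℕ) (c : K), Un k i ∧ c ≠ 0 ∧ ∀ x, f x = c * x ^ 2 ^ i

/-- **Sum** (150 lines). Power sums over the elements of trace zero.

Proof. Let `tr x = ∑_{j < k} x ^ 2 ^ j`; `(tr x) ^ 2 = tr x` (`x ^ 2 ^ k = x`), so `tr x` is `0` or `1`, and the indicator of
`tr x = 0` is `1 + tr x`. So for an integer `z` (`zpow`)
`∑_{x ∈ T0} x ^ z = ∑_{x ≠ 0} x ^ z + ∑_{j < k} ∑_{x ≠ 0} x ^ (z + 2 ^ j)`, and `∑_{x ≠ 0} x ^ w` is `1` if `2 ^ k - 1` divides `w`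
and `0` otherwise (`FiniteField.sum_pow_units`; `2 ^ k - 1 = 1` in `K`). Arithmetic (`k ≥ 3`, all exponents `< k`,
`α ≠ β`): `2 ^ α + 2 ^ β` is between `3` and `2 ^ k - 2`, and `2 ^ γ + 2 ^ δ ≤ 2 ^ k`; so modulo `2 ^ k - 1` the number
`2 ^ α + 2 ^ β` is congruent neither to `0` nor to a power `2 ^ γ`, and is congruent to `2 ^ γ + 2 ^ δ` only if it is
equal, i.e. only if `{γ, δ} = {α, β}`; `2 ^ α` is not congruent to `0`, and to `2 ^ γ` only if `α = γ`. (1) `z = - (2 ^ α + 2 ^ β)`: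
all terms vanish. (2) `z = 2 ^ γ - 2 ^ α - 2 ^ β`, `γ ≠ α, β`: all terms vanish; for `γ = α` it is (3) for `β`. (3) `z = - 2 ^ α`:
exactly the term `j = α` is `1`. -/
def S_Sum : Prop :=
  ∀ (K : Type) [Field K] [Fintype K] [CharP K 2] (k : ℕ), 3 ≤ k → Fintype.card K = 2 ^ k →
    ∀ α β γ : ℕ, α < k → β < k → γ < k → α ≠ β →
      ∑ x ∈ T0 K k, (x ^ 2 ^ α * x ^ 2 ^ β)⁻¹ = 0 ∧
      ∑ x ∈ T0 K k, x ^ 2 ^ γ * (x ^ 2 ^ α * x ^ 2 ^ β)⁻¹ = (if γ = α ∨ γ = β then 1 else 0) ∧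
      ∑ x ∈ T0 K k, (x ^ 2 ^ α)⁻¹ = 1

/-- **Fib** (100 lines). The map `u ↦ u + u ^ s` is two-to-one onto the elements of trace zero.

Proof. `π u = u + u ^ 2 ^ i` is additive, its kernel is `{0, 1}` (fact (U)), so it is two-to-one on its image, which has
`2 ^ (k - 1)` elements, with fibres `{u, u + 1}`. The image is contained in the set of the elements of trace zero
(`tr (u ^ 2 ^ i) = tr u`), which has at most `2 ^ (k - 1)` elements (the roots of `∑_{j < k} X ^ 2 ^ j`); so the two sets are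
equal. `π u = 0` iff `u ∈ {0, 1}`, so `D2` is the union of the fibres over `T0`. Sum over the fibres
(`Finset.sum_fiberwise_of_maps_to`): over the fibre `{u, u + 1}` of `x` the terms give `(g u + g (u + 1)) h x = G x h x`. -/
def S_Fib : Prop :=
  ∀ (K : Type) [Field K] [Fintype K] [CharP K 2] (k i : ℕ), 1 ≤ k → Fintype.card K = 2 ^ k →
    Un k i → ∀ g G h : K → K, (∀ u, g u + g (u + 1) = G (u + u ^ 2 ^ i)) →
    ∑ u ∈ D2 K, g u * h (u + u ^ 2 ^ i) = ∑ x ∈ T0 K k, G x * h x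

/-- **Pow** (180 lines, uses `S_Sum`, `S_Fib`). The power sums of `ph`.

Proof. `n = r + m`, `x = u + u ^ 2 ^ i` (`≠ 0` on `D2`), `w = (x ^ 2 ^ i')⁻¹`; `r u + m u ^ 2 ^ i = n u + m x`, so
`ph = n u w + m x w`. First sum: `n ∑ u w + m ∑ x w`; by `S_Fib` with `g u = u`, `G = 1` the first is `∑_{T0} w = 1`
(`S_Sum`), with `g = 1`, `G = 0` the second is `0`. Exponent `2 ^ t + 1`: `ph ^ (2 ^ t + 1) =
(n ^ 2 ^ t u ^ 2 ^ t + m ^ 2 ^ t x ^ 2 ^ t) (n u + m x) W`, `W = w ^ 2 ^ t w = (x ^ 2 ^ α * x ^ 2 ^ i')⁻¹`, `α = (i' + t) % k ≠ i'`.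
The four sums: (a) `n ^ (2 ^ t + 1) ∑ u ^ (2 ^ t + 1) W`. Let `a < k` with `i a ≡ t` modulo `k` (`a = 2` if `k = 4`, `t = 2`).
`g u = u ^ (2 ^ t + 1)`, `g u + g (u + 1) = u ^ 2 ^ t + u + 1 = 1 + ∑_{j < a} x ^ 2 ^ (i j)` (telescoping:
`∑_{j < a} (u + u ^ 2 ^ i) ^ 2 ^ (i j) = u + u ^ 2 ^ (i a)`). By `S_Sum` the sum is
`c = ∑_{j < a} [(i j) % k = α or (i j) % k = i']` (the `1` gives `0`), a number of `K` from the prime field, so `0` or `1`.
For `k = 4`, `t = 2`: `j = 0` gives `0` (`i'`, `α` are odd), `j = 1` gives `1` (`{i', α} = {1, 3}`), so `c = 1`.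
(b) `n ^ 2 ^ t m ∑ u ^ 2 ^ t x W`: `G = 1` times `x`: `[0 = α or 0 = i'] = [t + i' = k]`. (c) `m ^ 2 ^ t n ∑ x ^ 2 ^ t u W`:
`[t = α or t = i'] = [t = i']`. (d) `m ^ (2 ^ t + 1) ∑ x ^ (2 ^ t + 1) W = 0` (`g = 1`, `G = 0`). -/
def S_Pow : Prop :=
  ∀ (K : Type) [Field K] [Fintype K] [CharP K 2] (k i i' : ℕ), 4 ≤ k → Fintype.card K = 2 ^ k →
    Un k i → Un k i' → ∀ r m : K,
    ∑ u ∈ D2 K, ph i i' r m u = r + m ∧
    ∀ t : ℕ, 1 ≤ t → t < k → ∃ c : K, (c = 0 ∨ c = 1) ∧ (k = 4 → t = 2 → c = 1) ∧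
      ∑ u ∈ D2 K, ph i i' r m u ^ (2 ^ t + 1) = (r + m) ^ (2 ^ t + 1) * c +
        (if t + i' = k then (r + m) ^ 2 ^ t * m else 0) + (if t = i' then m ^ 2 ^ t * (r + m) else 0)

/-- **Mis** (100 lines). The two missing values.

Proof. On `D2` the denominator of `ph` is not zero (fact (U)). `ph u = 0` iff `u ^ (2 ^ i - 1) = r / m`; by (U) this has
exactly one solution `u ≠ 0`, and `u ≠ 1` since `r ≠ m`. So `D' = {u ∈ D2 | ph u ≠ 0}` has `2 ^ k - 3` elements, `ph` is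
injective on it, and `K \ {0}` has exactly two elements `m₁, m₂` outside of `ph (D')`. For `1 ≤ e < 2 ^ k - 1`:
`∑_{D2} ph ^ e = ∑_{D'} ph ^ e = ∑_{y ≠ 0} y ^ e - m₁ ^ e - m₂ ^ e = m₁ ^ e + m₂ ^ e` (`FiniteField.sum_pow_lt_card_sub_one`). -/
def S_Mis : Prop :=
  ∀ (K : Type) [Field K] [Fintype K] [CharP K 2] (k i i' : ℕ), 3 ≤ k → Fintype.card K = 2 ^ k →
    Un k i → Un k i' → ∀ r m : K, r ≠ 0 → m ≠ 0 → r ≠ m →
    (∀ u ∈ D2 K, ∀ v ∈ D2 K, ph i i' r m u ≠ 0 → ph i i' r m u = ph i i' r m v → u = v) →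
    ∃ m₁ m₂ : K, m₁ ≠ 0 ∧ m₂ ≠ 0 ∧ ∀ e : ℕ, 1 ≤ e → e < 2 ^ k - 1 →
      ∑ u ∈ D2 K, ph i i' r m u ^ e = m₁ ^ e + m₂ ^ e

/-- **Alg** (120 lines). The contradiction.

Proof. `M = m₁ / n`, so `m₂ / n = M + 1`, `M ≠ 0, 1`; `ρ = m / n ≠ 0, 1`. Dividing by `n ^ (2 ^ t + 1)`:
(*) `M ^ 2 ^ t + M + 1 = c + [t + i' = k] ρ + [t = i'] ρ ^ 2 ^ t`. If `t ≠ i'`, `t + i' ≠ k` then `M ^ 2 ^ t + M` is `0` or `1`.
Claim: `M ^ 2 + M` is `0` or `1`. If `i' ≠ 1, k - 1` use `t = 1`. If `i'` is `1` or `k - 1` and `k ≥ 5` use `t = 2, 3`: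
`M ^ 4 = M + ε`, `M ^ 8 = M + ε'`, so `M + ε' = (M + ε) ^ 2 = M ^ 2 + ε`. If `k = 4` (`i'` is `1` or `3`) use `t = 2`, `c = 1`:
`M ^ 4 = M`, so `(M ^ 2 + M) ^ 2 = M ^ 2 + M`. By induction `M ^ 2 ^ t + M` is `0` or `1` for all `t`. Now `t = i'`:
`t + i' = 2 i' ≠ k` (`i'` is a unit, `k ≥ 4`), so (*) gives `ρ ^ 2 ^ i'` is `0` or `1`, hence `ρ` is `0` or `1`. -/
def S_Alg : Prop :=
  ∀ (K : Type) [Field K] [CharP K 2] (k i' : ℕ), 4 ≤ k → Un k i' → ∀ m n m₁ m₂ : K,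
    n ≠ 0 → m ≠ 0 → m ≠ n → m₁ ≠ 0 → m₂ ≠ 0 → m₁ + m₂ = n →
    (∀ t : ℕ, 1 ≤ t → t < k → ∃ c : K, (c = 0 ∨ c = 1) ∧ (k = 4 → t = 2 → c = 1) ∧
      m₁ ^ (2 ^ t + 1) + m₂ ^ (2 ^ t + 1) = n ^ (2 ^ t + 1) * c +
        (if t + i' = k then n ^ 2 ^ t * m else 0) + (if t = i' then m ^ 2 ^ t * n else 0)) → False

/-- **Dis** (40 lines, uses `S_Pow`, `S_Mis`, `S_Alg`). `ph` is not injective: `n = r + m`; the exponents `1` and `2 ^ t + 1`
(`t < k`) are less than `2 ^ k - 1`. -/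
def S_Dis : Prop :=
  ∀ (K : Type) [Field K] [Fintype K] [CharP K 2] (k i i' : ℕ), 4 ≤ k → Fintype.card K = 2 ^ k →
    Un k i → Un k i' → ∀ r m : K, r ≠ 0 → m ≠ 0 → r ≠ m →
    ∃ u ∈ D2 K, ∃ v ∈ D2 K, u ≠ v ∧ ph i i' r m u ≠ 0 ∧ ph i i' r m u = ph i i' r m v

/-- **Vtx** (60 lines). Two different exponents at a common vertex.

Proof. The polynomial `X ^ 2 ^ i + X ^ 2 ^ i'` is not zero and has degree less than `2 ^ k = #K`, so there is `ρ` with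
`ρ ^ 2 ^ i ≠ ρ ^ 2 ^ i'`; `ρ ≠ 0, 1`. Take `x = 1`, `y = ρ`, `λ = η (ρ + ρ ^ 2 ^ i') / (ξ (ρ ^ 2 ^ i + ρ ^ 2 ^ i'))`,
`λ' = ξ λ + η = η (ρ + ρ ^ 2 ^ i) / (ρ ^ 2 ^ i + ρ ^ 2 ^ i')`; both are not zero by fact (U). -/
def S_Vtx : Prop :=
  ∀ (K : Type) [Field K] [Fintype K] [CharP K 2] (k i i' : ℕ), 1 ≤ k → Fintype.card K = 2 ^ k →
    Un k i → Un k i' → i ≠ i' → ∀ ξ η : K, ξ ≠ 0 → η ≠ 0 →
    ∃ x y l l' : K, x ≠ 0 ∧ y ≠ 0 ∧ x ≠ y ∧ l ≠ 0 ∧ l' ≠ 0 ∧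
      ξ * (l * x ^ 2 ^ i) + η * x = l' * x ^ 2 ^ i' ∧ ξ * (l * y ^ 2 ^ i) + η * y = l' * y ^ 2 ^ i'

/-- **Sca** (180 lines, uses `S_Pay`). Scattered subspaces.

Proof. For `v ≠ 0` in `U` no other non-zero multiple of `v` is in `U`, so the `2 ^ k - 1` non-zero elements of `U` lie on
different lines `K v`; there are `2 ^ k + 1` lines `K (0, 1)`, `K (1, m)`. So there are two different lines which meet
`U` only in `0`; let `a`, `b'` be functionals with these lines as kernels (the kernel of `Lf (x, y)` is `K (y, x)`), so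
`Dt a b' ≠ 0`, and `v ∈ U`, `Lf a v = 0` (or `Lf b' v = 0`) imply `v = 0`. `v ↦ (Lf a v, Lf b' v)` is a bijection of
`K × K`. `Lf a` is injective on `U`, hence bijective `U → K` (`#U = #K`), so there is an additive `f` with
`v ∈ U ↔ Lf b' v = f (Lf a v)`. `f x ≠ 0` for `x ≠ 0`. If `f x / x = f y / y` then the vector `v` with `Lf a v = x`, `Lf b' v = f x`
and the vector `w` for `y` satisfy `w = (y / x) v`, so `y / x = 1`. By `S_Pay` `f x = c x ^ 2 ^ i`; take `b = c⁻¹ b'`. -/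
def S_Sca : Prop :=
  ∀ (K : Type) [Field K] [Fintype K] [CharP K 2] (k : ℕ), 3 ≤ k → Fintype.card K = 2 ^ k →
    ∀ U : AddSubgroup (K × K), Nat.card U = 2 ^ k →
    (∀ v ∈ U, v ≠ 0 → ∀ c : K, c • v ∈ U → c = 0 ∨ c = 1) →
    ∃ (a b : K × K) (i : ℕ), Dt a b ≠ 0 ∧ Un k i ∧ Zs U a b i 1

/-- **Mp** (80 lines). The two missing directions of `U`.

Proof. Let `c ≠ 0`. If `Dt a c = 0` then `c = x a`, `x ≠ 0`, and `Lf c v = 0`, `v ∈ U` give `Lf a v = 0`, `Lf b v = l 0 = 0`, `v = 0`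
(`Dt a b ≠ 0`). The same for `b` (`l (Lf a v) ^ 2 ^ i = 0`). If both are not zero, `c = x a + y b` with `x, y ≠ 0`
(Cramer), and `v` with `Lf a v = t`, `Lf b v = l t ^ 2 ^ i`, where `t ^ (2 ^ i - 1) = x / (y l)`, `t ≠ 0` (fact (U)), is a non-zero
element of `U` with `Lf c v = x t + y l t ^ 2 ^ i = 0`. -/
def S_Mp : Prop :=
  ∀ (K : Type) [Field K] [Fintype K] [CharP K 2] (k i : ℕ), 1 ≤ k → Fintype.card K = 2 ^ k →
    Un k i → ∀ (U : AddSubgroup (K × K)) (a b : K × K) (l : K), Dt a b ≠ 0 → l ≠ 0 →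
    Zs U a b i l → ∀ c : K × K, c ≠ 0 →
    ((∀ v ∈ U, Lf c v = 0 → v = 0) ↔ (Dt a c = 0 ∨ Dt b c = 0))

/-- **Orb** (60 lines). Orbits of the scalars.

Proof. Let `c ≠ 0` with `c ^ (2 ^ i - 1) = l` (fact (U)) and `W ∈ C` with `v ∈ W ↔ c v ∈ U`. `c v ∈ U` iff
`c Lf b v = c ^ 2 ^ i (Lf a v) ^ 2 ^ i` iff `Lf b v = l (Lf a v) ^ 2 ^ i`. -/
def S_Orb : Prop :=
  ∀ (K : Type) [Field K] [Fintype K] [CharP K 2] (k i : ℕ), 1 ≤ k → Fintype.card K = 2 ^ k →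
    Un k i → ∀ C : Finset (AddSubgroup (K × K)), Cd k C → ∀ U ∈ C, ∀ a b : K × K,
    Zs U a b i 1 → ∀ l : K, l ≠ 0 → ∃ W ∈ C, Zs W a b i l

/-- **Ver** (100 lines, uses `S_Vtx`, `S_Mp`, `S_Orb`). A common missing direction.

Proof. Suppose `i ≠ i'`. `b' = ξ b + η a` with `ξ = Dt a b' / Dt a b ≠ 0`, `η = Dt b b' / Dt a b ≠ 0` (Cramer,
characteristic two). `S_Vtx` gives `x, y, l, l'`; `S_Orb` gives `W, W' ∈ C` with `Zs W a b i l`, `Zs W' a b' i' l'`. Let `v` be the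
vector with `Lf a v = x`, `Lf b v = l x ^ 2 ^ i`; then `Lf b' v = l' x ^ 2 ^ i'`, so `v ∈ W ∩ W'`; the same for `y`, and the two
vectors are not zero and different. `W ≠ W'`: by `S_Mp` for `c = b`, `W` has no non-zero vector with `Lf b v = 0`
(`Dt b b = 0`), but `W'` has (`Dt a b ≠ 0`, `Dt b' b ≠ 0`). Contradiction to `Cd`. -/
def S_Ver : Prop :=
  ∀ (K : Type) [Field K] [Fintype K] [CharP K 2] (k i i' : ℕ), 1 ≤ k → Fintype.card K = 2 ^ k →
    Un k i → Un k i' → ∀ C : Finset (AddSubgroup (K × K)), Cd k C → ∀ U ∈ C, ∀ U' ∈ C,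
    ∀ a b b' : K × K, Zs U a b i 1 → Zs U' a b' i' 1 → Dt a b ≠ 0 → Dt a b' ≠ 0 → Dt b b' ≠ 0 →
    i = i'

/-- **Cro** (130 lines, uses `S_Dis`, `S_Mp`, `S_Orb`). Disjoint pairs of missing directions.

Proof. `a' = α a + β b`, `b' = γ a + δ b`, all four coefficients are not zero, `α δ + β γ ≠ 0` (Cramer: `α = Dt b a' / Dt b a`
and so on; `Dt a' b' = (α δ + β γ) Dt a b`). Let `x₀ ≠ 0` with `x₀ ^ (2 ^ i - 1) = α / β` (fact (U)), `r = γ x₀`,
`m = δ x₀ ^ 2 ^ i`; `r ≠ m` since `r = m` means `γ / δ = α / β`. `S_Dis` gives `u ≠ v` in `D2` and `μ = ph u = ph v ≠ 0`. Let `v_u` be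
the vector with `Lf a v_u = x₀ u`, `Lf b v_u = (x₀ u) ^ 2 ^ i`. It is in `U`, and `Lf a' v_u = α x₀ (u + u ^ 2 ^ i)`,
`Lf b' v_u = r u + m u ^ 2 ^ i = μ (u + u ^ 2 ^ i) ^ 2 ^ i' = l (Lf a' v_u) ^ 2 ^ i'`, `l = μ / (α x₀) ^ 2 ^ i' ≠ 0`. `S_Orb`: `W' ∈ C`
with `Zs W' a' b' i' l`; it contains `v_u` and `v_v`, and so does `U`; they are not zero and different. `U ≠ W'`: by
`S_Mp` for `c = a`, `U` has no non-zero vector with `Lf a v = 0`, but `W'` has. Contradiction to `Cd`. -/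
def S_Cro : Prop :=
  ∀ (K : Type) [Field K] [Fintype K] [CharP K 2] (k i i' : ℕ), 4 ≤ k → Fintype.card K = 2 ^ k →
    Un k i → Un k i' → ∀ C : Finset (AddSubgroup (K × K)), Cd k C → ∀ U ∈ C, ∀ U' ∈ C,
    ∀ a b a' b' : K × K, Zs U a b i 1 → Zs U' a' b' i' 1 → Dt a b ≠ 0 → Dt a' b' ≠ 0 →
    Dt a a' ≠ 0 → Dt a b' ≠ 0 → Dt b a' ≠ 0 → Dt b b' ≠ 0 → False

/-- **Ekr** (120 lines). The combinatorics of labelled pairs.

Proof. Let `E` be the set of the pairs `pr U`, `U ∈ A`. If `E` has at most one element `e = {p, ..}`: the `U ∈ A` with a given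
label at `p` are at most `N - 1`, and there are at most `k - 1 ≤ N` labels. Otherwise for every `e ∈ E` there is `e' ≠ e` in
`E`, `U' ∈ A` with `pr U' = e'`, and `p ∈ e ∩ e'`; all `U ∈ A` with `pr U = e` have the label of `U'` at `p`, so there are at
most `N - 1` of them. `E` is an intersecting family of pairs in a set with `N + 1 ≥ 4` elements, so `#E ≤ N`
(`Finset.erdos_ko_rado` after an equivalence `P ≃ Fin (N + 1)`). -/
def S_Ekr : Prop :=
  ∀ (P ι : Type) [Fintype P] (N k : ℕ), 3 ≤ N → k ≤ N + 1 → Fintype.card P = N + 1 →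
    ∀ (A : Finset ι) (pr : ι → Finset P) (lab : ι → P → ℕ), (∀ U ∈ A, (pr U).card = 2) →
    (∀ U ∈ A, ∀ W ∈ A, (pr U ∩ pr W).Nonempty) →
    (∀ U ∈ A, ∀ p ∈ pr U, 1 ≤ lab U p ∧ lab U p < k) →
    (∀ U ∈ A, ∀ W ∈ A, pr U ≠ pr W → ∀ p, p ∈ pr U → p ∈ pr W → lab U p = lab W p) →
    (∀ e : Finset P, ∀ p ∈ e, ∀ j : ℕ, (A.filter fun U => pr U = e ∧ lab U p = j).card ≤ N - 1) →
    A.card ≤ N * (N - 1)

/-- **Pr** (150 lines, uses `S_Sca`, `S_Mp`). The labelled pair of a codeword. The points are `Option K`,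
`pt none = (0, 1)`, `pt (some m) = (1, m)`.

Proof. `U ∈ C`, `¬ Spr U`. `U` is scattered: if `v, c v ∈ U`, `v ≠ 0`, `c ≠ 0`, then the member `K v` of `C` is different from `U`
and contains both, so `c v = v` and `c = 1`. `S_Sca`: `Zs U a b i 1`. There are `p, q` and `x, y ≠ 0` with `a = x pt p`,
`b = y pt q`, `p ≠ q` (`Dt a b ≠ 0`). With `b₁ = (x ^ 2 ^ i)⁻¹ b`: `Zs U (pt p) b₁ i 1`. Raising to the power `2 ^ (k - i)`:
`Lf b v = (Lf a v) ^ 2 ^ i` iff `Lf a v = (Lf b v) ^ 2 ^ (k - i)`, `Un k (k - i)`, so the same at `q`. By `S_Mp` the points `p'` with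
`∀ v ∈ U, Lf (pt p') v = 0 → v = 0` are exactly those with `Dt a (pt p') = 0` or `Dt b (pt p') = 0`, i.e. `p` and `q`
(`Dt (pt p) (pt p') = 0` iff `p = p'`). -/
def S_Pr : Prop :=
  ∀ (K : Type) [Field K] [Fintype K] [CharP K 2] (k : ℕ), 3 ≤ k → Fintype.card K = 2 ^ k →
    ∀ pt : Option K → K × K, pt none = (0, 1) → (∀ m, pt (some m) = (1, m)) →
    ∀ C : Finset (AddSubgroup (K × K)), Cd k C → ∀ U ∈ C, ¬ Spr U →
    ∃ p q : Option K, p ≠ q ∧
      (∀ p', (∀ v ∈ U, Lf (pt p') v = 0 → v = 0) ↔ (p' = p ∨ p' = q)) ∧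
      (∃ (b : K × K) (i : ℕ), Un k i ∧ Dt (pt p) b ≠ 0 ∧ Dt (pt q) b = 0 ∧ Zs U (pt p) b i 1) ∧
      (∃ (b : K × K) (i : ℕ), Un k i ∧ Dt (pt q) b ≠ 0 ∧ Dt (pt p) b = 0 ∧ Zs U (pt q) b i 1)

/-- **Fin** (200 lines, uses `S_Pr`, `S_Ver`, `S_Cro`, `S_Ekr`). The theorem for additive subgroups.

Proof. `N = 2 ^ k`, `pt` as in `S_Pr`. The `U ∈ C` with `Spr U` are at most `N + 1` (`U = K v` is determined by the point `p` with
`v ∈ K pt p`). Let `A` be the set of the others, `pr U` the set of the `p'` with `∀ v ∈ U, Lf (pt p') v = 0 → v = 0`,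
`lab U p` a number `i` with `Un k i` for which there is `b` with `Dt (pt p) b ≠ 0` and `Zs U (pt p) b i 1` (choice; `0` if there is
none). The hypotheses of `S_Ekr` (`P = Option K`, `k ≤ 2 ^ k`): pairs by `S_Pr`; intersecting by `S_Cro` (if `pr U = {p, q}` and
`pr W = {p', q'}` are disjoint: representations `Zs U (pt p) b i 1`, `Zs W (pt p') b' i' 1` with `b`, `b'` multiples of `pt q`,
`pt q'`); equal labels by `S_Ver` (`pr U = {p, q}`, `pr W = {p, q'}`, `q ≠ q'`; here if `Zs U (pt p) b i 1` and `Dt (pt p) b ≠ 0`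
then `Dt (pt q) b = 0` by `S_Mp`-type reasoning: take `S_Mp` for `c = pt q`; to avoid it use that `b ≠ 0` is a multiple of
`pt q₁` for some `q₁`, and `v ∈ U`, `Lf (pt q₁) v = 0` imply `Lf (pt p) v ^ 2 ^ i = 0` and `v = 0`, so `q₁ ∈ pr U`, `q₁ ≠ p`,
`q₁ = q`). At most `N - 1` of the `U ∈ A` have given `pr U = {p, q}` and given label `i` at `p`: `Zs U (pt p) b i 1` with
`b = y pt q`, and `U` is determined by `y ≠ 0`. So `#C ≤ N (N - 1) + N + 1 = N ^ 2 + 1`. -/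
def S_Fin : Prop :=
  ∀ (K : Type) [Field K] [Fintype K] [CharP K 2] (k : ℕ), 4 ≤ k → Fintype.card K = 2 ^ k →
    ∀ C : Finset (AddSubgroup (K × K)), Cd k C → C.card ≤ 2 ^ (2 * k) + 1

/-- **Out** (80 lines, uses `S_Fin`). The theorem for subspaces over a field `F` with two elements.

Proof. `#K = 2 ^ k`, characteristic two. `U ↦ U.toAddSubgroup` is injective; a subspace of dimension `k` has `2 ^ k`
elements; two non-zero vectors `v ≠ w` of `U ∩ W` would be independent (the field has two elements). -/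
def S_Out : Prop :=
  ∀ (F K : Type) [Field F] [Fintype F] [Field K] [Fintype K] [Algebra F K] (k : ℕ),
    Fintype.card F = 2 → 4 ≤ k → Module.finrank F K = k →
    ∀ C : Finset (Submodule F (K × K)), (∀ U ∈ C, Module.finrank F U = k) →
    (∀ U ∈ C, ∀ W ∈ C, U ≠ W → Module.finrank F ↥(U ⊓ W) ≤ 1) →
    (∀ v : K × K, v ≠ 0 → (Submodule.span K {v}).restrictScalars F ∈ C) →
    (∀ c : K, c ≠ 0 → ∀ U ∈ C, U.map ((LinearMap.lsmul K (K × K) c).restrictScalars F) ∈ C) →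
    C.card ≤ 2 ^ (2 * k) + 1

end Pool.Agent.MP8bS
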