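import Pool.Agent.Lib.MP_8b575b_co.Spr.Spec

/-!
# MP_8b575b_co, Spr/Sum: power sums over the elements of trace zero
-/

set_option autoImplicit false

namespace Pool.Agent.MP8bS

open Finset

open scoped Classical

/-- power sums over the non-zero elements -/
private theorem Sum_pow {K : Type} [Field K] [Fintype K] [CharP K 2] {k : ℕ}
    (hc : Fintype.card K = 2 ^ k) (e : ℕ) :
    ∑ x ∈ univ.filter (fun x : K => x ≠ 0), x ^ e = if 2 ^ k - 1 ∣ e then 1 else 0 := by
  have h1 := FiniteField.sum_pow_units K e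
  rw [hc] at h1
  have h2 : ∑ x ∈ univ.filter (fun x : K => x ≠ 0), x ^ e = ∑ x : Kˣ, (x ^ e : K) := by
    let φ : Kˣ ↪ K := ⟨fun x ↦ x, Units.val_injective⟩
    have h3 : univ.map φ = univ.filter (fun x : K => x ≠ 0) := by
      ext x
      simp only [mem_map, mem_univ, Function.Embedding.coeFn_mk, true_and, mem_filter, φ]
      exact isUnit_iff_ne_zero (a := x)
    rw [← h3, Finset.sum_map]
    rfl
  rw [h2, h1, CharTwo.neg_eq]

/-- the trace is 0 or 1 -/
private theorem Sum_tr {K : Type} [Field K] [Fintype K] [CharP K 2] {k : ℕ}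
    (hc : Fintype.card K = 2 ^ k) (x : K) :
    ∑ j ∈ range k, x ^ 2 ^ j = 0 ∨ ∑ j ∈ range k, x ^ 2 ^ j = 1 := by
  set t : K := ∑ j ∈ range k, x ^ 2 ^ j with ht
  have h1 : t ^ 2 = t := by
    have h2 : t ^ 2 = ∑ j ∈ range k, x ^ 2 ^ (j + 1) := by
      have h3 : frobenius K 2 t = ∑ j ∈ range k, frobenius K 2 (x ^ 2 ^ j) := by
        rw [ht, map_sum]
      rw [frobenius_def] at h3
      rw [h3]
      refine Finset.sum_congr rfl fun j _ => ?_
      rw [frobenius_def, ← pow_mul, ← pow_succ]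
    have h4 : ∑ j ∈ range k, x ^ 2 ^ (j + 1) + x ^ 2 ^ 0 = ∑ j ∈ range (k + 1), x ^ 2 ^ j :=
      (Finset.sum_range_succ' (fun j => x ^ 2 ^ j) k).symm
    have h5 : ∑ j ∈ range (k + 1), x ^ 2 ^ j = t + x := by
      rw [Finset.sum_range_succ, ← hc, FiniteField.pow_card]
    rw [h5, pow_zero, pow_one] at h4
    rw [h2]
    exact add_right_cancel h4
  have h6 : t * (t - 1) = 0 := by linear_combination h1
  rcases mul_eq_zero.mp h6 with h | h
  · exact Or.inl h
  · exact Or.inr (sub_eq_zero.mp h)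

/-- power sums over the elements of trace zero -/
private theorem Sum_T0 {K : Type} [Field K] [Fintype K] [CharP K 2] {k : ℕ}
    (hc : Fintype.card K = 2 ^ k) (e : ℕ) :
    ∑ x ∈ T0 K k, x ^ e = (if 2 ^ k - 1 ∣ e then 1 else 0) +
      ∑ j ∈ range k, (if 2 ^ k - 1 ∣ e + 2 ^ j then 1 else 0) := by
  have h1 : ∑ x ∈ T0 K k, x ^ e = ∑ x ∈ univ.filter (fun x : K => x ≠ 0),
      (x ^ e + ∑ j ∈ range k, x ^ (e + 2 ^ j)) := by
    have h2 : T0 K k = (univ.filter (fun x : K => x ≠ 0)).filter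
        (fun x => ∑ j ∈ range k, x ^ 2 ^ j = 0) := by
      unfold T0
      rw [Finset.filter_filter]
    rw [h2, Finset.sum_filter]
    refine Finset.sum_congr rfl fun x _ => ?_
    have h3 : ∑ j ∈ range k, x ^ (e + 2 ^ j) = x ^ e * ∑ j ∈ range k, x ^ 2 ^ j := by
      rw [Finset.mul_sum]
      exact Finset.sum_congr rfl fun j _ => pow_add _ _ _
    rw [h3]
    rcases Sum_tr hc x with h | h
    · rw [if_pos h, h, mul_zero, add_zero]
    · rw [if_neg (by rw [h]; exact one_ne_zero), h, mul_one, CharTwo.add_self_eq_zero]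
  rw [h1, Finset.sum_add_distrib, Sum_pow hc, Finset.sum_comm]
  congr 1
  exact Finset.sum_congr rfl fun j _ => Sum_pow hc _

/-- binary digits -/
private theorem Sum_two {α β γ δ : ℕ} (hab : α ≠ β) (h : 2 ^ γ + 2 ^ δ = 2 ^ α + 2 ^ β) :
    (γ = α ∧ δ = β) ∨ (γ = β ∧ δ = α) := by
  have hinj := Finset.geomSum_injective (n := 2) le_rfl
  by_cases hgd : γ = δ
  · exfalso
    have h1 : ∑ i ∈ ({γ + 1} : Finset ℕ), 2 ^ i = ∑ i ∈ ({α, β} : Finset ℕ), 2 ^ i := by
      rw [Finset.sum_singleton, Finset.sum_pair hab, ← h, ← hgd, pow_succ]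
      ring
    have h2 := hinj h1
    have h3 := congrArg Finset.card h2
    rw [Finset.card_singleton, Finset.card_pair hab] at h3
    omega
  · have h1 : ∑ i ∈ ({γ, δ} : Finset ℕ), 2 ^ i = ∑ i ∈ ({α, β} : Finset ℕ), 2 ^ i := by
      rw [Finset.sum_pair hgd, Finset.sum_pair hab, h]
    have h2 : ({γ, δ} : Finset ℕ) = {α, β} := hinj h1
    have h3 : γ ∈ ({α, β} : Finset ℕ) := by
      rw [← h2]
      exact Finset.mem_insert_self _ _
    have h4 : δ ∈ ({α, β} : Finset ℕ) := by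
      rw [← h2]
      exact Finset.mem_insert_of_mem (Finset.mem_singleton_self _)
    rw [Finset.mem_insert, Finset.mem_singleton] at h3 h4
    omega

private theorem Sum_one {α β γ : ℕ} (hab : α ≠ β) (h : 2 ^ γ = 2 ^ α + 2 ^ β) : False := by
  have hinj := Finset.geomSum_injective (n := 2) le_rfl
  have h1 : ∑ i ∈ ({γ} : Finset ℕ), 2 ^ i = ∑ i ∈ ({α, β} : Finset ℕ), 2 ^ i := by
    rw [Finset.sum_singleton, Finset.sum_pair hab, h]
  have h3 := congrArg Finset.card (hinj h1)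
  rw [Finset.card_singleton, Finset.card_pair hab] at h3
  omega

/-- sizes -/
private theorem Sum_size {k α β : ℕ} (hk : 3 ≤ k) (ha : α < k) (hb : β < k) (hab : α ≠ β) :
    3 ≤ 2 ^ α + 2 ^ β ∧ 2 ^ α + 2 ^ β + 2 ≤ 2 ^ k := by
  obtain ⟨m, rfl⟩ : ∃ m, k = m + 3 := ⟨k - 3, by omega⟩
  have hm : 1 ≤ 2 ^ m := Nat.one_le_two_pow
  have e1 : 2 ^ (m + 3) = 8 * 2 ^ m := by rw [pow_add]; ring
  have e2 : 2 ^ (m + 2) = 4 * 2 ^ m := by rw [pow_add]; ring
  have e3 : 2 ^ (m + 1) = 2 * 2 ^ m := by rw [pow_add]; ring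
  have a1 : 1 ≤ 2 ^ α := Nat.one_le_two_pow
  have b1 : 1 ≤ 2 ^ β := Nat.one_le_two_pow
  rcases Nat.lt_or_gt_of_ne hab with h | h
  · have c1 : 2 ^ α ≤ 2 ^ (m + 1) := Nat.pow_le_pow_right (by norm_num) (by omega)
    have c2 : 2 ^ β ≤ 2 ^ (m + 2) := Nat.pow_le_pow_right (by norm_num) (by omega)
    have c3 : 2 ^ 1 ≤ 2 ^ β := Nat.pow_le_pow_right (by norm_num) (by omega)
    constructor <;> omega
  · have c1 : 2 ^ β ≤ 2 ^ (m + 1) := Nat.pow_le_pow_right (by norm_num) (by omega)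
    have c2 : 2 ^ α ≤ 2 ^ (m + 2) := Nat.pow_le_pow_right (by norm_num) (by omega)
    have c3 : 2 ^ 1 ≤ 2 ^ α := Nat.pow_le_pow_right (by norm_num) (by omega)
    constructor <;> omega

private theorem Sum_size1 {k γ : ℕ} (hg : γ < k) : 1 ≤ 2 ^ γ ∧ 2 * 2 ^ γ ≤ 2 ^ k := by
  refine ⟨Nat.one_le_two_pow, ?_⟩
  have h : 2 ^ (γ + 1) ≤ 2 ^ k := Nat.pow_le_pow_right (by norm_num) hg
  rwa [pow_succ, mul_comm] at h

/-- a divisibility with a small difference -/
private theorem Sum_dvd {N a b : ℕ} (ha : a ≤ N) (h1 : b < a + N) (h2 : a < b + N)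
    (h : N ∣ N - a + b) : a = b := by
  obtain ⟨c, hc⟩ := h
  have hN : 0 < N := by omega
  rcases Nat.lt_trichotomy c 1 with h3 | h3 | h3
  · have : c = 0 := by omega
    rw [this, Nat.mul_zero] at hc
    omega
  · rw [h3, Nat.mul_one] at hc
    omega
  · have h4 : N * 2 ≤ N * c := Nat.mul_le_mul_left _ h3
    omega

/-- inverses as powers -/
private theorem Sum_inv {K : Type} [Field K] [Fintype K] {k : ℕ}
    (hc : Fintype.card K = 2 ^ k) {x : K} (hx : x ≠ 0) {m n : ℕ} (hm : m ≤ 2 ^ k - 1) :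
    x ^ n * (x ^ m)⁻¹ = x ^ (2 ^ k - 1 - m + n) := by
  have h1 : x ^ (2 ^ k - 1) = 1 := by
    rw [← hc]
    exact FiniteField.pow_card_sub_one_eq_one x hx
  have h2 : x ^ (2 ^ k - 1 - m + n) * x ^ m = x ^ n := by
    rw [← pow_add]
    have h3 : 2 ^ k - 1 - m + n + m = (2 ^ k - 1) + n := by omega
    rw [h3, pow_add, h1, one_mul]
  rw [← h2, mul_assoc, mul_inv_cancel₀ (pow_ne_zero _ hx), mul_one]

theorem tSum : S_Sum := by
  intro K _ _ _ k hk hc α β γ ha hb hg hab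
  have hx0 : ∀ x ∈ T0 K k, x ≠ 0 := fun x hx => (Finset.mem_filter.mp hx).2.1
  obtain ⟨s1, s2⟩ := Sum_size hk ha hb hab
  obtain ⟨g1, g2⟩ := Sum_size1 hg
  obtain ⟨a1, a2⟩ := Sum_size1 ha
  refine ⟨?_, ?_, ?_⟩
  · have h1 : ∑ x ∈ T0 K k, (x ^ 2 ^ α * x ^ 2 ^ β)⁻¹ =
        ∑ x ∈ T0 K k, x ^ (2 ^ k - 1 - (2 ^ α + 2 ^ β) + 0) := by
      refine Finset.sum_congr rfl fun x hx => ?_
      rw [← Sum_inv hc (hx0 x hx) (by omega), pow_zero, one_mul, pow_add]
    rw [h1, Sum_T0 hc, if_neg, Finset.sum_eq_zero, add_zero]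
    · intro j hj
      obtain ⟨j1, j2⟩ := Sum_size1 (Finset.mem_range.mp hj)
      rw [if_neg]
      intro h
      rw [Nat.add_zero] at h
      exact Sum_one hab (Sum_dvd (by omega) (by omega) (by omega) h).symm
    · intro h
      have := Sum_dvd (by omega) (by omega) (by omega) h
      omega
  · have h1 : ∑ x ∈ T0 K k, x ^ 2 ^ γ * (x ^ 2 ^ α * x ^ 2 ^ β)⁻¹ =
        ∑ x ∈ T0 K k, x ^ (2 ^ k - 1 - (2 ^ α + 2 ^ β) + 2 ^ γ) := by
      refine Finset.sum_congr rfl fun x hx => ?_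
      rw [← Sum_inv hc (hx0 x hx) (by omega), pow_add]
    rw [h1, Sum_T0 hc, if_neg, zero_add]
    · have h2 : ∀ j ∈ range k, (if 2 ^ k - 1 ∣ 2 ^ k - 1 - (2 ^ α + 2 ^ β) + 2 ^ γ + 2 ^ j
          then (1 : K) else 0) = if (γ = α ∧ j = β) ∨ (γ = β ∧ j = α) then 1 else 0 := by
        intro j hj
        obtain ⟨j1, j2⟩ := Sum_size1 (Finset.mem_range.mp hj)
        have h3 : (2 ^ k - 1 ∣ 2 ^ k - 1 - (2 ^ α + 2 ^ β) + 2 ^ γ + 2 ^ j) ↔
            ((γ = α ∧ j = β) ∨ (γ = β ∧ j = α)) := by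
          constructor
          · intro h
            rw [Nat.add_assoc] at h
            exact Sum_two hab (Sum_dvd (by omega) (by omega) (by omega) h).symm
          · rintro (⟨h4, h5⟩ | ⟨h4, h5⟩)
            · rw [h4, h5]
              have : 2 ^ k - 1 - (2 ^ α + 2 ^ β) + 2 ^ α + 2 ^ β = 2 ^ k - 1 := by omega
              rw [this]
            · rw [h4, h5]
              have : 2 ^ k - 1 - (2 ^ α + 2 ^ β) + 2 ^ β + 2 ^ α = 2 ^ k - 1 := by omega
              rw [this]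
        simp only [h3]
      rw [Finset.sum_congr rfl h2]
      by_cases c1 : γ = α
      · rw [if_pos (Or.inl c1)]
        rw [Finset.sum_eq_single β]
        · rw [if_pos (Or.inl ⟨c1, rfl⟩)]
        · intro j _ hj
          rw [if_neg]
          rintro (⟨_, h4⟩ | ⟨h4, _⟩)
          · exact hj h4
          · exact hab (c1.symm.trans h4)
        · intro h
          exact absurd (Finset.mem_range.mpr hb) h
      · by_cases c2 : γ = β
        · rw [if_pos (Or.inr c2)]
          rw [Finset.sum_eq_single α]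
          · rw [if_pos (Or.inr ⟨c2, rfl⟩)]
          · intro j _ hj
            rw [if_neg]
            rintro (⟨h4, _⟩ | ⟨_, h4⟩)
            · exact c1 h4
            · exact hj h4
          · intro h
            exact absurd (Finset.mem_range.mpr ha) h
        · rw [if_neg (by rintro (h | h); exacts [c1 h, c2 h])]
          refine Finset.sum_eq_zero fun j _ => ?_
          rw [if_neg]
          rintro (⟨h4, _⟩ | ⟨h4, _⟩)
          · exact c1 h4
          · exact c2 h4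
    · intro h
      exact Sum_one hab (Sum_dvd (by omega) (by omega) (by omega) h).symm
  · have h1 : ∑ x ∈ T0 K k, (x ^ 2 ^ α)⁻¹ = ∑ x ∈ T0 K k, x ^ (2 ^ k - 1 - 2 ^ α + 0) := by
      refine Finset.sum_congr rfl fun x hx => ?_
      rw [← Sum_inv hc (hx0 x hx) (by omega), pow_zero, one_mul]
    rw [h1, Sum_T0 hc, if_neg, zero_add, Finset.sum_eq_single α]
    · rw [if_pos]
      have : 2 ^ k - 1 - 2 ^ α + 0 + 2 ^ α = 2 ^ k - 1 := by omega
      rw [this]
    · intro j hj hja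
      obtain ⟨j1, j2⟩ := Sum_size1 (Finset.mem_range.mp hj)
      rw [if_neg]
      intro h
      rw [Nat.add_zero] at h
      have h2 := Sum_dvd (by omega) (by omega) (by omega) h
      exact hja (Nat.pow_right_injective le_rfl h2.symm)
    · intro h
      exact absurd (Finset.mem_range.mpr ha) h
    · intro h
      have := Sum_dvd (by omega) (by omega) (by omega) h
      omega

end Pool.Agent.MP8bS
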