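import Pool.Agent.Lib.MP_8b575b_co.Spr.Spec

/-!
MP_8b575b_co: a single unit (`S_Uni`).
-/

set_option autoImplicit false

namespace Pool.Agent.MP8bS

open Finset

open scoped Classical

private theorem uni_unit {K : Type} [Field K] (k : ℕ) (a : ℕ → K) (hk : 3 ≤ k)
    (hW : ∀ m : ℕ, 1 ≤ m → m < k → ∀ t : ℕ → ℕ, (∀ j < m, t j < k) →
      k ∣ ∑ j ∈ range m, t j → ∃ j < m, a (t j) = 0) (i : ℕ) (hi : i < k) (hai : a i ≠ 0) :
    Un k i := by
  have hg : Nat.gcd i k = 1 := by
    by_contra hne
    have hg0 : 0 < Nat.gcd i k := Nat.gcd_pos_of_pos_right _ (by omega)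
    have hg2 : 1 < Nat.gcd i k := by omega
    obtain ⟨d, hd⟩ := Nat.gcd_dvd_right i k
    obtain ⟨e, he⟩ := Nat.gcd_dvd_left i k
    have hd1 : 1 ≤ d := by
      rcases Nat.eq_zero_or_pos d with h | h
      · rw [h, mul_zero] at hd
        omega
      · exact h
    have hdk : d < k := by
      calc d < Nat.gcd i k * d := by nlinarith
        _ = k := hd.symm
    obtain ⟨j, -, hj⟩ := hW d hd1 hdk (fun _ => i) (fun _ _ => hi) (by
      rw [Finset.sum_const, Finset.card_range, smul_eq_mul]
      refine ⟨e, ?_⟩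
      calc d * i = d * (Nat.gcd i k * e) := by rw [← he]
        _ = (Nat.gcd i k * d) * e := by ring
        _ = k * e := by rw [← hd])
    exact hai hj
  refine ⟨?_, hi, hg⟩
  rcases Nat.eq_zero_or_pos i with h | h
  · rw [h, Nat.gcd_zero_left] at hg
    omega
  · exact h

/-- A single unit. -/
theorem tUni : S_Uni := by
  intro K _ k a hk hW ⟨i, hi, hai⟩
  have hu := uni_unit k a hk hW i hi hai
  refine ⟨i, hu, hai, fun j hj hji => ?_⟩
  by_contra haj
  have hv := uni_unit k a hk hW j hj haj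
  obtain ⟨s, hs⟩ : ∃ s, i * s ≡ 1 [MOD k] := by
    obtain ⟨s, -, hs⟩ := Nat.exists_mul_mod_eq_one_of_coprime hu.2.2 (by omega : 1 < k)
    refine ⟨s, ?_⟩
    rw [Nat.ModEq, hs, Nat.mod_eq_of_lt (by omega)]
  set μ := (s * j) % k with hμ
  have hμk : μ < k := Nat.mod_lt _ (by omega)
  have hmod : μ * i ≡ j [MOD k] := by
    calc μ * i ≡ (s * j) * i [MOD k] := (Nat.mod_modEq _ _).mul_right i
      _ = (i * s) * j := by ring
      _ ≡ 1 * j [MOD k] := hs.mul_right j
      _ = j := one_mul j
  have hμ0 : μ ≠ 0 := by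
    intro h
    rw [h, zero_mul] at hmod
    have h1 := Nat.ModEq.eq_of_lt_of_lt hmod (by omega) hj
    have := hv.1
    omega
  have hμ1 : μ ≠ 1 := by
    intro h
    rw [h, one_mul] at hmod
    exact hji (Nat.ModEq.eq_of_lt_of_lt hmod hi hj).symm
  obtain ⟨l, -, hl⟩ := hW (k - μ + 1) (by omega) (by omega)
    (fun l => if l = 0 then j else i) (fun l _ => by
      split_ifs
      · exact hj
      · exact hi) (by
      rw [Finset.sum_range_succ']
      rw [if_pos rfl]
      have e1 : ∑ x ∈ range (k - μ), (if x + 1 = 0 then j else i) = (k - μ) * i := by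
        rw [Finset.sum_congr rfl (fun x _ => if_neg (Nat.succ_ne_zero x)), Finset.sum_const,
          Finset.card_range, smul_eq_mul]
      rw [e1]
      have h1 : (k : ℤ) ∣ (μ : ℤ) * i - j := by
        have := (Nat.modEq_iff_dvd.1 hmod.symm)
        push_cast at this
        exact this
      have h2 : (k : ℤ) ∣ (((k - μ) * i + j : ℕ) : ℤ) := by
        push_cast
        rw [Nat.cast_sub hμk.le]
        have e2 : ((k : ℤ) - μ) * i + j = k * i - ((μ : ℤ) * i - j) := by ring
        rw [e2]
        exact (dvd_mul_right _ _).sub h1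
      exact_mod_cast h2)
  split_ifs at hl
  · exact haj hl
  · exact hai hl

end Pool.Agent.MP8bS
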