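import Pool.Agent.Lib.MP_8b575b_co.Spr.Spec

set_option autoImplicit false

namespace Pool.Agent.MP8bS

open Finset

open scoped Classical

private lemma Ver_sol {K : Type} [Field K] [CharP K 2] (a b : K × K) (h : Dt a b ≠ 0) (s t : K) :
    ∃ v : K × K, Lf a v = s ∧ Lf b v = t := by
  have h2 : (2 : K) = 0 := CharTwo.two_eq_zero
  refine ⟨((s * b.2 + t * a.2) / Dt a b, (s * b.1 + t * a.1) / Dt a b), ?_, ?_⟩
  · simp only [Lf]
    field_simp
    simp only [Dt]
    linear_combination (t * a.1 * a.2) * h2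
  · simp only [Lf]
    field_simp
    simp only [Dt]
    linear_combination (s * b.1 * b.2) * h2

private lemma Ver_cr {K : Type} [Field K] [CharP K 2] (a b c v : K × K) :
    Dt a b * Lf c v = Dt b c * Lf a v + Dt a c * Lf b v := by
  have h0 : (2 : K) = 0 := CharTwo.two_eq_zero
  simp only [Lf, Dt]
  linear_combination (-(a.1 * b.1 * c.2 * v.1) - (a.2 * b.2 * c.1 * v.2)) * h0

private lemma Ver_cr2 {K : Type} [Field K] [CharP K 2] (a b c v : K × K) (h : Dt a b ≠ 0) :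
    Lf c v = Dt a c / Dt a b * Lf b v + Dt b c / Dt a b * Lf a v := by
  have := Ver_cr a b c v
  field_simp
  rw [mul_comm, this]
  ring

private lemma Ver_dd {K : Type} [Field K] [CharP K 2] (a : K × K) : Dt a a = 0 := by
  unfold Dt
  rw [mul_comm a.2 a.1]
  exact CharTwo.add_self_eq_zero _

private lemma Ver_sy {K : Type} [Field K] (a b : K × K) : Dt a b = Dt b a := by
  unfold Dt
  ring

theorem tVer : S_Vtx → S_Mp → S_Orb → S_Ver := by
  intro hVtx hMp hOrb K _ _ _ k i i' hk hK hi hi' C hC U hU U' hU' a b b' hz hz' hab hab' hbb'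
  by_contra hne
  obtain ⟨x, y, l, l', hx, hy, hxy, hl, hl', ex, ey⟩ := hVtx K k i i' hk hK hi hi' hne
    (Dt a b' / Dt a b) (Dt b b' / Dt a b) (div_ne_zero hab' hab) (div_ne_zero hbb' hab)
  obtain ⟨W, hW, hWz⟩ := hOrb K k i hk hK hi C hC U hU a b hz l hl
  obtain ⟨W', hW', hWz'⟩ := hOrb K k i' hk hK hi' C hC U' hU' a b' hz' l' hl'
  have key : ∀ z : K, Dt a b' / Dt a b * (l * z ^ 2 ^ i) + Dt b b' / Dt a b * z =
      l' * z ^ 2 ^ i' → ∃ v : K × K, v ∈ W ∧ v ∈ W' ∧ Lf a v = z := by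
    intro z hzz
    obtain ⟨v, hva, hvb⟩ := Ver_sol a b hab z (l * z ^ 2 ^ i)
    refine ⟨v, ?_, ?_, hva⟩
    · rw [hWz v, hvb, hva]
    · rw [hWz' v, Ver_cr2 a b b' v hab, hvb, hva, hzz]
  obtain ⟨v, hv1, hv2, hva⟩ := key x ex
  obtain ⟨w, hw1, hw2, hwa⟩ := key y ey
  have hne2 : W ≠ W' := by
    intro hWW
    have hb0 : b ≠ 0 := by
      rintro rfl
      exact hab (by simp [Dt])
    have h1 := (hMp K k i hk hK hi W a b l hab hl hWz b hb0).mpr (Or.inr (Ver_dd b))
    rw [hWW] at h1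
    rcases (hMp K k i' hk hK hi' W' a b' l' hab' hl' hWz' b hb0).mp h1 with h | h
    · exact hab h
    · exact hbb' (by rw [Ver_sy]; exact h)
  have hv0 : v ≠ 0 := by
    rintro rfl
    exact hx (by rw [← hva]; simp [Lf])
  have hw0 : w ≠ 0 := by
    rintro rfl
    exact hy (by rw [← hwa]; simp [Lf])
  have := hC.2.1 W hW W' hW' hne2 v hv1 hv2 w hw1 hw2 hv0 hw0
  apply hxy
  rw [← hva, ← hwa, this]

end Pool.Agent.MP8bS
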