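import Pool.Agent.Lib.MP_8b575b_co.Spr.Spec

set_option autoImplicit false

namespace Pool.Agent.MP8bS

open Finset

open scoped Classical

private lemma Vtx_fix {K : Type} [Field K] [Fintype K] (k i : ℕ)
    (hK : Fintype.card K = 2 ^ k) (hi : Un k i) (x : K) (hx : x ≠ 0) (h : x ^ 2 ^ i = x) :
    x = 1 := by
  have hco : (Nat.card Kˣ).Coprime (2 ^ i - 1) := by
    rw [Nat.card_eq_fintype_card, Fintype.card_units, hK, Nat.coprime_iff_gcd_eq_one,
      Nat.pow_sub_one_gcd_pow_sub_one, Nat.gcd_comm, Nat.coprime_iff_gcd_eq_one.mp hi.2.2]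
    norm_num
  have h1 : x ^ (2 ^ i - 1) = 1 := by
    have h2 : x ^ (2 ^ i - 1) * x = 1 * x := by
      rw [← pow_succ, one_mul]
      have : 2 ^ i - 1 + 1 = 2 ^ i := Nat.sub_add_cancel Nat.one_le_two_pow
      rw [this, h]
    exact mul_right_cancel₀ hx h2
  have h3 : (powCoprime hco) (Units.mk0 x hx) = (powCoprime hco) 1 := by
    ext
    simp [powCoprime, h1]
  have h4 := (powCoprime hco).injective h3
  exact congrArg Units.val h4

private lemma Vtx_ex {K : Type} [Field K] [Fintype K] (k i i' : ℕ)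
    (hK : Fintype.card K = 2 ^ k) (hi : i < k) (hi' : i' < k) (hne : i ≠ i') :
    ∃ ρ : K, ρ ^ 2 ^ i ≠ ρ ^ 2 ^ i' := by
  by_contra hcon
  push Not at hcon
  let p : Polynomial K := Polynomial.X ^ 2 ^ i - Polynomial.X ^ 2 ^ i'
  have hdeg : ∀ j < k, 2 ^ j < 2 ^ k := fun j hj => Nat.pow_lt_pow_right (by norm_num) hj
  have hp : p ≠ 0 := by
    intro h0
    have h1 : p.coeff (2 ^ i) = 0 := by rw [h0]; simp
    have h2 : 2 ^ i ≠ 2 ^ i' := fun h => hne (Nat.pow_right_injective (le_refl 2) h)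
    simp only [p, Polynomial.coeff_sub, Polynomial.coeff_X_pow, if_true, if_neg h2, sub_zero]
      at h1
    exact one_ne_zero h1
  have hnd : p.natDegree < 2 ^ k := by
    refine lt_of_le_of_lt (Polynomial.natDegree_sub_le _ _) ?_
    rw [Polynomial.natDegree_X_pow, Polynomial.natDegree_X_pow]
    exact max_lt (hdeg i hi) (hdeg i' hi')
  have hroot : ∀ x : K, p.IsRoot x := by
    intro x
    simp [p, Polynomial.IsRoot, hcon x]
  have h5 : (univ : Finset K).card ≤ p.natDegree := by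
    refine Polynomial.card_le_degree_of_subset_roots ?_
    intro x _
    rw [Polynomial.mem_roots hp]
    exact hroot x
  rw [card_univ, hK] at h5
  omega

theorem tVtx : S_Vtx := by
  intro K _ _ _ k i i' hk hK hi hi' hne ξ η hξ hη
  obtain ⟨ρ, hρ⟩ := Vtx_ex k i i' hK hi.2.1 hi'.2.1 hne
  have h0 : ρ ≠ 0 := by
    rintro rfl
    exact hρ (by rw [zero_pow (by positivity), zero_pow (by positivity)])
  have h1 : ρ ≠ 1 := by
    rintro rfl
    exact hρ (by rw [one_pow, one_pow])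
  have hd : ρ ^ 2 ^ i + ρ ^ 2 ^ i' ≠ 0 := fun h => hρ (CharTwo.add_eq_zero.mp h)
  have ha : ρ + ρ ^ 2 ^ i' ≠ 0 := fun h =>
    h1 (Vtx_fix k i' hK hi' ρ h0 (CharTwo.add_eq_zero.mp h).symm)
  have hb : ρ + ρ ^ 2 ^ i ≠ 0 := fun h =>
    h1 (Vtx_fix k i hK hi ρ h0 (CharTwo.add_eq_zero.mp h).symm)
  have h2 : (2 : K) = 0 := CharTwo.two_eq_zero
  refine ⟨1, ρ, η * (ρ + ρ ^ 2 ^ i') / (ξ * (ρ ^ 2 ^ i + ρ ^ 2 ^ i')),
    η * (ρ + ρ ^ 2 ^ i) / (ρ ^ 2 ^ i + ρ ^ 2 ^ i'), one_ne_zero, h0, Ne.symm h1, ?_, ?_, ?_, ?_⟩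
  · exact div_ne_zero (mul_ne_zero hη ha) (mul_ne_zero hξ hd)
  · exact div_ne_zero (mul_ne_zero hη hb) hd
  · rw [one_pow, one_pow]
    field_simp
    linear_combination (ρ ^ 2 ^ i') * h2
  · field_simp
    linear_combination (ρ * ρ ^ 2 ^ i) * h2

end Pool.Agent.MP8bS
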