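import Pool.Agent.Lib.MP_8b575b_co.Spr.Spec

set_option autoImplicit false

namespace Pool.Agent.MP8bS

open Finset

open scoped Classical

/-- Prefix sums of the periodic sequence. -/
private def walP (t : ℕ → ℕ) (m n : ℕ) : ℕ := ∑ i ∈ range n, t (i % m)

private theorem wal_add (t : ℕ → ℕ) (m l r : ℕ) :
    walP t m (l + r) = walP t m l + ∑ i ∈ range r, t ((l + i) % m) := by
  rw [walP, walP, Finset.sum_range_add]

private theorem wal_succ (t : ℕ → ℕ) (m j : ℕ) (hj : j < m) :
    walP t m (j + 1) = walP t m j + t j := by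
  rw [walP, walP, Finset.sum_range_succ, Nat.mod_eq_of_lt hj]

private theorem wal_per (t : ℕ → ℕ) (m n : ℕ) : walP t m (n + m) = walP t m m + walP t m n := by
  rw [add_comm n m, wal_add]
  congr 1
  rw [walP]
  refine Finset.sum_congr rfl fun i _ => ?_
  rw [Nat.add_mod_left]

/-- The step of the sequence. -/
private theorem wal_mod (k x y s : ℕ) (hk : 0 < k) (h : y ≡ x + s [MOD k]) (hs : s < k) :
    (y % k + (k - x % k)) % k = s := by
  have h1 : x % k < k := Nat.mod_lt _ hk
  have h2 : (y % k + (k - x % k)) ≡ s [MOD k] := by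
    have h3 : (y % k + (k - x % k)) + x % k ≡ s + x % k [MOD k] := by
      have h4 : (y % k + (k - x % k)) + x % k = y % k + k := by omega
      rw [h4]
      calc y % k + k ≡ y + 0 [MOD k] := (Nat.mod_modEq y k).add (Nat.modEq_zero_iff_dvd.2 dvd_rfl)
        _ ≡ x + s [MOD k] := h
        _ ≡ x % k + s [MOD k] := (Nat.mod_modEq x k).symm.add_right s
        _ = s + x % k := add_comm _ _
    exact Nat.ModEq.add_right_cancel' _ h3
  rw [h2, Nat.mod_eq_of_lt hs]

/-- The inductive step. -/
private theorem wal_main {K : Type} [Field K] (k : ℕ) (a : ℕ → K) (hP : Per k a) (m : ℕ)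
    (hm1 : 1 ≤ m) (hmk : m < k)
    (ih : ∀ m' < m, 1 ≤ m' → ∀ t : ℕ → ℕ, (∀ j < m', t j < k) → k ∣ ∑ j ∈ range m', t j →
      ∃ j < m', a (t j) = 0) (t : ℕ → ℕ) (ht : ∀ j < m, t j < k)
    (hsum : k ∣ ∑ j ∈ range m, t j) : ∃ j < m, a (t j) = 0 := by
  by_contra hcon
  push Not at hcon
  have hk : 0 < k := by omega
  have hPm : k ∣ walP t m m := by
    have h1 : walP t m m = ∑ j ∈ range m, t j := by
      rw [walP]
      exact Finset.sum_congr rfl fun j hj => by rw [Nat.mod_eq_of_lt (mem_range.1 hj)]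
    rw [h1]
    exact hsum
  let b : ℕ → ℕ := fun j => walP t m j % k
  have hbk : ∀ j, b j < k := fun j => Nat.mod_lt _ hk
  -- (i)
  have hinj : ∀ j l, j < l → l < m → b j ≠ b l := by
    intro j l hjl hl h
    have h1 : walP t m j ≡ walP t m l [MOD k] := h
    have h2 : walP t m l = walP t m j + ∑ i ∈ range (l - j), t (j + i) := by
      have h3 := wal_add t m j (l - j)
      rw [Nat.add_sub_cancel' hjl.le] at h3
      rw [h3]
      congr 1
      refine Finset.sum_congr rfl fun i hi => ?_
      rw [Nat.mod_eq_of_lt]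
      have := mem_range.1 hi
      omega
    have h4 : k ∣ ∑ i ∈ range (l - j), t (j + i) := by
      rw [h2] at h1
      have h5 : walP t m j + 0 ≡ walP t m j + ∑ i ∈ range (l - j), t (j + i) [MOD k] := h1
      exact Nat.modEq_zero_iff_dvd.1 (Nat.ModEq.add_left_cancel' _ h5).symm
    obtain ⟨i, hi, h6⟩ := ih (l - j) (by omega) (by omega) (fun i => t (j + i))
      (fun i hi => ht _ (by omega)) h4
    exact hcon (j + i) (by omega) h6
  -- (ii)
  have hzero : ∀ j l, j < m → l < m → l ≠ (j + 1) % m → a ((b l + (k - b j)) % k) = 0 := by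
    intro j l hj hl hne
    by_contra hane
    obtain ⟨r, hr1, hr2⟩ : ∃ r, r + 1 < m ∧ (l + r = j ∨ l + r = j + m) := by
      by_cases hlj : l ≤ j
      · refine ⟨j - l, ?_, Or.inl (by omega)⟩
        by_contra h
        have h1 : l = 0 := by omega
        have h2 : j + 1 = m := by omega
        rw [h2, Nat.mod_self] at hne
        exact hne h1
      · refine ⟨j + m - l, ?_, Or.inr (by omega)⟩
        by_contra h
        have h1 : l = j + 1 := by omega
        apply hne
        rw [Nat.mod_eq_of_lt (by omega)]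
        exact h1
    have h1 : walP t m l + ∑ i ∈ range r, t ((l + i) % m) ≡ walP t m j [MOD k] := by
      rw [← wal_add]
      rcases hr2 with h | h
      · rw [h]
      · rw [h, wal_per]
        have h2 : walP t m m + walP t m j ≡ 0 + walP t m j [MOD k] :=
          (Nat.modEq_zero_iff_dvd.2 hPm).add_right _
        rw [zero_add] at h2
        exact h2
    let u : ℕ → ℕ := fun i => if i = 0 then (b l + (k - b j)) % k else t ((l + (i - 1)) % m)
    have hu0 : u 0 = (b l + (k - b j)) % k := if_pos rfl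
    have hus : ∀ i, u (i + 1) = t ((l + i) % m) := fun i => by
      change (if i + 1 = 0 then _ else t ((l + (i + 1 - 1)) % m)) = _
      rw [if_neg (Nat.succ_ne_zero i), Nat.add_sub_cancel]
    have h3 : k ∣ ∑ i ∈ range (r + 1), u i := by
      rw [Finset.sum_range_succ', hu0, Finset.sum_congr rfl fun i _ => hus i]
      refine Nat.modEq_zero_iff_dvd.1 ?_
      have hbj := hbk j
      have h4 : ∑ i ∈ range r, t ((l + i) % m) + (b l + (k - b j)) % k + b j ≡ 0 + b j [MOD k] := by
        calc ∑ i ∈ range r, t ((l + i) % m) + (b l + (k - b j)) % k + b j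
            ≡ ∑ i ∈ range r, t ((l + i) % m) + (b l + (k - b j)) + b j [MOD k] :=
              ((Nat.mod_modEq _ _).add_left _).add_right _
          _ = ∑ i ∈ range r, t ((l + i) % m) + b l + k := by omega
          _ ≡ ∑ i ∈ range r, t ((l + i) % m) + walP t m l + 0 [MOD k] :=
              ((Nat.mod_modEq _ _).add_left _).add (Nat.modEq_zero_iff_dvd.2 dvd_rfl)
          _ = walP t m l + ∑ i ∈ range r, t ((l + i) % m) := by ring
          _ ≡ walP t m j [MOD k] := h1
          _ ≡ b j [MOD k] := (Nat.mod_modEq _ _).symm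
          _ = 0 + b j := (zero_add _).symm
      exact Nat.ModEq.add_right_cancel' _ h4
    obtain ⟨i, hi, h5⟩ := ih (r + 1) hr1 (by omega) u (by
      intro i _
      rcases i with _ | i
      · rw [hu0]
        exact Nat.mod_lt _ hk
      · rw [hus]
        exact ht _ (Nat.mod_lt _ hm1)) h3
    rcases i with _ | i
    · rw [hu0] at h5
      exact hane h5
    · rw [hus] at h5
      exact hcon _ (Nat.mod_lt _ hm1) h5
  -- the step
  have hstep : ∀ j < m, (b ((j + 1) % m) + (k - b j)) % k = t j := by
    intro j hj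
    refine wal_mod k _ _ _ hk ?_ (ht j hj)
    rw [← wal_succ t m j hj]
    by_cases h : j + 1 = m
    · rw [h, Nat.mod_self]
      have h1 : walP t m 0 = 0 := by rw [walP, Finset.sum_range_zero]
      rw [h1]
      exact (Nat.modEq_zero_iff_dvd.2 hPm).symm
    · rw [Nat.mod_eq_of_lt (by omega)]
  -- (iii)
  set B : Finset ℕ := (range m).image b with hB
  have hinj2 : ∀ i j, i < m → j < m → b i = b j → i = j := by
    intro i j hi hj h
    rcases lt_trichotomy i j with h1 | h1 | h1
    · exact absurd h (hinj i j h1 hj)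
    · exact h1
    · exact absurd h.symm (hinj j i h1 hi)
  have hBr : B ⊆ range k := by
    intro x hx
    obtain ⟨j, _, rfl⟩ := Finset.mem_image.1 hx
    exact mem_range.2 (hbk j)
  have hBn : B.Nonempty := ⟨b 0, Finset.mem_image_of_mem _ (mem_range.2 hm1)⟩
  have hBc : B.card = m := by
    rw [hB, Finset.card_image_of_injOn, card_range]
    intro i hi j hj h
    exact hinj2 i j (mem_range.1 hi) (mem_range.1 hj) h
  have hBk : B ≠ range k := by
    intro h
    rw [h, card_range] at hBc
    omega
  have hper := hP B hBr hBn hBk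
  have hmem : ∀ j : Fin m, b j ∈ B := fun j => Finset.mem_image_of_mem _ (mem_range.2 j.2)
  let e : Fin m ≃ {x // x ∈ B} := Equiv.ofBijective (fun j => ⟨b j, hmem j⟩)
    ⟨fun i j h => Fin.ext (hinj2 i j i.2 j.2 (congrArg Subtype.val h)), fun x => by
      obtain ⟨j, hj, h⟩ := Finset.mem_image.1 x.2
      exact ⟨⟨j, mem_range.1 hj⟩, Subtype.ext h⟩⟩
  have he : ∀ j : Fin m, (e j : ℕ) = b j := fun j => rfl
  let ρ : Fin m → Fin m := fun j => ⟨(j + 1) % m, Nat.mod_lt _ hm1⟩
  have hρ : Function.Injective ρ := by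
    intro i j h
    have h1 : ((i : ℕ) + 1) % m = ((j : ℕ) + 1) % m := congrArg Fin.val h
    have hi := i.2
    have hj := j.2
    apply Fin.ext
    by_cases h2 : (i : ℕ) + 1 = m <;> by_cases h3 : (j : ℕ) + 1 = m
    · omega
    · rw [h2, Nat.mod_self, Nat.mod_eq_of_lt (by omega)] at h1
      omega
    · rw [h3, Nat.mod_self, Nat.mod_eq_of_lt (by omega)] at h1
      omega
    · rw [Nat.mod_eq_of_lt (by omega), Nat.mod_eq_of_lt (by omega)] at h1
      omega
  let ρe : Fin m ≃ Fin m := Equiv.ofBijective ρ (Finite.injective_iff_bijective.1 hρ)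
  let σ₀ : Equiv.Perm {x // x ∈ B} := (e.symm.trans ρe).trans e
  have hσ₀ : ∀ j : Fin m, σ₀ (e j) = e (ρ j) := fun j => by
    change e (ρ (e.symm (e j))) = _
    rw [Equiv.symm_apply_apply]
  rw [Finset.sum_eq_single σ₀] at hper
  · refine Finset.prod_ne_zero_iff.2 (fun x _ => ?_) hper
    obtain ⟨j, rfl⟩ := e.surjective x
    rw [hσ₀, he, he]
    refine pow_ne_zero _ ?_
    have h1 := hstep j j.2
    change a ((b ((j + 1) % m) + (k - b j)) % k) ≠ 0
    rw [h1]
    exact hcon j j.2
  · intro σ _ hσ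
    obtain ⟨x, hx⟩ : ∃ x, σ x ≠ σ₀ x := by
      by_contra h
      push Not at h
      exact hσ (Equiv.ext h)
    obtain ⟨j, rfl⟩ := e.surjective x
    obtain ⟨l, hl⟩ := e.surjective (σ (e j))
    refine Finset.prod_eq_zero (Finset.mem_univ (e j)) ?_
    rw [← hl, he, he, hzero j l j.2 l.2, zero_pow (by positivity)]
    intro h
    apply hx
    rw [← hl, hσ₀]
    congr 1
    exact Fin.ext h
  · intro h
    exact absurd (Finset.mem_univ _) h

theorem tWal : S_Wal := by
  intro K _ k a hP m
  induction m using Nat.strong_induction_on with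
  | _ m ih =>
    intro hm1 hmk t ht hsum
    exact wal_main k a hP m hm1 hmk (fun m' hm' h1 t' ht' hs' =>
      ih m' hm' h1 (by omega) t' ht' hs') t ht hsum

end Pool.Agent.MP8bS
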